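import Pool.Agent.Q224.CR.Defs

/-!
# The lower bound `n ≤ 2 cr(G)`
-/

set_option autoImplicit false

namespace Q224.CR

open Classical

variable {V : Type*}

/-- The indicator of a proposition in `ZMod 2`. -/
noncomputable def ind (P : Prop) : ZMod 2 := if P then 1 else 0

theorem ind_true {P : Prop} (h : P) : ind P = 1 := if_pos h

theorem ind_false {P : Prop} (h : ¬ P) : ind P = 0 := if_neg h

theorem ind_inj {P Q : Prop} (h : ind P = ind Q) : P ↔ Q := by
  by_cases hP : P <;> by_cases hQ : Q <;> simp_all [ind]

theorem ind_xor (P Q : Prop) : ind (Xor P Q) = ind P + ind Q := by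
  by_cases hP : P <;> by_cases hQ : Q <;> simp [ind, hP, hQ, Xor]
  decide

theorem ind_and (P Q : Prop) : ind (P ∧ Q) = ind P * ind Q := by
  by_cases hP : P <;> by_cases hQ : Q <;> simp [ind, hP, hQ]

/-- The row of `v`, restricted to `W`. -/
noncomputable def row (G : SimpleGraph V) (W : Finset V) (v : V) : W → ZMod 2 :=
  fun b => ind (G.Adj v b)

/-- The change of the rows under local complementation at `a`. -/
noncomputable def step (G : SimpleGraph V) (W : Finset V) (a : W) :
    (W → ZMod 2) →ₗ[ZMod 2] (W → ZMod 2) where
  toFun x := x + x a • row G W a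
  map_add' x y := by
    funext b
    simp only [Pi.add_apply, Pi.smul_apply, smul_eq_mul]
    ring
  map_smul' c x := by
    funext b
    simp only [Pi.add_apply, Pi.smul_apply, smul_eq_mul, RingHom.id_apply]
    ring

theorem row_localCompl (G : SimpleGraph V) (W : Finset V) (a : W) (v : V) (hv : v ∉ W) :
    row (localCompl G a) W v = step G W a (row G W v) := by
  funext b
  have hne : v ≠ b := fun h => hv (h ▸ b.2)
  have e1 : (localCompl G a).Adj v b ↔ Xor (G.Adj v b) (G.Adj a v ∧ G.Adj a b) := by
    simp [localCompl, hne]
  have e2 : ind ((localCompl G a).Adj v b) = ind (Xor (G.Adj v b) (G.Adj a v ∧ G.Adj a b)) := by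
    rw [propext e1]
  show ind ((localCompl G a).Adj v b) = ind (G.Adj v b) + ind (G.Adj v a) * ind (G.Adj a b)
  rw [e2, ind_xor, ind_and, G.adj_comm a v]

theorem key (W : Finset V) (w : List V) : ∀ (_ : ∀ a ∈ w, a ∈ W) (B : SimpleGraph V × (V → ℤˣ)),
    ∃ L : List (Module.Dual (ZMod 2) (W → ZMod 2)),
      (∀ v v', v ∉ W → v' ∉ W → v ≠ v' → ind ((applyWord B w).1.Adj v v') =
        ind (B.1.Adj v v') + (L.map fun l => l (row B.1 W v) * l (row B.1 W v')).sum) ∧
      (∀ v, v ∉ W → ((applyWord B w).2 v = B.2 v ↔ (L.map fun l => l (row B.1 W v)).sum = 0) ∧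
        ((applyWord B w).2 v = B.2 v ∨ (applyWord B w).2 v = -B.2 v)) := by
  induction w with
  | nil =>
    intro _ B
    exact ⟨[], by simp [applyWord], by simp [applyWord]⟩
  | cons a w ih =>
    intro hw B
    have ha : a ∈ W := hw a (by simp)
    set a' : W := ⟨a, ha⟩ with ha'
    obtain ⟨L, hL1, hL2⟩ := ih (fun b hb => hw b (by simp [hb])) (inversion B a)
    refine ⟨(LinearMap.proj a') :: L.map (fun l => l.comp (step B.1 W a')), ?_, ?_⟩
    · intro v v' hv hv' hne
      have h1 := hL1 v v' hv hv' hne
      have e0 : applyWord B (a :: w) = applyWord (inversion B a) w := rfl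
      rw [e0, h1]
      have e1 : (inversion B a).1 = localCompl B.1 a' := rfl
      rw [e1, row_localCompl B.1 W a' v hv, row_localCompl B.1 W a' v' hv']
      have e2 : (localCompl B.1 a').Adj v v' ↔ Xor (B.1.Adj v v') (B.1.Adj a v ∧ B.1.Adj a v') := by
        simp [localCompl, hne, ha']
      rw [propext e2, ind_xor, ind_and, List.map_cons, List.sum_cons, List.map_map]
      have e3 : (LinearMap.proj a' : Module.Dual (ZMod 2) (W → ZMod 2)) (row B.1 W v) =
          ind (B.1.Adj a v) := by
        show ind (B.1.Adj v a) = _
        rw [B.1.adj_comm]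
      have e4 : (LinearMap.proj a' : Module.Dual (ZMod 2) (W → ZMod 2)) (row B.1 W v') =
          ind (B.1.Adj a v') := by
        show ind (B.1.Adj v' a) = _
        rw [B.1.adj_comm]
      rw [e3, e4, add_assoc]
      rfl
    · intro v hv
      have h1 := hL2 v hv
      have e0 : applyWord B (a :: w) = applyWord (inversion B a) w := rfl
      rw [e0]
      have e1 : (inversion B a).1 = localCompl B.1 a' := rfl
      rw [e1, row_localCompl B.1 W a' v hv] at h1
      rw [List.map_cons, List.sum_cons, List.map_map]
      have e3 : (LinearMap.proj a' : Module.Dual (ZMod 2) (W → ZMod 2)) (row B.1 W v) =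
          ind (B.1.Adj a v) := by
        show ind (B.1.Adj v a) = _
        rw [B.1.adj_comm]
      rw [e3]
      have e5 : (L.map ((fun l : Module.Dual (ZMod 2) (W → ZMod 2) => l (row B.1 W v)) ∘
          fun l => l.comp (step B.1 W a'))).sum =
          (L.map fun l => l (step B.1 W a' (row B.1 W v))).sum := rfl
      rw [e5]
      set s := (L.map fun l => l (step B.1 W a' (row B.1 W v))).sum with hs
      have hu : ∀ u : ℤˣ, -u ≠ u := by decide
      have hz : ∀ z : ZMod 2, z = 0 ∨ z = 1 := by decide
      by_cases hav : B.1.Adj a v
      · have e6 : (inversion B a).2 v = -B.2 v := by simp [inversion, hav]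
        rw [e6] at h1
        rw [ind_true hav]
        obtain ⟨h2, h3⟩ := h1
        rw [neg_neg] at h3
        refine ⟨?_, h3.symm⟩
        rcases hz s with h0 | h0
        · rw [h0]
          have h4 := h2.mpr h0
          rw [h4]
          constructor
          · intro h5; exact absurd h5 (hu _)
          · intro h5; exact absurd h5 (by decide)
        · rw [h0]
          have h4 : (applyWord (inversion B a) w).2 v ≠ -B.2 v := by
            intro h5
            have := h2.mp h5
            rw [h0] at this
            exact absurd this (by decide)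
          have h5 := h3.resolve_left h4
          rw [h5]
          constructor
          · intro _; decide
          · intro _; rfl
      · have e6 : (inversion B a).2 v = B.2 v := by simp [inversion, hav]
        rw [e6] at h1
        rw [ind_false hav, zero_add]
        exact h1

/-- A graph whose bicolorations can be reversed by strings of length at most `k` has at most `2 k`
vertices. -/
theorem card_le [Fintype V] {G : SimpleGraph V} {k : ℕ} (h : Reverses G k) :
    Fintype.card V ≤ 2 * k := by
  obtain ⟨w, hw, hw'⟩ := h 1
  set W : Finset V := w.toFinset with hW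
  obtain ⟨L, hL1, hL2⟩ := key W w (fun a ha => by rw [hW]; simpa using ha) (G, 1)
  rw [hw'] at hL1 hL2
  have hz : ∀ z : ZMod 2, z = 0 ∨ z = 1 := by decide
  have hzz : ∀ z : ZMod 2, z * z = z := by decide
  have g1 : ∀ v v', v ∉ W → v' ∉ W → v ≠ v' →
      (L.map fun l => l (row G W v) * l (row G W v')).sum = 0 := by
    intro v v' hv hv' hne
    have := hL1 v v' hv hv' hne
    simpa using this
  have g2 : ∀ v, v ∉ W → (L.map fun l => l (row G W v) * l (row G W v)).sum = 1 := by
    intro v hv
    simp only [hzz]
    have h1 := (hL2 v hv).1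
    have h2 : ¬ (-1 : V → ℤˣ) v = (1 : V → ℤˣ) v := by
      simp only [Pi.neg_apply, Pi.one_apply]
      decide
    rcases hz (L.map fun l => l (row G W v)).sum with h3 | h3
    · exact absurd (h1.mpr h3) h2
    · exact h3
  -- linear independence of the rows
  have hli : LinearIndependent (ZMod 2) (fun v : {v : V // v ∉ W} => row G W v) := by
    rw [linearIndependent_iff']
    intro s c hc u hu
    let F : Module.Dual (ZMod 2) (W → ZMod 2) := (L.map fun l => (l (row G W u)) • l).sum
    have hF : ∀ x, F x = (L.map fun l => l x * l (row G W u)).sum := by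
      intro x
      have : ∀ L : List (Module.Dual (ZMod 2) (W → ZMod 2)),
          (L.map fun l => (l (row G W u)) • l).sum x = (L.map fun l => l x * l (row G W u)).sum := by
        intro L
        induction L with
        | nil => simp
        | cons l L ih => simp [ih, mul_comm]
      exact this L
    have h1 : F (∑ v ∈ s, c v • row G W v) = 0 := by rw [hc, map_zero]
    rw [map_sum, Finset.sum_eq_single u] at h1
    · rw [map_smul, hF, g2 u u.2, smul_eq_mul, mul_one] at h1
      exact h1
    · intro v _ hne
      rw [map_smul, hF, g1 v u v.2 u.2 (fun h => hne (Subtype.ext h)), smul_zero]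
    · intro h; exact absurd hu h
  have h1 := hli.fintype_card_le_finrank
  rw [Module.finrank_fintype_fun_eq_card, Fintype.card_coe] at h1
  have h2 : Fintype.card {v : V // v ∉ W} = Fintype.card V - W.card := by
    rw [Fintype.card_subtype_compl, Fintype.card_coe]
  have h3 : W.card ≤ k := (List.toFinset_card_le w).trans hw
  have h4 : W.card ≤ Fintype.card V := Finset.card_le_univ W
  omega

end Q224.CR
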