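import Mathlib

/-! Project CR, job VARP: sums over residues modulo a product of different primes. -/

set_option autoImplicit false

namespace Pool.Agent.Q224.CR

open Finset

lemma prod_pos_primes {P : Finset ℕ} (hP : ∀ p ∈ P, p.Prime) : 0 < ∏ p ∈ P, p :=
  Finset.prod_pos fun p hp => (hP p hp).pos

lemma co_insert {P : Finset ℕ} {a : ℕ} (hP : ∀ p ∈ P, p.Prime) (ha : a.Prime) (haP : a ∉ P) :
    a.Coprime (∏ p ∈ P, p) :=
  Nat.Coprime.prod_right fun p hp => (Nat.coprime_primes ha (hP p hp)).2 (by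
    rintro rfl; exact haP hp)

lemma crt_sum (P : Finset ℕ) (hP : ∀ p ∈ P, p.Prime) (g : ℕ → ℕ → ℝ)
    (hg : ∀ p ∈ P, ∀ n, g p (n % p) = g p n) :
    ∑ m ∈ range (∏ p ∈ P, p), ∏ p ∈ P, g p m = ∏ p ∈ P, ∑ x ∈ range p, g p x := by
  classical
  induction P using Finset.induction_on with
  | empty => simp
  | insert a P ha ih =>
    have hP' : ∀ p ∈ P, p.Prime := fun p hp => hP p (mem_insert_of_mem hp)
    have hap : a.Prime := hP a (mem_insert_self _ _)
    rw [Finset.prod_insert ha, Finset.prod_insert ha,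
      ← ih hP' (fun p hp => hg p (mem_insert_of_mem hp))]
    set M := ∏ p ∈ P, p with hM
    have hco : a.Coprime M := co_insert hP' hap ha
    have hM0 : 0 < M := prod_pos_primes hP'
    have hdvd : ∀ p ∈ P, p ∣ M := fun p hp => Finset.dvd_prod_of_mem _ hp
    rw [Finset.sum_mul_sum, ← Finset.sum_product']
    refine Finset.sum_bij' (fun m _ => (m % a, m % M))
      (fun x _ => (Nat.chineseRemainder hco x.1 x.2 : ℕ)) ?_ ?_ ?_ ?_ ?_
    · intro m _
      rw [mem_product, mem_range, mem_range]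
      exact ⟨Nat.mod_lt _ hap.pos, Nat.mod_lt _ hM0⟩
    · intro x _
      rw [mem_range]
      exact Nat.chineseRemainder_lt_mul hco _ _ hap.pos.ne' hM0.ne'
    · intro m hm
      rw [mem_range] at hm
      have h1 := (Nat.chineseRemainder hco (m % a) (m % M)).2
      have h2 : ((Nat.chineseRemainder hco (m % a) (m % M) : ℕ)) ≡ m [MOD a * M] := by
        rw [← Nat.modEq_and_modEq_iff_modEq_mul hco]
        exact ⟨h1.1.trans (Nat.mod_modEq _ _), h1.2.trans (Nat.mod_modEq _ _)⟩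
      exact Nat.ModEq.eq_of_lt_of_lt h2
        (Nat.chineseRemainder_lt_mul hco _ _ hap.pos.ne' hM0.ne') hm
    · intro x hx
      rw [mem_product, mem_range, mem_range] at hx
      have h1 := (Nat.chineseRemainder hco x.1 x.2).2
      ext
      · show ((Nat.chineseRemainder hco x.1 x.2 : ℕ)) % a = x.1
        rw [h1.1, Nat.mod_eq_of_lt hx.1]
      · show ((Nat.chineseRemainder hco x.1 x.2 : ℕ)) % M = x.2
        rw [h1.2, Nat.mod_eq_of_lt hx.2]
    · intro m _
      rw [Finset.prod_insert ha]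
      show _ = g a (m % a) * ∏ p ∈ P, g p (m % M)
      rw [hg a (mem_insert_self _ _)]
      congr 1
      refine Finset.prod_congr rfl fun p hp => ?_
      rw [← hg p (mem_insert_of_mem hp) (m % M), Nat.mod_mod_of_dvd _ (hdvd p hp),
        hg p (mem_insert_of_mem hp)]

lemma modEq_prod (P : Finset ℕ) (hP : ∀ p ∈ P, p.Prime) (n m : ℕ) :
    n ≡ m [MOD ∏ p ∈ P, p] ↔ ∀ p ∈ P, n ≡ m [MOD p] := by
  classical
  induction P using Finset.induction_on with
  | empty => simp [Nat.modEq_one]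
  | insert a P ha ih =>
    have hP' : ∀ p ∈ P, p.Prime := fun p hp => hP p (mem_insert_of_mem hp)
    have hap : a.Prime := hP a (mem_insert_self _ _)
    rw [Finset.prod_insert ha, ← Nat.modEq_and_modEq_iff_modEq_mul (co_insert hP' hap ha), ih hP',
      Finset.forall_mem_insert]

lemma totient_prod (P : Finset ℕ) (hP : ∀ p ∈ P, p.Prime) :
    (Nat.totient (∏ p ∈ P, p) : ℝ) = ∏ p ∈ P, ((p : ℝ) - 1) := by
  classical
  induction P using Finset.induction_on with
  | empty => simp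
  | insert a P ha ih =>
    have hP' : ∀ p ∈ P, p.Prime := fun p hp => hP p (mem_insert_of_mem hp)
    have hap : a.Prime := hP a (mem_insert_self _ _)
    rw [Finset.prod_insert ha, Finset.prod_insert ha, Nat.totient_mul (co_insert hP' hap ha),
      Nat.totient_prime hap, Nat.cast_mul, ih hP', Nat.cast_sub hap.one_lt.le, Nat.cast_one]

/-- the number of the residues prime to `p` -/
lemma sum_unit {p : ℕ} (hp : p.Prime) :
    ∑ x ∈ range p, (if ¬ p ∣ x then (1 : ℝ) else 0) = (p : ℝ) - 1 := by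
  classical
  rw [← Finset.sum_filter, Finset.sum_const, nsmul_eq_mul, mul_one]
  have h1 : (range p).filter (fun x => ¬ p ∣ x) = (range p).erase 0 := by
    ext x
    rw [mem_filter, mem_erase, mem_range]
    constructor
    · rintro ⟨h1, h2⟩
      exact ⟨by rintro rfl; exact h2 (dvd_zero _), h1⟩
    · rintro ⟨h1, h2⟩
      exact ⟨h2, fun h3 => h1 (Nat.eq_zero_of_dvd_of_lt h3 h2)⟩
  rw [h1, card_erase_of_mem (mem_range.2 hp.pos), card_range, Nat.cast_sub hp.one_lt.le,
    Nat.cast_one]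

open Classical in
/-- the reduced residues modulo the product of the primes of `P` -/
noncomputable def RR (P : Finset ℕ) : Finset ℕ :=
  (range (∏ p ∈ P, p)).filter (fun m => ∀ p ∈ P, ¬ p ∣ m)

/-- sums of products over the reduced residues -/
lemma red_sum (P : Finset ℕ) (hP : ∀ p ∈ P, p.Prime) (g : ℕ → ℕ → ℝ)
    (hg : ∀ p ∈ P, ∀ n, g p (n % p) = g p n) :
    ∑ m ∈ RR P, ∏ p ∈ P, g p m = ∏ p ∈ P, ∑ x ∈ range p, (if ¬ p ∣ x then g p x else 0) := by
  classical
  have h := crt_sum P hP (fun p x => if ¬ p ∣ x then g p x else 0) (fun p hp n => by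
    have h1 : p ∣ n % p ↔ p ∣ n := (Nat.dvd_mod_iff dvd_rfl)
    simp only [h1, hg p hp])
  rw [← h, RR, Finset.sum_filter]
  refine Finset.sum_congr rfl fun m _ => ?_
  by_cases h2 : ∀ p ∈ P, ¬ p ∣ m
  · rw [if_pos h2]
    refine Finset.prod_congr rfl fun p hp => ?_
    rw [if_pos (h2 p hp)]
  · rw [if_neg h2]
    push Not at h2
    obtain ⟨p, hp, h3⟩ := h2
    rw [Finset.prod_eq_zero hp]
    rw [if_neg (not_not.2 h3)]

lemma card_RR (P : Finset ℕ) (hP : ∀ p ∈ P, p.Prime) :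
    ((RR P).card : ℝ) = ∏ p ∈ P, ((p : ℝ) - 1) := by
  have h := red_sum P hP (fun _ _ => 1) (fun _ _ _ => rfl)
  simp only [Finset.prod_const_one, Finset.sum_const, nsmul_eq_mul, mul_one] at h
  rw [h]
  exact Finset.prod_congr rfl fun p hp => sum_unit (hP p hp)

/-- the fibres of the reduction -/
lemma fib_RR (P W : Finset ℕ) (hP : ∀ p ∈ P, p.Prime) (hW : W ⊆ P) (a : ℕ)
    (ha : ∀ p ∈ W, ¬ p ∣ a) :
    (((RR P).filter (fun m => m ≡ a [MOD ∏ p ∈ W, p])).card : ℝ) =
      (∏ p ∈ P, ((p : ℝ) - 1)) / (Nat.totient (∏ p ∈ W, p) : ℝ) := by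
  classical
  have hWp : ∀ p ∈ W, p.Prime := fun p hp => hP p (hW hp)
  have h := red_sum P hP (fun p x => if p ∈ W ∧ ¬ x ≡ a [MOD p] then 0 else 1) (fun p hp n => by
    have h1 : n % p ≡ a [MOD p] ↔ n ≡ a [MOD p] := by
      constructor
      · exact fun h => (Nat.mod_modEq n p).symm.trans h
      · exact fun h => (Nat.mod_modEq n p).trans h
    simp only [h1])
  have h2 : ∑ m ∈ RR P, ∏ p ∈ P, (if p ∈ W ∧ ¬ m ≡ a [MOD p] then (0 : ℝ) else 1) =
      (((RR P).filter (fun m => m ≡ a [MOD ∏ p ∈ W, p])).card : ℝ) := by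
    rw [Finset.card_filter]
    push_cast
    refine Finset.sum_congr rfl fun m _ => ?_
    by_cases h3 : m ≡ a [MOD ∏ p ∈ W, p]
    · rw [if_pos h3]
      rw [modEq_prod W hWp] at h3
      refine Finset.prod_eq_one fun p _ => ?_
      rw [if_neg]
      rintro ⟨h4, h5⟩
      exact h5 (h3 p h4)
    · rw [if_neg h3]
      rw [modEq_prod W hWp] at h3
      push Not at h3
      obtain ⟨p, hp, h4⟩ := h3
      rw [Finset.prod_eq_zero (hW hp)]
      rw [if_pos ⟨hp, h4⟩]
  rw [← h2, h, totient_prod W hWp]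
  have h3 : ∏ p ∈ P, ((p : ℝ) - 1) = (∏ p ∈ P \ W, ((p : ℝ) - 1)) * ∏ p ∈ W, ((p : ℝ) - 1) :=
    (Finset.prod_sdiff hW).symm
  have h4 : ∏ p ∈ W, ((p : ℝ) - 1) ≠ 0 := by
    rw [Finset.prod_ne_zero_iff]
    intro p hp
    have : (2 : ℝ) ≤ p := by exact_mod_cast (hWp p hp).two_le
    linarith
  rw [h3, mul_div_assoc, div_self h4, mul_one, ← Finset.prod_sdiff hW]
  have h5 : ∏ p ∈ W, ∑ x ∈ range p, (if ¬ p ∣ x then
      (if p ∈ W ∧ ¬ x ≡ a [MOD p] then (0 : ℝ) else 1) else 0) = 1 := by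
    refine Finset.prod_eq_one fun p hp => ?_
    have hpp := hWp p hp
    rw [Finset.sum_eq_single (a % p)]
    · have h6 : ¬ p ∣ a % p := fun h => ha p hp ((Nat.dvd_mod_iff dvd_rfl).1 h)
      rw [if_pos h6, if_neg]
      rintro ⟨_, h7⟩
      exact h7 (Nat.mod_modEq _ _)
    · intro x hx hxa
      rw [mem_range] at hx
      by_cases h6 : ¬ p ∣ x
      · rw [if_pos h6, if_pos]
        refine ⟨hp, fun h7 => hxa ?_⟩
        have h8 : x % p = a % p := h7
        rwa [Nat.mod_eq_of_lt hx] at h8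
      · rw [if_neg h6]
    · intro h6
      exact absurd (mem_range.2 (Nat.mod_lt _ hpp.pos)) h6
  rw [h5, mul_one]
  refine Finset.prod_congr rfl fun p hp => ?_
  rw [mem_sdiff] at hp
  rw [← sum_unit (hP p hp.1)]
  refine Finset.sum_congr rfl fun x _ => ?_
  by_cases h6 : ¬ p ∣ x
  · rw [if_pos h6, if_pos h6, if_neg (fun h => hp.2 h.1)]
  · rw [if_neg h6, if_neg h6]

end Pool.Agent.Q224.CR
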