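import Mathlib

/-!
# The colour-reversal number: definitions
-/

set_option autoImplicit false

namespace Q224.CR

variable {V : Type*}

/-- The local complement of `G` at `a`: the adjacency of every pair of distinct neighbours of `a` is
toggled. -/
def localCompl (G : SimpleGraph V) (a : V) : SimpleGraph V where
  Adj x y := x ≠ y ∧ Xor (G.Adj x y) (G.Adj a x ∧ G.Adj a y)
  symm := ⟨fun x y h => ⟨h.1.symm, by
    have h2 := h.2
    rw [G.adj_comm x y, and_comm (a := G.Adj a x)] at h2
    exact h2⟩⟩
  loopless := ⟨fun _ h => h.1 rfl⟩

open Classical in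
/-- The local inversion of the bicolored graph `(G, β)` at `a`: the graph is locally complemented at
`a`, and the neighbours of `a` change their colour. The colours are `1` and `-1`. -/
noncomputable def inversion (B : SimpleGraph V × (V → ℤˣ)) (a : V) :
    SimpleGraph V × (V → ℤˣ) :=
  (localCompl B.1 a, fun x => if B.1.Adj a x then -B.2 x else B.2 x)

/-- `B_w`: the local inversions at the entries of `w` are applied in this order. -/
noncomputable def applyWord (B : SimpleGraph V × (V → ℤˣ)) (w : List V) :
    SimpleGraph V × (V → ℤˣ) :=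
  w.foldl inversion B

/-- Every bicoloration `β` can be reversed by a string of length at most `l`. -/
def Reverses (G : SimpleGraph V) (l : ℕ) : Prop :=
  ∀ β : V → ℤˣ, ∃ w : List V, w.length ≤ l ∧ applyWord (G, β) w = (G, -β)

/-- The colour-reversal number: the least `l` with `Reverses G l`, and `∞` if there is none. -/
noncomputable def cr (G : SimpleGraph V) : ℕ∞ := ⨅ l : {l : ℕ // Reverses G l}, ((l : ℕ) : ℕ∞)

theorem cr_le_iff (G : SimpleGraph V) (k : ℕ) : cr G ≤ k ↔ Reverses G k := by
  constructor
  · intro h
    by_contra hcon
    have h1 : ((k + 1 : ℕ) : ℕ∞) ≤ cr G := by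
      apply le_iInf
      rintro ⟨l, hl⟩
      have : k + 1 ≤ l := by
        by_contra hlt
        apply hcon
        intro β
        obtain ⟨w, hw, hw'⟩ := hl β
        exact ⟨w, by omega, hw'⟩
      exact_mod_cast this
    have h2 := h1.trans h
    have h3 : k + 1 ≤ k := by exact_mod_cast h2
    omega
  · intro h
    exact iInf_le (fun l : {l : ℕ // Reverses G l} => ((l : ℕ) : ℕ∞)) ⟨k, h⟩

/-- The adjacency matrix. -/
noncomputable def matrix {n : ℕ} (G : SimpleGraph (Fin n)) : List (List Bool) :=
  by
    classical
    exact List.ofFn fun i : Fin n => List.ofFn fun j : Fin n => decide (G.Adj i j)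

end Q224.CR
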