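import Pool.Agent.Q224.CR.Sim

/-!
# The running time
-/

set_option autoImplicit false

namespace Pool.Agent.NPC.Q224CR

open _root_.Q224.CR Pool.Agent.NPC.H628F Pool.Agent.H628R2.Forb

variable {α : Type} [TEnc α]

theorem p_mget {M : α → List (List Bool)} {i j : α → ℕ} (hM : Poly M) (hi : Poly i)
    (hj : Poly j) : Poly (fun a => mget (M a) (i a) (j a)) :=
  Poly.getD (Poly.getD hM hi (Poly.const [])) hj (Poly.const false)

theorem p_lstep {n : α → ℕ} {s : α → List (List Bool) × List Bool} {v : α → ℕ} (hn : UPoly n)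
    (hs : Poly s) (hv : Poly v) : Poly (fun a => lstep (n a) (s a) (v a)) := by
  unfold lstep
  refine Poly.pair ?_ ?_
  · refine Poly.map (F := fun a i => (List.range (n a)).map fun j =>
      !decide (i = j) && (mget (s a).1 i j ^^ (mget (s a).1 (v a) i && mget (s a).1 (v a) j)))
      hn.range ?_
    refine Poly.map (F := fun (a : α × ℕ) j =>
      !decide (a.2 = j) && (mget (s a.1).1 a.2 j ^^ (mget (s a.1).1 (v a.1) a.2 &&
        mget (s a.1).1 (v a.1) j))) (hn.range.comp p_fst) ?_
    have h1 : Poly (fun p : (α × ℕ) × ℕ => (s p.1.1).1) := Poly.fst (hs.comp (Poly.fst p_fst))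
    have h2 : Poly (fun p : (α × ℕ) × ℕ => v p.1.1) := hv.comp (Poly.fst p_fst)
    have h3 : Poly (fun p : (α × ℕ) × ℕ => p.1.2) := Poly.snd p_fst
    have h4 : Poly (fun p : (α × ℕ) × ℕ => p.2) := p_snd
    exact Poly.and (Poly.not (Poly.decide_eq h3 h4))
      (Poly.xor (p_mget h1 h3 h4) (Poly.and (p_mget h1 h2 h3) (p_mget h1 h2 h4)))
  · refine Poly.map (F := fun a i => (s a).2.getD i false ^^ mget (s a).1 (v a) i) hn.range ?_
    exact Poly.xor (Poly.getD (Poly.snd (hs.comp p_fst)) p_snd (Poly.const false))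
      (p_mget (Poly.fst (hs.comp p_fst)) (hv.comp p_fst) p_snd)

theorem sz_lstep (n : ℕ) (s : List (List Bool) × List Bool) (v : ℕ) :
    sz (lstep n s v) ≤ n * (n * 4 + 1 + 1) + n * 4 + 3 := by
  unfold lstep
  rw [sz_pair]
  have h1 := sz_le_length_mul ((List.range n).map fun i => (List.range n).map fun j =>
      !decide (i = j) && (mget s.1 i j ^^ (mget s.1 v i && mget s.1 v j))) (n * 4 + 1) (by
    intro l hl
    rw [List.mem_map] at hl
    obtain ⟨i, -, rfl⟩ := hl
    have := sz_le_length_mul ((List.range n).map fun j =>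
      !decide (i = j) && (mget s.1 i j ^^ (mget s.1 v i && mget s.1 v j))) 3
      (fun b _ => sz_bool_le b)
    simpa using this)
  have h2 := sz_le_length_mul ((List.range n).map fun i => s.2.getD i false ^^ mget s.1 v i) 3
      (fun b _ => sz_bool_le b)
  simp only [List.length_map, List.length_range] at h1 h2
  omega

theorem p_test {n : α → ℕ} {M : α → List (List Bool)} {s : α → List (List Bool) × List Bool}
    (hn : UPoly n) (hM : Poly M) (hs : Poly s) : Poly (fun a => test (n a) (M a) (s a)) := by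
  unfold test
  refine Poly.all (p := fun a i => (s a).2.getD i false &&
    (List.range (n a)).all fun j => decide (mget (s a).1 i j = mget (M a) i j)) hn.range ?_
  refine Poly.and (Poly.getD (Poly.snd (hs.comp p_fst)) p_snd (Poly.const false)) ?_
  refine Poly.all (p := fun (a : α × ℕ) j => decide (mget (s a.1).1 a.2 j = mget (M a.1) a.2 j))
    (hn.range.comp p_fst) ?_
  have h1 : Poly (fun p : (α × ℕ) × ℕ => (s p.1.1).1) := Poly.fst (hs.comp (Poly.fst p_fst))
  have h2 : Poly (fun p : (α × ℕ) × ℕ => M p.1.1) := hM.comp (Poly.fst p_fst)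
  exact Poly.decide_eq (p_mget h1 (Poly.snd p_fst) p_snd) (p_mget h2 (Poly.snd p_fst) p_snd)

theorem p_fold {n : α → ℕ} {M : α → List (List Bool)} {w : α → List ℕ}
    (hn : UPoly n) (hM : Poly M) (hw : Poly w) :
    Poly (fun a => (w a).foldl (lstep (n a)) (M a, [])) := by
  obtain ⟨rn, hrn⟩ := UPoly.le hn
  obtain ⟨rM, hrM⟩ := hM.sz_le
  refine Poly.foldl (s := fun a => (M a, ([] : List Bool))) (F := fun a s v => lstep (n a) s v) hw
    (Poly.pair hM (Poly.const _)) ?_ (rM + rn * (rn * Polynomial.C 4 + Polynomial.C 1 + Polynomial.C 1) +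
      rn * Polynomial.C 4 + Polynomial.C 3) ?_
  · exact p_lstep (hn.comp p_fst) (Poly.fst p_snd) (Poly.snd p_snd)
  · intro a k hk
    have h1 := hrn a
    have h2 := hrM a
    simp only [Polynomial.eval_add, Polynomial.eval_mul, Polynomial.eval_C]
    have h3 : n a * (n a * 4 + 1 + 1) ≤ rn.eval (sz a) * (rn.eval (sz a) * 4 + 1 + 1) :=
      Nat.mul_le_mul h1 (by omega)
    rcases List.eq_nil_or_concat ((w a).take k) with h0 | ⟨l, b, h0⟩
    · rw [h0, List.foldl_nil, sz_pair]
      simp only [sz_list_nil]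
      omega
    · rw [h0, List.concat_eq_append, List.foldl_append, List.foldl_cons, List.foldl_nil]
      refine (sz_lstep _ _ _).trans ?_
      omega

/-- The exponent of the padding. -/
def mm (k : ℕ) : ℕ := (2 * k + 1) * k

/-- The parameter. -/
def kap (x : List (List Bool) × List Unit) : ℕ := x.2.length

theorem primrec_mm : Primrec mm := by
  have h1 : Primrec (fun k : ℕ => 2 * k + 1) :=
    Primrec.nat_add.comp (Primrec.nat_mul.comp (Primrec.const 2) Primrec.id) (Primrec.const 1)
  exact Primrec.nat_mul.comp h1 Primrec.id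

theorem fpt : ∃ (tm : Turing.FinTM2) (e₀ : tm.Γ tm.k₀ ≃ Bool) (e₁ : tm.Γ tm.k₁ ≃ Bool)
    (f : ℕ → ℕ) (c : ℕ), Computable f ∧ ∀ x : List (List Bool) × List Unit,
      Nonempty (Turing.TM2OutputsInTime tm ((bits x).map e₀.invFun)
        (some ((bits (alg x)).map e₁.invFun)) (f (kap x) * ((bits x).length + 1) ^ c)) := by
  refine fpt_tm alg kap mm primrec_mm ?_ ?_
  · have h1 : UPoly (fun x : List (List Bool) × List Unit => x.2.length) := UPoly.length p_snd
    exact UPoly.mul (UPoly.add (UPoly.mul (UPoly.const 2) h1) (UPoly.const 1)) h1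
  · have hv := Poly.val (fun x : (List (List Bool) × List Unit) × List Unit =>
        2 ^ (mm (kap x.1)) ≤ x.2.length)
    have h1 := Poly.fst hv
    have hM := Poly.fst h1
    have hn := UPoly.length hM
    have hk := UPoly.length (Poly.snd h1)
    have h2k := UPoly.mul (UPoly.const 2) hk
    have hmin := UPoly.of_le (Poly.min hn.toPoly h2k.toPoly) h2k (fun a => Nat.min_le_right _ _)
    have he := p_enum hmin.range hk (UPoly.length (Poly.snd hv)) (fun a => by
      have h3 := a.2
      refine le_trans ?_ h3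
      rw [List.length_range, mm, pow_mul]
      apply Nat.pow_le_pow_left
      have h4 : min a.1.1.1.length (2 * a.1.1.2.length) ≤ 2 * a.1.1.2.length := Nat.min_le_right _ _
      have h5 : 2 * a.1.1.2.length + 1 < 2 ^ (2 * a.1.1.2.length + 1) := Nat.lt_two_pow_self
      have h6 : kap a.1.1 = a.1.1.2.length := rfl
      rw [h6]
      omega)
    refine Poly.and (Poly.decide_le hn.toPoly h2k.toPoly) ?_
    refine Poly.any (p := fun a w => test a.1.1.1.length a.1.1.1
      (w.foldl (lstep a.1.1.1.length) (a.1.1.1, []))) he ?_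
    exact p_test (hn.comp p_fst) (hM.comp p_fst) (p_fold (hn.comp p_fst) (hM.comp p_fst) p_snd)

theorem bits_len {n : ℕ} (G : SimpleGraph (Fin n)) (k : ℕ) :
    (bits (matrix G, List.replicate k ())).length + 1 ≤ (2 * k + 7) * (n + 1) ^ 2 := by
  classical
  have e : (bits (matrix G, List.replicate k ())).length = sz (matrix G, List.replicate k ()) := rfl
  rw [e, sz_pair, sz_replicate_unit]
  have h1 := sz_le_length_mul (matrix G) (n * 4 + 1) (by
    intro l hl
    rw [matrix, List.mem_ofFn] at hl
    obtain ⟨i, rfl⟩ := hl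
    have := sz_le_length_mul (List.ofFn fun j : Fin n => decide (G.Adj i j)) 3
      (fun b _ => sz_bool_le b)
    simpa using this)
  rw [length_matrix] at h1
  nlinarith [Nat.zero_le (k * n), Nat.zero_le (k * n * n)]

end Pool.Agent.NPC.Q224CR
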