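import Mathlib
import Pool.Agent.Q224.CR.Crt

/-! Project CR, job VARP: the quadratic form. -/

set_option autoImplicit false

namespace Pool.Agent.Q224.CR

open Finset

/-- expansion of a second moment -/
lemma quad {Ω ι : Type*} (S : Finset Ω) (X : Finset ι) (κ : ι → ℝ) (ξ : Ω → ι → ℝ)
    (D : ι → ι → ℝ) (N η : ℝ)
    (h : ∀ x ∈ X, ∀ y ∈ X, |∑ c ∈ S, ξ c x * ξ c y - N * D x y| ≤ η) :
    ∑ c ∈ S, (∑ x ∈ X, κ x * ξ c x) ^ 2 ≤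
      N * ∑ x ∈ X, ∑ y ∈ X, κ x * κ y * D x y + η * (∑ x ∈ X, |κ x|) ^ 2 := by
  have e1 : ∑ c ∈ S, (∑ x ∈ X, κ x * ξ c x) ^ 2 =
      ∑ x ∈ X, ∑ y ∈ X, κ x * κ y * ∑ c ∈ S, ξ c x * ξ c y := by
    have e2 : ∀ c ∈ S, (∑ x ∈ X, κ x * ξ c x) ^ 2 =
        ∑ x ∈ X, ∑ y ∈ X, κ x * κ y * (ξ c x * ξ c y) := by
      intro c _
      rw [pow_two, Finset.sum_mul_sum]
      exact Finset.sum_congr rfl fun x _ => Finset.sum_congr rfl fun y _ => by ring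
    rw [Finset.sum_congr rfl e2, Finset.sum_comm]
    refine Finset.sum_congr rfl fun x _ => ?_
    rw [Finset.sum_comm]
    exact Finset.sum_congr rfl fun y _ => (Finset.mul_sum _ _ _).symm
  have e3 : (∑ x ∈ X, |κ x|) ^ 2 = ∑ x ∈ X, ∑ y ∈ X, |κ x| * |κ y| := by
    rw [pow_two, Finset.sum_mul_sum]
  rw [e1, e3, Finset.mul_sum, Finset.mul_sum, ← Finset.sum_add_distrib]
  refine Finset.sum_le_sum fun x hx => ?_
  rw [Finset.mul_sum, Finset.mul_sum, ← Finset.sum_add_distrib]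
  refine Finset.sum_le_sum fun y hy => ?_
  have h1 := h x hx y hy
  have h2 : κ x * κ y * (∑ c ∈ S, ξ c x * ξ c y - N * D x y) ≤ |κ x| * |κ y| * η := by
    calc κ x * κ y * (∑ c ∈ S, ξ c x * ξ c y - N * D x y)
        ≤ |κ x * κ y * (∑ c ∈ S, ξ c x * ξ c y - N * D x y)| := le_abs_self _
      _ = |κ x| * |κ y| * |∑ c ∈ S, ξ c x * ξ c y - N * D x y| := by rw [abs_mul, abs_mul]
      _ ≤ |κ x| * |κ y| * η := by gcongr
  nlinarith [h2]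

/-- the factor of a set `T` -/
noncomputable def AW (δ : ℕ → ℝ) (W T : Finset ℕ) : ℝ := by
  classical exact if W ⊆ T then ∏ p ∈ T \ W, δ p else 0

open Classical in
/-- expansion of the product in the subsets `W` -/
lemma D_eq (P T T' : Finset ℕ) (hT : T ⊆ P) (hT' : T' ⊆ P) (δ : ℕ → ℝ) (n n' : ℕ) :
    ∏ p ∈ T ∪ T', (if p ∈ T ∧ p ∈ T' ∧ ¬ n ≡ n' [MOD p] then δ p ^ 2 else δ p) =
      ∑ W ∈ P.powerset, AW δ W T * AW δ W T' * (∏ p ∈ W, (δ p - δ p ^ 2)) *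
        (if ∀ p ∈ W, n ≡ n' [MOD p] then 1 else 0) := by
  have h1 : ∏ p ∈ T ∪ T', (if p ∈ T ∧ p ∈ T' ∧ ¬ n ≡ n' [MOD p] then δ p ^ 2 else δ p) =
      ∏ p ∈ P, ((if p ∈ T ∧ p ∈ T' then (δ p - δ p ^ 2) * (if n ≡ n' [MOD p] then 1 else 0) else 0) +
        (if p ∈ T then δ p else 1) * (if p ∈ T' then δ p else 1)) := by
    rw [← Finset.prod_subset (Finset.union_subset hT hT')]
    · refine Finset.prod_congr rfl fun p hp => ?_
      rw [mem_union] at hp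
      by_cases a : p ∈ T <;> by_cases b : p ∈ T' <;> by_cases e : n ≡ n' [MOD p]
      all_goals first
        | exact (hp.elim a b).elim
        | (simp [a, b, e]; done)
        | (simp [a, b, e]; ring)
    · intro p _ hp
      rw [mem_union, not_or] at hp
      simp [hp.1, hp.2]
  rw [h1, Finset.prod_add]
  refine Finset.sum_congr rfl fun W hW => ?_
  rw [mem_powerset] at hW
  have h2 : ∀ U : Finset ℕ, U ⊆ P → ∏ p ∈ P \ W, (if p ∈ U then δ p else 1) = ∏ p ∈ U \ W, δ p := by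
    intro U hU
    rw [← Finset.prod_subset (Finset.sdiff_subset_sdiff hU (subset_refl W))]
    · refine Finset.prod_congr rfl fun p hp => ?_
      rw [mem_sdiff] at hp
      rw [if_pos hp.1]
    · intro p hp hp'
      rw [mem_sdiff] at hp hp'
      rw [if_neg]
      exact fun h => hp' ⟨h, hp.2⟩
  rw [Finset.prod_mul_distrib, h2 T hT, h2 T' hT']
  unfold AW
  by_cases a : W ⊆ T
  · by_cases b : W ⊆ T'
    · rw [if_pos a, if_pos b]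
      have h3 : ∏ p ∈ W, (if p ∈ T ∧ p ∈ T' then
          (δ p - δ p ^ 2) * (if n ≡ n' [MOD p] then (1 : ℝ) else 0) else 0) =
          (∏ p ∈ W, (δ p - δ p ^ 2)) * (if ∀ p ∈ W, n ≡ n' [MOD p] then 1 else 0) := by
        rw [← Finset.prod_boole, ← Finset.prod_mul_distrib]
        refine Finset.prod_congr rfl fun p hp => ?_
        rw [if_pos ⟨a hp, b hp⟩]
      rw [h3]
      ring
    · rw [if_neg b]
      rw [Finset.not_subset] at b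
      obtain ⟨p, hp, hb⟩ := b
      rw [Finset.prod_eq_zero hp (by rw [if_neg (fun h => hb h.2)])]
      ring
  · rw [if_neg a]
    rw [Finset.not_subset] at a
    obtain ⟨p, hp, ha⟩ := a
    rw [Finset.prod_eq_zero hp (by rw [if_neg (fun h => ha h.1)])]
    ring

lemma AW_nonneg (δ : ℕ → ℝ) (W T : Finset ℕ) (h : ∀ p ∈ T, 0 ≤ δ p) : 0 ≤ AW δ W T := by
  classical
  unfold AW
  split_ifs
  · exact Finset.prod_nonneg fun p hp => h p (Finset.sdiff_subset hp)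
  · exact le_rfl

lemma AW_sum (P W : Finset ℕ) (𝒯 : Finset (Finset ℕ)) (h𝒯 : ∀ T ∈ 𝒯, T ⊆ P) (δ : ℕ → ℝ)
    (hδ : ∀ p ∈ P, 0 ≤ δ p) : ∑ T ∈ 𝒯, AW δ W T ≤ ∏ p ∈ P, (1 + δ p) := by
  classical
  have h1 : ∑ T ∈ 𝒯, AW δ W T = ∑ T ∈ 𝒯.filter (fun T => W ⊆ T), ∏ p ∈ T \ W, δ p := by
    rw [Finset.sum_filter]
    refine Finset.sum_congr rfl fun T _ => ?_
    unfold AW
    by_cases h : W ⊆ T
    · rw [if_pos h]
    · rw [if_neg h]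
  have hinj : Set.InjOn (fun T : Finset ℕ => T \ W) (𝒯.filter (fun T => W ⊆ T) : Set (Finset ℕ)) := by
    intro T hT T' hT' h
    simp only [Finset.coe_filter, Set.mem_ofPred_eq] at hT hT'
    have h' : T \ W = T' \ W := h
    rw [← Finset.sdiff_union_of_subset hT.2, h', Finset.sdiff_union_of_subset hT'.2]
  rw [h1, ← Finset.sum_image (f := fun A : Finset ℕ => ∏ p ∈ A, δ p) hinj, Finset.prod_one_add]
  apply Finset.sum_le_sum_of_subset_of_nonneg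
  · intro A hA
    rw [mem_image] at hA
    obtain ⟨T, hT, rfl⟩ := hA
    rw [mem_filter] at hT
    rw [mem_powerset]
    exact Finset.sdiff_subset.trans (h𝒯 T hT.1)
  · intro A hA _
    rw [mem_powerset] at hA
    exact Finset.prod_nonneg fun p hp => hδ p (hA hp)

open Classical in
/-- the double sum over the points and the sets -/
lemma main_form (P : Finset ℕ) (𝒯 : Finset (Finset ℕ)) (h𝒯 : ∀ T ∈ 𝒯, T ⊆ P) (I : Finset ℕ)
    (δ : ℕ → ℝ) (hδ : ∀ p ∈ P, 0 ≤ δ p) (hδ1 : ∀ p ∈ P, δ p ≤ 1) (ε : Finset ℕ → ℝ)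
    (hε : ∀ T, |ε T| ≤ 1) (ν : ℕ → ℝ)
    (V : Finset ℕ → ℝ) (hV0 : ∀ W ∈ P.powerset, 0 ≤ V W)
    (hV : ∀ W ∈ P.powerset, ∑ n ∈ I, ∑ n' ∈ I, ν n * ν n' *
      (if ∀ p ∈ W, n ≡ n' [MOD p] then 1 else 0) = V W) :
    ∑ x ∈ 𝒯 ×ˢ I, ∑ y ∈ 𝒯 ×ˢ I, (ε x.1 * ν x.2) * (ε y.1 * ν y.2) *
      (∏ p ∈ x.1 ∪ y.1, (if p ∈ x.1 ∧ p ∈ y.1 ∧ ¬ x.2 ≡ y.2 [MOD p] then δ p ^ 2 else δ p)) ≤
      (∏ p ∈ P, (1 + δ p)) ^ 2 * ∑ W ∈ P.powerset, (∏ p ∈ W, δ p) * V W := by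
  have h1 : ∑ x ∈ 𝒯 ×ˢ I, ∑ y ∈ 𝒯 ×ˢ I, (ε x.1 * ν x.2) * (ε y.1 * ν y.2) *
      (∏ p ∈ x.1 ∪ y.1, (if p ∈ x.1 ∧ p ∈ y.1 ∧ ¬ x.2 ≡ y.2 [MOD p] then δ p ^ 2 else δ p)) =
      ∑ W ∈ P.powerset, (∏ p ∈ W, (δ p - δ p ^ 2)) * (∑ T ∈ 𝒯, ε T * AW δ W T) ^ 2 * V W := by
    have e1 : ∀ x ∈ 𝒯 ×ˢ I, ∀ y ∈ 𝒯 ×ˢ I, (ε x.1 * ν x.2) * (ε y.1 * ν y.2) *
      (∏ p ∈ x.1 ∪ y.1, (if p ∈ x.1 ∧ p ∈ y.1 ∧ ¬ x.2 ≡ y.2 [MOD p] then δ p ^ 2 else δ p)) =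
        ∑ W ∈ P.powerset, (∏ p ∈ W, (δ p - δ p ^ 2)) * ((ε x.1 * AW δ W x.1) *
          (ε y.1 * AW δ W y.1) * (ν x.2 * ν y.2 *
            (if ∀ p ∈ W, x.2 ≡ y.2 [MOD p] then 1 else 0))) := by
      intro x hx y hy
      rw [mem_product] at hx hy
      rw [D_eq P x.1 y.1 (h𝒯 _ hx.1) (h𝒯 _ hy.1), Finset.mul_sum]
      exact Finset.sum_congr rfl fun W _ => by ring
    rw [Finset.sum_congr rfl fun x hx => Finset.sum_congr rfl fun y hy => e1 x hx y hy]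
    have e2 : ∑ x ∈ 𝒯 ×ˢ I, ∑ y ∈ 𝒯 ×ˢ I, ∑ W ∈ P.powerset, (∏ p ∈ W, (δ p - δ p ^ 2)) *
        ((ε x.1 * AW δ W x.1) * (ε y.1 * AW δ W y.1) * (ν x.2 * ν y.2 *
            (if ∀ p ∈ W, x.2 ≡ y.2 [MOD p] then 1 else 0))) =
        ∑ W ∈ P.powerset, (∏ p ∈ W, (δ p - δ p ^ 2)) * ∑ x ∈ 𝒯 ×ˢ I, ∑ y ∈ 𝒯 ×ˢ I,
          ((ε x.1 * AW δ W x.1) * (ε y.1 * AW δ W y.1) * (ν x.2 * ν y.2 *
            (if ∀ p ∈ W, x.2 ≡ y.2 [MOD p] then 1 else 0))) := by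
      rw [Finset.sum_congr rfl fun x _ => Finset.sum_comm, Finset.sum_comm]
      refine Finset.sum_congr rfl fun W _ => ?_
      rw [Finset.mul_sum]
      refine Finset.sum_congr rfl fun x _ => ?_
      rw [Finset.mul_sum]
    rw [e2]
    refine Finset.sum_congr rfl fun W hW => ?_
    rw [mul_assoc, ← hV W hW]
    congr 1
    rw [pow_two, Finset.sum_mul_sum, Finset.sum_product]
    rw [Finset.sum_mul]
    refine Finset.sum_congr rfl fun T _ => ?_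
    rw [Finset.sum_mul]
    have e3 : ∀ n ∈ I, ∑ y ∈ 𝒯 ×ˢ I, ((ε T * AW δ W T) * (ε y.1 * AW δ W y.1) * (ν n * ν y.2 *
            (if ∀ p ∈ W, n ≡ y.2 [MOD p] then 1 else 0))) =
        ∑ T' ∈ 𝒯, (ε T * AW δ W T) * (ε T' * AW δ W T') * ∑ n' ∈ I, (ν n * ν n' *
            (if ∀ p ∈ W, n ≡ n' [MOD p] then 1 else 0)) := by
      intro n _
      rw [Finset.sum_product]
      refine Finset.sum_congr rfl fun T' _ => ?_
      rw [Finset.mul_sum]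
    rw [Finset.sum_congr rfl e3, Finset.sum_comm]
    refine Finset.sum_congr rfl fun T' _ => ?_
    rw [Finset.mul_sum]
  rw [h1, Finset.mul_sum]
  refine Finset.sum_le_sum fun W hW => ?_
  have hWP := mem_powerset.1 hW
  have a1 : |∑ T ∈ 𝒯, ε T * AW δ W T| ≤ ∏ p ∈ P, (1 + δ p) := by
    refine (Finset.abs_sum_le_sum_abs _ _).trans ((Finset.sum_le_sum fun T hT => ?_).trans
      (AW_sum P W 𝒯 h𝒯 δ hδ))
    rw [abs_mul, abs_of_nonneg (AW_nonneg δ W T fun p hp => hδ p (h𝒯 T hT hp))]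
    calc |ε T| * AW δ W T ≤ 1 * AW δ W T :=
          mul_le_mul_of_nonneg_right (hε T) (AW_nonneg δ W T fun p hp => hδ p (h𝒯 T hT hp))
      _ = _ := one_mul _
  have a2 : (∑ T ∈ 𝒯, ε T * AW δ W T) ^ 2 ≤ (∏ p ∈ P, (1 + δ p)) ^ 2 := by
    rw [← sq_abs]
    exact pow_le_pow_left₀ (abs_nonneg _) a1 2
  have a3 : 0 ≤ ∏ p ∈ W, (δ p - δ p ^ 2) := Finset.prod_nonneg fun p hp => by
    have b1 := hδ p (hWP hp)
    have b2 := hδ1 p (hWP hp)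
    nlinarith
  have a4 : ∏ p ∈ W, (δ p - δ p ^ 2) ≤ ∏ p ∈ W, δ p :=
    Finset.prod_le_prod (fun p hp => by
      have b1 := hδ p (hWP hp)
      have b2 := hδ1 p (hWP hp)
      nlinarith) (fun p hp => by nlinarith [sq_nonneg (δ p)])
  calc (∏ p ∈ W, (δ p - δ p ^ 2)) * (∑ T ∈ 𝒯, ε T * AW δ W T) ^ 2 * V W
      ≤ (∏ p ∈ W, δ p) * (∏ p ∈ P, (1 + δ p)) ^ 2 * V W := by
        apply mul_le_mul_of_nonneg_right _ (hV0 W hW)
        exact mul_le_mul a4 a2 (sq_nonneg _) (a3.trans a4)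
    _ = _ := by ring

end Pool.Agent.Q224.CR
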