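import Mathlib
import Pool.Agent.Q236.CR.Stm4
import Pool.Agent.Q154.CR.ER
import Pool.Agent.Q224.CR.Quad

/-! Project CR, job VARP. -/

set_option autoImplicit false

namespace Pool.Agent.Q224.CR

open Finset Filter Polynomial
open Pool.Agent.H373R2.T7 (pz mem_pz sum_pz_le)
open Pool.Agent.Q236.CR
open Pool.Agent.Q154.CR (dk_nonneg dk_le card_pz_le)

section

variable {k : ℕ} (s : Fin k → ℕ) (G : Fin k → ℤ[X]) (c : (i : Fin k) → Fin (s i + 2) → ℤ)

lemma pw_mod (s : ℕ) (G : ℤ[X]) (c : Fin (s + 2) → ℤ) (p n : ℕ) :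
    (p : ℤ) ∣ pw s G c n - pw s G c (n % p) := by
  have h1 : (p : ℤ) ∣ (n : ℤ) - ((n % p : ℕ) : ℤ) := by
    refine ⟨((n / p : ℕ) : ℤ), ?_⟩
    have h := Nat.div_add_mod n p
    have h' : (n : ℤ) = p * ((n / p : ℕ) : ℤ) + ((n % p : ℕ) : ℤ) := by exact_mod_cast h.symm
    linarith
  have h2 : pw s G c n - pw s G c (n % p) = (G.eval (n : ℤ) - G.eval ((n % p : ℕ) : ℤ)) +
      ∑ l, c l * ((n : ℤ) ^ (l : ℕ) - ((n % p : ℕ) : ℤ) ^ (l : ℕ)) := by
    have h3 : ∑ l, c l * ((n : ℤ) ^ (l : ℕ) - ((n % p : ℕ) : ℤ) ^ (l : ℕ)) =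
        ∑ l, c l * (n : ℤ) ^ (l : ℕ) - ∑ l, c l * ((n % p : ℕ) : ℤ) ^ (l : ℕ) := by
      rw [← Finset.sum_sub_distrib]
      exact Finset.sum_congr rfl fun l _ => mul_sub _ _ _
    rw [h3]
    unfold pw pv
    ring
  rw [h2]
  refine dvd_add (h1.trans (Polynomial.sub_dvd_eval_sub _ _ _)) (Finset.dvd_sum fun l _ => ?_)
  exact Dvd.dvd.mul_left (h1.trans (sub_dvd_pow_sub_pow _ _ _)) _

lemma hit_mod (p n : ℕ) : hit s G c p (n % p) ↔ hit s G c p n := by
  unfold hit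
  constructor
  · rintro ⟨i, hi⟩
    refine ⟨i, ?_⟩
    have := dvd_add (pw_mod (s i) (G i) (c i) p n) hi
    rwa [sub_add_cancel] at this
  · rintro ⟨i, hi⟩
    refine ⟨i, ?_⟩
    have := dvd_sub hi (pw_mod (s i) (G i) (c i) p n)
    rwa [sub_sub_cancel] at this

open Classical in
lemma xi_prod (T : Finset ℕ) (n : ℕ) :
    xi s G c T n = ∏ p ∈ T, (if hit s G c p n then (1 : ℝ) else 0) := by
  rw [Finset.prod_boole]
  rfl

lemma xi_nonneg' (T : Finset ℕ) (n : ℕ) : 0 ≤ xi s G c T n := by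
  unfold xi; split_ifs <;> norm_num

open Classical in
lemma omp_sum (p : ℕ) : ∑ x ∈ range p, (if ¬ p ∣ x then (if hit s G c p x then (1 : ℝ) else 0)
    else 0) = (omp s G c p : ℝ) := by
  unfold omp
  rw [Finset.card_filter]
  push_cast
  refine Finset.sum_congr rfl fun x _ => ?_
  by_cases h1 : p ∣ x
  · simp [h1]
  · by_cases h2 : hit s G c p x
    · simp [h1, h2]
    · simp [h1, h2]

/-- the mean value over the reduced residues -/
lemma mean_xi (P T : Finset ℕ) (hP : ∀ p ∈ P, p.Prime) (hT : T ⊆ P) :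
    ∑ m ∈ RR P, xi s G c T m = (∏ p ∈ P, ((p : ℝ) - 1)) * rhoP s G c T := by
  classical
  have h := red_sum P hP (fun p x => if p ∈ T then (if hit s G c p x then (1 : ℝ) else 0) else 1)
    (fun p _ n => by simp only [hit_mod])
  have h1 : ∀ m, ∏ p ∈ P, (if p ∈ T then (if hit s G c p m then (1 : ℝ) else 0) else 1) =
      xi s G c T m := by
    intro m
    rw [xi_prod, ← Finset.prod_subset hT]
    · refine Finset.prod_congr rfl fun p hp => ?_
      rw [if_pos hp]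
    · intro p _ hp
      rw [if_neg hp]
  rw [Finset.sum_congr rfl fun m _ => h1 m] at h
  rw [h, ← Finset.prod_sdiff hT, ← Finset.prod_sdiff hT, mul_assoc]
  unfold rhoP
  rw [← Finset.prod_mul_distrib]
  congr 1
  · refine Finset.prod_congr rfl fun p hp => ?_
    rw [Finset.mem_sdiff] at hp
    rw [← sum_unit (hP p hp.1)]
    refine Finset.sum_congr rfl fun x _ => ?_
    rw [if_neg hp.2]
  · refine Finset.prod_congr rfl fun p hp => ?_
    have h2 : (p : ℝ) - 1 ≠ 0 := by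
      have : (2 : ℝ) ≤ p := by exact_mod_cast (hP p (hT hp)).two_le
      linarith
    rw [mul_div_cancel₀ _ h2, ← omp_sum]
    refine Finset.sum_congr rfl fun x _ => ?_
    rw [if_pos hp]

end

/-- the signed weights -/
noncomputable def nu (P : Finset ℕ) (K : ℕ) (u : ℕ → ℝ) (n : ℕ) : ℝ := by
  classical exact (if n ∈ Icc 1 K then u n else 0) -
    (if n ∈ RR P then K / (∏ p ∈ P, ((p : ℝ) - 1)) else 0)

/-- the points -/
noncomputable def II (P : Finset ℕ) (K : ℕ) : Finset ℕ := Icc 1 K ∪ RR P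

lemma nu_sum (P : Finset ℕ) (K : ℕ) (u f : ℕ → ℝ) :
    ∑ n ∈ II P K, nu P K u n * f n = ∑ n ∈ Icc 1 K, u n * f n -
      (K / (∏ p ∈ P, ((p : ℝ) - 1))) * ∑ m ∈ RR P, f m := by
  classical
  unfold nu II
  simp only [sub_mul, Finset.sum_sub_distrib, ite_mul, zero_mul]
  rw [Finset.sum_ite_mem, Finset.sum_ite_mem, Finset.union_inter_cancel_left,
    Finset.union_inter_cancel_right, Finset.mul_sum]

lemma phi_pos {P : Finset ℕ} (hP : ∀ p ∈ P, p.Prime) : 0 < ∏ p ∈ P, ((p : ℝ) - 1) :=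
  Finset.prod_pos fun p hp => by
    have : (2 : ℝ) ≤ p := by exact_mod_cast (hP p hp).two_le
    linarith

lemma nu_abs (P : Finset ℕ) (hP : ∀ p ∈ P, p.Prime) (K : ℕ) (u : ℕ → ℝ) (hu : ∀ n, 0 ≤ u n) :
    ∑ n ∈ II P K, |nu P K u n| ≤ ∑ n ∈ Icc 1 K, u n + K := by
  classical
  have hφ := phi_pos hP
  have h1 : ∀ n, |nu P K u n| ≤ (if n ∈ Icc 1 K then u n else 0) +
      (if n ∈ RR P then K / (∏ p ∈ P, ((p : ℝ) - 1)) else 0) := by
    intro n
    unfold nu
    refine (abs_sub _ _).trans ?_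
    rw [abs_of_nonneg, abs_of_nonneg]
    · split_ifs <;> positivity
    · split_ifs
      · exact hu n
      · exact le_rfl
  refine (Finset.sum_le_sum fun n _ => h1 n).trans ?_
  rw [Finset.sum_add_distrib]
  unfold II
  rw [Finset.sum_ite_mem, Finset.sum_ite_mem, Finset.union_inter_cancel_left,
    Finset.union_inter_cancel_right, Finset.sum_const, nsmul_eq_mul, card_RR P hP,
    mul_div_cancel₀ _ hφ.ne']

/-- the class sums -/
lemma class_sum (P W : Finset ℕ) (hP : ∀ p ∈ P, p.Prime) (hW : W ⊆ P) (K : ℕ) (u : ℕ → ℝ)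
    (hu : ∀ n, u n ≠ 0 → ∀ p ∈ P, ¬ p ∣ n) (a : ℕ) (ha : a < ∏ p ∈ W, p) :
    ∑ n ∈ II P K, nu P K u n * (if n % (∏ p ∈ W, p) = a then 1 else 0) =
      if a.Coprime (∏ p ∈ W, p) then
        (∑ n ∈ (Icc 1 K).filter (fun n => n ≡ a [MOD ∏ p ∈ W, p]), u n) -
          K / (Nat.totient (∏ p ∈ W, p) : ℝ) else 0 := by
  classical
  have hWp : ∀ p ∈ W, p.Prime := fun p hp => hP p (hW hp)
  set q := ∏ p ∈ W, p with hq
  have hmod : ∀ n, n % q = a ↔ n ≡ a [MOD q] := fun n => by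
    show n % q = a ↔ n % q = a % q
    rw [Nat.mod_eq_of_lt ha]
  rw [nu_sum]
  have hφ := phi_pos hP
  split_ifs with h
  · have h1 : ∑ n ∈ Icc 1 K, u n * (if n % q = a then (1 : ℝ) else 0) =
        ∑ n ∈ (Icc 1 K).filter (fun n => n ≡ a [MOD q]), u n := by
      rw [Finset.sum_filter]
      refine Finset.sum_congr rfl fun n _ => ?_
      by_cases h2 : n % q = a
      · rw [if_pos h2, if_pos ((hmod n).1 h2), mul_one]
      · rw [if_neg h2, if_neg (fun h3 => h2 ((hmod n).2 h3)), mul_zero]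
    have h2 : ∑ m ∈ RR P, (if m % q = a then (1 : ℝ) else 0) =
        (∏ p ∈ P, ((p : ℝ) - 1)) / (Nat.totient q : ℝ) := by
      rw [← fib_RR P W hP hW a (fun p hp hpa => ?_), Finset.card_filter]
      · push_cast
        refine Finset.sum_congr rfl fun m _ => ?_
        by_cases h2 : m % q = a
        · rw [if_pos h2, if_pos ((hmod m).1 h2)]
        · rw [if_neg h2, if_neg (fun h3 => h2 ((hmod m).2 h3))]
      · have h3 : p ∣ q := Finset.dvd_prod_of_mem _ hp
        have h4 := Nat.Coprime.eq_one_of_dvd (Nat.Coprime.coprime_dvd_right h3 h).symm hpa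
        exact (hWp p hp).one_lt.ne' h4
    rw [h1, h2]
    congr 1
    field_simp
  · -- a prime of `W` divides `a`
    rw [Nat.coprime_prod_right_iff] at h
    push Not at h
    obtain ⟨p, hp, h1⟩ := h
    have hpp := hWp p hp
    have hpa : p ∣ a := by
      have h1' : ¬ a.Coprime p := h1
      rw [Nat.coprime_comm, hpp.coprime_iff_not_dvd, not_not] at h1'
      exact h1'
    have hpq : p ∣ q := Finset.dvd_prod_of_mem _ hp
    have hpn : ∀ n, n % q = a → p ∣ n := by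
      intro n hn
      rw [← Nat.dvd_mod_iff hpq, hn]
      exact hpa
    have e1 : ∑ n ∈ Icc 1 K, u n * (if n % q = a then (1 : ℝ) else 0) = 0 := by
      refine Finset.sum_eq_zero fun n _ => ?_
      by_cases h2 : n % q = a
      · have h3 : u n = 0 := by
          by_contra h4
          exact hu n h4 p (hW hp) (hpn n h2)
        rw [h3, zero_mul]
      · rw [if_neg h2, mul_zero]
    have e2 : ∑ m ∈ RR P, (if m % q = a then (1 : ℝ) else 0) = 0 := by
      refine Finset.sum_eq_zero fun m hm => ?_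
      rw [if_neg]
      intro h2
      unfold RR at hm
      rw [mem_filter] at hm
      exact hm.2 p (hW hp) (hpn m h2)
    rw [e1, e2]
    ring

lemma V_eq (P W : Finset ℕ) (hP : ∀ p ∈ P, p.Prime) (hW : W ⊆ P) (K : ℕ) (u : ℕ → ℝ)
    (hu : ∀ n, u n ≠ 0 → ∀ p ∈ P, ¬ p ∣ n) :
    ∑ n ∈ II P K, ∑ n' ∈ II P K, nu P K u n * nu P K u n' *
      (if ∀ p ∈ W, n ≡ n' [MOD p] then 1 else 0) = Vq u K (∏ p ∈ W, p) := by
  classical
  have hWp : ∀ p ∈ W, p.Prime := fun p hp => hP p (hW hp)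
  set q := ∏ p ∈ W, p with hq
  have hq0 : 0 < q := prod_pos_primes hWp
  have h1 : ∀ n n' : ℕ, (if ∀ p ∈ W, n ≡ n' [MOD p] then (1 : ℝ) else 0) =
      ∑ a ∈ range q, (if n % q = a then 1 else 0) * (if n' % q = a then 1 else 0) := by
    intro n n'
    have hiff := modEq_prod W hWp n n'
    rw [Finset.sum_eq_single (n % q)]
    · rw [if_pos rfl, one_mul]
      by_cases h : n ≡ n' [MOD q]
      · have h' : n' % q = n % q := h.symm
        rw [if_pos (hiff.1 h), if_pos h']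
      · have h' : ¬ n' % q = n % q := fun e => h e.symm
        rw [if_neg (fun e => h (hiff.2 e)), if_neg h']
    · intro a _ ha
      rw [if_neg (fun e => ha e.symm), zero_mul]
    · intro h
      exact absurd (mem_range.2 (Nat.mod_lt _ hq0)) h
  have h2 : ∑ n ∈ II P K, ∑ n' ∈ II P K, nu P K u n * nu P K u n' *
      (if ∀ p ∈ W, n ≡ n' [MOD p] then (1 : ℝ) else 0) =
      ∑ a ∈ range q, (∑ n ∈ II P K, nu P K u n * (if n % q = a then 1 else 0)) ^ 2 := by
    have e1 : ∀ n ∈ II P K, ∀ n' ∈ II P K, nu P K u n * nu P K u n' *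
      (if ∀ p ∈ W, n ≡ n' [MOD p] then (1 : ℝ) else 0) =
        ∑ a ∈ range q, (nu P K u n * (if n % q = a then 1 else 0)) *
          (nu P K u n' * (if n' % q = a then 1 else 0)) := by
      intro n _ n' _
      rw [h1, Finset.mul_sum]
      exact Finset.sum_congr rfl fun a _ => by ring
    rw [Finset.sum_congr rfl fun n hn => Finset.sum_congr rfl fun n' hn' => e1 n hn n' hn',
      Finset.sum_congr rfl fun n _ => Finset.sum_comm, Finset.sum_comm]
    refine Finset.sum_congr rfl fun a _ => ?_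
    rw [pow_two, Finset.sum_mul_sum]
  rw [h2, Finset.sum_congr rfl fun a ha => by
    rw [class_sum P W hP hW K u hu a (mem_range.1 ha)]]
  unfold Vq
  rw [Finset.sum_filter]
  refine Finset.sum_congr rfl fun a _ => ?_
  split_ifs with h
  · rfl
  · ring

lemma Vq_nonneg (u : ℕ → ℝ) (K q : ℕ) : 0 ≤ Vq u K q := Finset.sum_nonneg fun _ _ => sq_nonneg _

lemma dk_le_one (k p : ℕ) (hp : 1 ≤ p) : dk k p ≤ 1 := by
  unfold dk
  have h1 : (1 : ℝ) ≤ p := by exact_mod_cast hp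
  have h2 : 0 ≤ 1 - 1 / (p : ℝ) := by
    rw [sub_nonneg, div_le_one (by linarith)]
    exact h1
  have := pow_nonneg h2 k
  linarith

lemma prod_dk (k z : ℕ) (hz : 1 ≤ z) :
    (∏ p ∈ pz z, (1 + dk k p)) ^ 2 ≤ (3 * (z : ℝ)) ^ (3 * k) := by
  have hpos : ∀ p ∈ pz z, 1 ≤ p := fun p hp => (mem_pz.mp hp).2.one_lt.le
  have hz0 : (0 : ℝ) < z := by exact_mod_cast hz
  have hz1 : (1 : ℝ) ≤ z := by exact_mod_cast hz
  have g1 : ∏ p ∈ pz z, (1 + dk k p) ≤ ∏ p ∈ pz z, Real.exp (k * (1 / (p : ℝ))) := by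
    apply Finset.prod_le_prod
    · intro p hp
      have := dk_nonneg k p (hpos p hp)
      positivity
    · intro p hp
      have a2 := dk_le k p (hpos p hp)
      have a4 := Real.add_one_le_exp (k * (1 / (p : ℝ)))
      linarith
  rw [← Real.exp_sum, ← Finset.mul_sum] at g1
  have g2 := sum_pz_le z
  have g0 : 0 ≤ ∏ p ∈ pz z, (1 + dk k p) := Finset.prod_nonneg fun p hp => by
    have := dk_nonneg k p (hpos p hp)
    positivity
  have g3 : ∏ p ∈ pz z, (1 + dk k p) ≤ (3 * (z : ℝ)) ^ k := by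
    calc _ ≤ _ := g1
      _ ≤ Real.exp (k * (1 + Real.log z)) := by
          apply Real.exp_le_exp.2
          exact mul_le_mul_of_nonneg_left g2 (Nat.cast_nonneg _)
      _ = (Real.exp (1 + Real.log z)) ^ k := Real.exp_nat_mul _ _
      _ ≤ (3 * (z : ℝ)) ^ k := by
          apply pow_le_pow_left₀ (Real.exp_pos _).le
          rw [Real.exp_add, Real.exp_log hz0]
          have := Real.exp_one_lt_d9
          nlinarith
  calc (∏ p ∈ pz z, (1 + dk k p)) ^ 2 ≤ ((3 * (z : ℝ)) ^ k) ^ 2 := pow_le_pow_left₀ g0 g3 2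
    _ = (3 * (z : ℝ)) ^ (k * 2) := by rw [pow_mul]
    _ ≤ (3 * (z : ℝ)) ^ (3 * k) := pow_le_pow_right₀ (by linarith) (by omega)

/-- the sets of fewer than `r` primes -/
noncomputable def TT (z r : ℕ) : Finset (Finset ℕ) := by
  classical exact (range r).biUnion (fun j => (pz z).powersetCard j)

lemma mem_TT {z r : ℕ} {T : Finset ℕ} : T ∈ TT z r ↔ T ⊆ pz z ∧ T.card < r := by
  classical
  unfold TT
  rw [mem_biUnion]
  constructor
  · rintro ⟨j, hj, hT⟩
    rw [mem_powersetCard] at hT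
    rw [mem_range] at hj
    exact ⟨hT.1, by omega⟩
  · rintro ⟨h1, h2⟩
    exact ⟨T.card, mem_range.2 h2, mem_powersetCard.2 ⟨h1, rfl⟩⟩

lemma sum_TT (z r : ℕ) (f : Finset ℕ → ℝ) :
    ∑ T ∈ TT z r, (-1 : ℝ) ^ T.card * f T =
      ∑ j ∈ range r, (-1 : ℝ) ^ j * ∑ T ∈ (pz z).powersetCard j, f T := by
  classical
  unfold TT
  rw [Finset.sum_biUnion]
  · refine Finset.sum_congr rfl fun j _ => ?_
    rw [Finset.mul_sum]
    refine Finset.sum_congr rfl fun T hT => ?_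
    rw [(mem_powersetCard.1 hT).2]
  · intro i _ j _ hij
    rw [Function.onFun, Finset.disjoint_left]
    intro T hT hT'
    exact hij ((mem_powersetCard.1 hT).2.symm.trans (mem_powersetCard.1 hT').2)

lemma card_TT (z r : ℕ) (hz : 1 ≤ z) : ((TT z r).card : ℝ) ≤ ((z : ℝ) + 1) ^ r := by
  classical
  have h1 : (TT z r).card ≤ ∑ j ∈ range r, z ^ j := by
    unfold TT
    refine Finset.card_biUnion_le.trans (Finset.sum_le_sum fun j _ => ?_)
    rw [Finset.card_powersetCard]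
    exact (Nat.choose_le_pow _ _).trans (Nat.pow_le_pow_left (card_pz_le z) j)
  have h2 : ∑ j ∈ range r, z ^ j ≤ (z + 1) ^ r := by
    clear h1
    induction r with
    | zero => simp
    | succ r ih =>
      rw [Finset.sum_range_succ, pow_succ]
      have h3 : z ^ r ≤ (z + 1) ^ r := Nat.pow_le_pow_left (Nat.le_succ z) r
      nlinarith [Nat.pos_of_ne_zero (pow_ne_zero r (Nat.succ_ne_zero z)),
        Nat.mul_le_mul h3 hz]
  exact_mod_cast h1.trans h2

/-- **VARP** -/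
theorem varp : S_EQD → S_VARP := by
  classical
  intro hE k s
  obtain ⟨C, hC, hE'⟩ := hE k s
  refine ⟨C, hC, ?_⟩
  intro G H z r K u hH hz hzH hu0 hu1
  have hH0 : (0 : ℝ) < H := by exact_mod_cast hH
  have hz1 : (1 : ℝ) ≤ (z : ℝ) + 1 := by
    have : (0 : ℝ) ≤ z := Nat.cast_nonneg z
    linarith
  set P := pz z with hPd
  have hP : ∀ p ∈ P, p.Prime := fun p hp => (mem_pz.mp hp).2
  have hφ := phi_pos hP
  set N : ℝ := ((SB k s H).card : ℝ) with hN
  have hN0 : 0 ≤ N := Nat.cast_nonneg _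
  set ε : Finset ℕ → ℝ := fun T => (-1 : ℝ) ^ T.card with hε
  set ν := nu P K u with hν
  set I := II P K with hI
  set 𝒯 := TT z r with h𝒯
  have h𝒯P : ∀ T ∈ 𝒯, T ⊆ P := fun T hT => (mem_TT.1 hT).1
  -- the inner sums
  have hX : ∀ c, ∀ T ∈ 𝒯, (∑ n ∈ Icc 1 K, u n * xi s G c T n - K * rhoP s G c T) =
      ∑ n ∈ I, ν n * xi s G c T n := by
    intro c T hT
    rw [hν, hI, nu_sum, mean_xi s G c P T hP (h𝒯P T hT)]
    congr 1
    field_simp
  have hL : ∀ c, (∑ j ∈ Finset.range r, (-1 : ℝ) ^ j * ∑ T ∈ P.powersetCard j,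
      (∑ n ∈ Finset.Icc 1 K, u n * xi s G c T n - K * rhoP s G c T)) =
      ∑ x ∈ 𝒯 ×ˢ I, (ε x.1 * ν x.2) * xi s G c x.1 x.2 := by
    intro c
    rw [hPd, ← sum_TT z r (fun T => ∑ n ∈ Finset.Icc 1 K, u n * xi s G c T n - K * rhoP s G c T),
      Finset.sum_product]
    refine Finset.sum_congr rfl fun T hT => ?_
    rw [hX c T hT, Finset.mul_sum]
    refine Finset.sum_congr rfl fun n _ => ?_
    rw [hε]
    ring
  rw [Finset.sum_congr rfl fun c _ => by rw [hL c]]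
  set η : ℝ := N * (C * (((z : ℝ) + 1) ^ (2 * r) / H)) with hη
  -- products of primes
  have hprod : ∀ T ∈ 𝒯, ∀ T' ∈ 𝒯, ∏ p ∈ T ∪ T', (p : ℝ) ≤ ((z : ℝ) + 1) ^ (2 * r) := by
    intro T hT T' hT'
    have hT := mem_TT.1 hT
    have hT' := mem_TT.1 hT'
    calc ∏ p ∈ T ∪ T', (p : ℝ) ≤ ∏ _p ∈ T ∪ T', ((z : ℝ) + 1) := by
          apply Finset.prod_le_prod
          · intro p _
            exact Nat.cast_nonneg p
          · intro p hp
            have h1 : p ∈ pz z := by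
              rw [Finset.mem_union] at hp
              exact hp.elim (fun h => hT.1 h) (fun h => hT'.1 h)
            have h2 : (p : ℝ) ≤ z := by exact_mod_cast (mem_pz.mp h1).1
            linarith
      _ = ((z : ℝ) + 1) ^ (T ∪ T').card := by rw [Finset.prod_const]
      _ ≤ ((z : ℝ) + 1) ^ (2 * r) := by
        apply pow_le_pow_right₀ hz1
        have := Finset.card_union_le T T'
        omega
  have hquad := quad (SB k s H) (𝒯 ×ˢ I) (fun x => ε x.1 * ν x.2) (fun c x => xi s G c x.1 x.2)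
    (fun x y => ∏ p ∈ x.1 ∪ y.1, (if p ∈ x.1 ∧ p ∈ y.1 ∧ ¬ x.2 ≡ y.2 [MOD p] then dk k p ^ 2
      else dk k p)) N η (by
    intro x hx y hy
    rw [mem_product] at hx hy
    have h1 := hE' G H x.1 y.1 x.2 y.2 hH (fun p hp => by
      rw [Finset.mem_union] at hp
      exact hp.elim (fun h => hP p (h𝒯P _ hx.1 h)) (fun h => hP p (h𝒯P _ hy.1 h)))
      ((hprod _ hx.1 _ hy.1).trans hzH)
    refine h1.trans ?_
    rw [hη, mul_comm]
    apply mul_le_mul_of_nonneg_left _ hN0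
    apply mul_le_mul_of_nonneg_left _ hC
    exact div_le_div_of_nonneg_right (hprod _ hx.1 _ hy.1) hH0.le)
  refine hquad.trans ?_
  have hform := main_form P 𝒯 h𝒯P I (dk k) (fun p hp => dk_nonneg k p (hP p hp).one_lt.le)
    (fun p hp => dk_le_one k p (hP p hp).one_lt.le) ε (fun T => by
      rw [hε]; simp) ν
    (fun W => Vq u K (∏ p ∈ W, p)) (fun W _ => Vq_nonneg _ _ _) (fun W hW => by
      rw [mem_powerset] at hW
      have := V_eq P W hP hW K u hu1
      rw [← this])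
  have hnn : 0 ≤ ∑ W ∈ P.powerset, (∏ p ∈ W, dk k p) * Vq u K (∏ p ∈ W, p) :=
    Finset.sum_nonneg fun W hW => mul_nonneg (Finset.prod_nonneg fun p hp =>
      dk_nonneg k p (hP p (mem_powerset.1 hW hp)).one_lt.le) (Vq_nonneg _ _ _)
  have hmain := hform.trans (mul_le_mul_of_nonneg_right (prod_dk k z hz) hnn)
  have habs : ∑ x ∈ 𝒯 ×ˢ I, |ε x.1 * ν x.2| ≤ ((z : ℝ) + 1) ^ r * (∑ n ∈ Icc 1 K, u n + K) := by
    have e1 : ∑ x ∈ 𝒯 ×ˢ I, |ε x.1 * ν x.2| = (𝒯.card : ℝ) * ∑ n ∈ I, |ν n| := by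
      rw [Finset.sum_product]
      have e2 : ∀ T ∈ 𝒯, ∑ n ∈ I, |ε T * ν n| = ∑ n ∈ I, |ν n| := by
        intro T _
        refine Finset.sum_congr rfl fun n _ => ?_
        rw [abs_mul, hε]
        simp
      rw [Finset.sum_congr rfl e2, Finset.sum_const, nsmul_eq_mul]
    rw [e1]
    exact mul_le_mul (card_TT z r hz) (nu_abs P hP K u hu0)
      (Finset.sum_nonneg fun _ _ => abs_nonneg _) (by positivity)
  have habs0 : 0 ≤ ∑ x ∈ 𝒯 ×ˢ I, |ε x.1 * ν x.2| := Finset.sum_nonneg fun _ _ => abs_nonneg _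
  have hη0 : 0 ≤ η := by
    rw [hη]; positivity
  have herr : η * (∑ x ∈ 𝒯 ×ˢ I, |ε x.1 * ν x.2|) ^ 2 ≤
      N * (C * (∑ n ∈ Finset.Icc 1 K, u n + K) ^ 2 * (((z : ℝ) + 1) ^ (4 * r) / H)) := by
    calc η * (∑ x ∈ 𝒯 ×ˢ I, |ε x.1 * ν x.2|) ^ 2 ≤
        η * (((z : ℝ) + 1) ^ r * (∑ n ∈ Icc 1 K, u n + K)) ^ 2 :=
          mul_le_mul_of_nonneg_left (pow_le_pow_left₀ habs0 habs 2) hη0
      _ = _ := by
          rw [hη]
          have e1 : (((z : ℝ) + 1) ^ (4 * r)) = (((z : ℝ) + 1) ^ (2 * r)) *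
              (((z : ℝ) + 1) ^ r) ^ 2 := by
            rw [← pow_mul, ← pow_add]
            congr 1
            ring
          rw [e1]
          ring
  have h1 := mul_le_mul_of_nonneg_left hmain hN0
  calc _ ≤ N * ((3 * (z : ℝ)) ^ (3 * k) * ∑ W ∈ P.powerset, (∏ p ∈ W, dk k p) *
        Vq u K (∏ p ∈ W, p)) +
        N * (C * (∑ n ∈ Finset.Icc 1 K, u n + K) ^ 2 * (((z : ℝ) + 1) ^ (4 * r) / H)) :=
        add_le_add h1 herr
    _ = _ := by ring

end Pool.Agent.Q224.CR
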