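import Mathlib
import Pool.Agent.Q224.CR.Varp

/-! Project CR, job MTP: the variance in progressions and the pointwise comparison. -/

set_option autoImplicit false

namespace Pool.Agent.Q224.CR

open Finset Filter Polynomial
open Pool.Agent.H373R2.T7 (pz mem_pz Vz bonf es bonf_ind bonf_bound lam1 lam1_le lam_mult_prime
  natlog_le Vz_ge Vz_pos prod_inj)
open Pool.Agent.Q236.CR
open Pool.Agent.Q154.CR (dk_nonneg dk_le card_pz_le)

lemma class_card (K q a : ℕ) :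
    (((Icc 1 K).filter (fun n => n ≡ a [MOD q])).card : ℝ) ≤ K / q + 1 := by
  have h1 : ((Icc 1 K).filter (fun n => n ≡ a [MOD q])).card ≤ (range (K / q + 1)).card := by
    apply card_le_card_of_injOn (fun n => n / q)
    · intro n hn
      rw [Finset.mem_coe, mem_filter, mem_Icc] at hn
      rw [Finset.mem_coe, mem_range]
      exact Nat.lt_succ_of_le (Nat.div_le_div_right hn.1.2)
    · intro n hn m hm h
      rw [Finset.mem_coe, mem_filter] at hn hm
      have h2 : n % q = m % q := hn.2.trans hm.2.symm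
      have h3 : n / q = m / q := h
      rw [← Nat.div_add_mod n q, ← Nat.div_add_mod m q, h2, h3]
  rw [card_range] at h1
  have h2 : ((K / q : ℕ) : ℝ) ≤ K / q := Nat.cast_div_le
  have h3 : (((Icc 1 K).filter (fun n => n ≡ a [MOD q])).card : ℝ) ≤ ((K / q + 1 : ℕ) : ℝ) := by
    exact_mod_cast h1
  push_cast at h3
  linarith

lemma cop_card (q : ℕ) : (((range q).filter (fun a => a.Coprime q)).card : ℝ) =
    (Nat.totient q : ℝ) := by
  rw [Nat.totient_eq_card_coprime]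
  congr 2
  ext a
  simp only [mem_filter, Nat.coprime_comm]

lemma Vq_small (u : ℕ → ℝ) (K q : ℕ) (β : ℝ)
    (h : ∀ a, a.Coprime q →
      |∑ n ∈ (Icc 1 K).filter (fun n => n ≡ a [MOD q]), u n - K / (Nat.totient q : ℝ)| ≤ β) :
    Vq u K q ≤ q * β ^ 2 := by
  unfold Vq
  calc _ ≤ ∑ _a ∈ (range q).filter (fun a => a.Coprime q), β ^ 2 := by
        refine Finset.sum_le_sum fun a ha => ?_
        rw [mem_filter] at ha
        rw [← sq_abs]
        exact pow_le_pow_left₀ (abs_nonneg _) (h a ha.2) 2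
    _ = (((range q).filter (fun a => a.Coprime q)).card : ℝ) * β ^ 2 := by
        rw [Finset.sum_const, nsmul_eq_mul]
    _ ≤ q * β ^ 2 := by
        apply mul_le_mul_of_nonneg_right _ (sq_nonneg _)
        rw [cop_card]
        exact_mod_cast Nat.totient_le q

lemma Vq_big (u : ℕ → ℝ) (hu : ∀ n, 0 ≤ u n) (K q : ℕ) (hq : 1 ≤ q) (Lm : ℝ) (hL : 0 ≤ Lm)
    (hub : ∀ n ∈ Icc 1 K, u n ≤ Lm) :
    Vq u K q ≤ Lm * (K / q + 1) * ∑ n ∈ Icc 1 K, u n + K ^ 2 / (Nat.totient q : ℝ) := by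
  classical
  have hφ : (0 : ℝ) < Nat.totient q := by exact_mod_cast Nat.totient_pos.2 hq
  have hS : ∀ a, 0 ≤ ∑ n ∈ (Icc 1 K).filter (fun n => n ≡ a [MOD q]), u n := fun a =>
    Finset.sum_nonneg fun n _ => hu n
  have hSm : ∀ a, ∑ n ∈ (Icc 1 K).filter (fun n => n ≡ a [MOD q]), u n ≤ Lm * (K / q + 1) := by
    intro a
    calc _ ≤ ∑ _n ∈ (Icc 1 K).filter (fun n => n ≡ a [MOD q]), Lm :=
          Finset.sum_le_sum fun n hn => hub n (mem_filter.1 hn).1
      _ = (((Icc 1 K).filter (fun n => n ≡ a [MOD q])).card : ℝ) * Lm := by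
          rw [Finset.sum_const, nsmul_eq_mul]
      _ ≤ (K / q + 1) * Lm := mul_le_mul_of_nonneg_right (class_card K q a) hL
      _ = _ := mul_comm _ _
  have htot : ∑ a ∈ range q, ∑ n ∈ (Icc 1 K).filter (fun n => n ≡ a [MOD q]), u n =
      ∑ n ∈ Icc 1 K, u n := by
    simp only [Finset.sum_filter]
    rw [Finset.sum_comm]
    refine Finset.sum_congr rfl fun n _ => ?_
    rw [Finset.sum_eq_single (n % q)]
    · rw [if_pos]
      exact (Nat.mod_modEq n q).symm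
    · intro a ha hna
      rw [if_neg]
      intro h
      rw [mem_range] at ha
      have h' : n % q = a % q := h
      rw [Nat.mod_eq_of_lt ha] at h'
      exact hna h'.symm
    · intro h
      exact absurd (mem_range.2 (Nat.mod_lt _ hq)) h
  unfold Vq
  calc _ ≤ ∑ a ∈ (range q).filter (fun a => a.Coprime q),
        (Lm * (K / q + 1) * (∑ n ∈ (Icc 1 K).filter (fun n => n ≡ a [MOD q]), u n) +
          (K / (Nat.totient q : ℝ)) ^ 2) := by
        refine Finset.sum_le_sum fun a _ => ?_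
        have h1 := hS a
        have h2 := hSm a
        have h3 : (0 : ℝ) ≤ K / (Nat.totient q : ℝ) := by positivity
        nlinarith [mul_nonneg h1 h3, mul_le_mul_of_nonneg_right h2 h1]
    _ = Lm * (K / q + 1) * ∑ a ∈ (range q).filter (fun a => a.Coprime q),
          (∑ n ∈ (Icc 1 K).filter (fun n => n ≡ a [MOD q]), u n) +
          (Nat.totient q : ℝ) * (K / (Nat.totient q : ℝ)) ^ 2 := by
        rw [Finset.sum_add_distrib, ← Finset.mul_sum, Finset.sum_const, nsmul_eq_mul, cop_card]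
    _ ≤ Lm * (K / q + 1) * ∑ n ∈ Icc 1 K, u n + K ^ 2 / (Nat.totient q : ℝ) := by
        apply add_le_add
        · apply mul_le_mul_of_nonneg_left _ (by positivity)
          rw [← htot]
          exact Finset.sum_le_sum_of_subset_of_nonneg (filter_subset _ _) fun a _ _ => hS a
        · apply le_of_eq
          field_simp

lemma phi_low (z : ℕ) (hz : 1 ≤ z) (W : Finset ℕ) (hW : W ⊆ pz z) :
    1 / (Nat.totient (∏ p ∈ W, p) : ℝ) ≤ z / ((∏ p ∈ W, p : ℕ) : ℝ) := by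
  have hWp : ∀ p ∈ W, p.Prime := fun p hp => (mem_pz.1 (hW hp)).2
  have hq : (0 : ℝ) < ((∏ p ∈ W, p : ℕ) : ℝ) := by exact_mod_cast prod_pos_primes hWp
  have hz0 : (0 : ℝ) < z := by exact_mod_cast hz
  rw [totient_prod W hWp]
  have h1 : ∏ p ∈ W, ((p : ℝ) - 1) = ((∏ p ∈ W, p : ℕ) : ℝ) * ∏ p ∈ W, (1 - 1 / (p : ℝ)) := by
    push_cast
    rw [← Finset.prod_mul_distrib]
    refine Finset.prod_congr rfl fun p hp => ?_
    have : (p : ℝ) ≠ 0 := by exact_mod_cast (hWp p hp).ne_zero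
    field_simp
  have hf : ∀ p ∈ pz z, 0 ≤ 1 - 1 / (p : ℝ) ∧ 1 - 1 / (p : ℝ) ≤ 1 := by
    intro p hp
    have h2 : (1 : ℝ) ≤ p := by exact_mod_cast (mem_pz.1 hp).2.one_lt.le
    have h3 : 1 / (p : ℝ) ≤ 1 := by rw [div_le_one (by linarith)]; exact h2
    have h4 : 0 ≤ 1 / (p : ℝ) := by positivity
    constructor <;> linarith
  have h2 : 1 / (z : ℝ) ≤ ∏ p ∈ W, (1 - 1 / (p : ℝ)) := by
    refine (Vz_ge z hz).trans ?_
    unfold Vz
    rw [← Finset.prod_sdiff hW]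
    have h3 : ∏ p ∈ pz z \ W, (1 - 1 / (p : ℝ)) ≤ 1 :=
      Finset.prod_le_one (fun p hp => (hf p (Finset.mem_sdiff.1 hp).1).1)
        (fun p hp => (hf p (Finset.mem_sdiff.1 hp).1).2)
    have h4 : 0 ≤ ∏ p ∈ W, (1 - 1 / (p : ℝ)) := Finset.prod_nonneg fun p hp => (hf p (hW hp)).1
    calc _ ≤ 1 * ∏ p ∈ W, (1 - 1 / (p : ℝ)) := mul_le_mul_of_nonneg_right h3 h4
      _ = _ := one_mul _
  have h3 : 0 < ∏ p ∈ W, (1 - 1 / (p : ℝ)) := lt_of_lt_of_le (by positivity) h2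
  rw [h1, div_le_div_iff₀ (by positivity) hq, one_mul]
  have h4 : 1 ≤ z * ∏ p ∈ W, (1 - 1 / (p : ℝ)) := by
    rw [div_le_iff₀ hz0] at h2
    linarith
  calc ((∏ p ∈ W, p : ℕ) : ℝ) = ((∏ p ∈ W, p : ℕ) : ℝ) * 1 := (mul_one _).symm
    _ ≤ ((∏ p ∈ W, p : ℕ) : ℝ) * (z * ∏ p ∈ W, (1 - 1 / (p : ℝ))) :=
        mul_le_mul_of_nonneg_left h4 hq.le
    _ = _ := by ring

lemma SK (k z K : ℕ) (hz : 1 ≤ z) (u : ℕ → ℝ) (hu : ∀ n, 0 ≤ u n) (Lm Q0 β Sg : ℝ) (hL : 0 ≤ Lm)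
    (hub : ∀ n ∈ Icc 1 K, u n ≤ Lm) (hQ0 : 1 ≤ Q0) (hβ0 : 0 ≤ β) (hS : ∑ n ∈ Icc 1 K, u n ≤ Sg)
    (h : ∀ W ⊆ pz z, ((∏ p ∈ W, p : ℕ) : ℝ) ≤ Q0 → ∀ a, a.Coprime (∏ p ∈ W, p) →
      |∑ n ∈ (Icc 1 K).filter (fun n => n ≡ a [MOD ∏ p ∈ W, p]), u n -
        K / (Nat.totient (∏ p ∈ W, p) : ℝ)| ≤ β) :
    ∑ W ∈ (pz z).powerset, (∏ p ∈ W, dk k p) * Vq u K (∏ p ∈ W, p) ≤
      Q0 ^ 2 * β ^ 2 + (3 * (z : ℝ)) ^ (3 * k) * (Lm * (K / Q0 + 1) * Sg + K ^ 2 * z / Q0) := by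
  classical
  have hpos : ∀ p ∈ pz z, 1 ≤ p := fun p hp => (mem_pz.mp hp).2.one_lt.le
  have hd0 : ∀ W ∈ (pz z).powerset, 0 ≤ ∏ p ∈ W, dk k p := fun W hW =>
    Finset.prod_nonneg fun p hp => dk_nonneg k p (hpos p (mem_powerset.1 hW hp))
  have hd1 : ∀ W ∈ (pz z).powerset, ∏ p ∈ W, dk k p ≤ 1 := fun W hW =>
    Finset.prod_le_one (fun p hp => dk_nonneg k p (hpos p (mem_powerset.1 hW hp)))
      (fun p hp => dk_le_one k p (hpos p (mem_powerset.1 hW hp)))
  have hz0 : (0 : ℝ) < z := by exact_mod_cast hz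
  have hSg : 0 ≤ Sg := (Finset.sum_nonneg fun n _ => hu n).trans hS
  rw [← Finset.sum_filter_add_sum_filter_not (pz z).powerset
    (fun W => ((∏ p ∈ W, p : ℕ) : ℝ) ≤ Q0)]
  apply add_le_add
  · -- small moduli
    have h1 : ∀ W ∈ (pz z).powerset.filter (fun W => ((∏ p ∈ W, p : ℕ) : ℝ) ≤ Q0),
        (∏ p ∈ W, dk k p) * Vq u K (∏ p ∈ W, p) ≤ Q0 * β ^ 2 := by
      intro W hW
      rw [mem_filter] at hW
      have h2 := Vq_small u K (∏ p ∈ W, p) β (h W (mem_powerset.1 hW.1) hW.2)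
      calc _ ≤ 1 * (((∏ p ∈ W, p : ℕ) : ℝ) * β ^ 2) :=
            mul_le_mul (hd1 W hW.1) h2 (Vq_nonneg _ _ _) zero_le_one
        _ ≤ Q0 * β ^ 2 := by
            rw [one_mul]
            exact mul_le_mul_of_nonneg_right hW.2 (sq_nonneg _)
    have h2 : ((pz z).powerset.filter (fun W => ((∏ p ∈ W, p : ℕ) : ℝ) ≤ Q0)).card ≤
        ⌊Q0⌋₊ := by
      have h3 : ((pz z).powerset.filter (fun W => ((∏ p ∈ W, p : ℕ) : ℝ) ≤ Q0)).card ≤
          (Icc 1 ⌊Q0⌋₊).card := by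
        apply card_le_card_of_injOn (fun W => ∏ p ∈ W, p)
        · intro W hW
          rw [Finset.mem_coe, mem_filter, mem_powerset] at hW
          rw [Finset.mem_coe, mem_Icc]
          exact ⟨prod_pos_primes fun p hp => (mem_pz.1 (hW.1 hp)).2, Nat.le_floor hW.2⟩
        · intro W hW W' hW' hWW
          rw [Finset.mem_coe, mem_filter, mem_powerset] at hW hW'
          exact prod_inj W W' (fun p hp => (mem_pz.1 (hW.1 hp)).2)
            (fun p hp => (mem_pz.1 (hW'.1 hp)).2) hWW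
      rwa [Nat.card_Icc, Nat.add_sub_cancel] at h3
    calc _ ≤ ∑ _W ∈ (pz z).powerset.filter (fun W => ((∏ p ∈ W, p : ℕ) : ℝ) ≤ Q0), Q0 * β ^ 2 :=
          Finset.sum_le_sum h1
      _ = (((pz z).powerset.filter (fun W => ((∏ p ∈ W, p : ℕ) : ℝ) ≤ Q0)).card : ℝ) *
          (Q0 * β ^ 2) := by rw [Finset.sum_const, nsmul_eq_mul]
      _ ≤ Q0 * (Q0 * β ^ 2) := by
          apply mul_le_mul_of_nonneg_right _ (by positivity)
          exact (show ((_ : ℕ) : ℝ) ≤ ((⌊Q0⌋₊ : ℕ) : ℝ) by exact_mod_cast h2).trans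
            (Nat.floor_le (by linarith))
      _ = _ := by ring
  · -- big moduli
    have h1 : ∀ W ∈ (pz z).powerset.filter (fun W => ¬ ((∏ p ∈ W, p : ℕ) : ℝ) ≤ Q0),
        (∏ p ∈ W, dk k p) * Vq u K (∏ p ∈ W, p) ≤
          (∏ p ∈ W, dk k p) * (Lm * (K / Q0 + 1) * Sg + K ^ 2 * z / Q0) := by
      intro W hW
      rw [mem_filter, not_le] at hW
      have hWz := mem_powerset.1 hW.1
      apply mul_le_mul_of_nonneg_left _ (hd0 W hW.1)
      have hq1 : 1 ≤ ∏ p ∈ W, p := prod_pos_primes fun p hp => (mem_pz.1 (hWz hp)).2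
      refine (Vq_big u hu K (∏ p ∈ W, p) hq1 Lm hL hub).trans ?_
      have hq0 : (0 : ℝ) < ((∏ p ∈ W, p : ℕ) : ℝ) := by linarith [hW.2]
      have e1 : (K : ℝ) / ((∏ p ∈ W, p : ℕ) : ℝ) ≤ K / Q0 :=
        div_le_div_of_nonneg_left (Nat.cast_nonneg _) (by linarith) hW.2.le
      have e2 : (K : ℝ) ^ 2 / (Nat.totient (∏ p ∈ W, p) : ℝ) ≤ K ^ 2 * z / Q0 := by
        have h3 := phi_low z hz W hWz
        calc (K : ℝ) ^ 2 / (Nat.totient (∏ p ∈ W, p) : ℝ) =
            K ^ 2 * (1 / (Nat.totient (∏ p ∈ W, p) : ℝ)) := by ring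
          _ ≤ K ^ 2 * (z / ((∏ p ∈ W, p : ℕ) : ℝ)) := mul_le_mul_of_nonneg_left h3 (sq_nonneg _)
          _ ≤ K ^ 2 * (z / Q0) := by
              apply mul_le_mul_of_nonneg_left _ (sq_nonneg _)
              exact div_le_div_of_nonneg_left hz0.le (by linarith) hW.2.le
          _ = _ := by ring
      apply add_le_add _ e2
      apply mul_le_mul _ hS (Finset.sum_nonneg fun n _ => hu n) (by positivity)
      apply mul_le_mul_of_nonneg_left _ hL
      linarith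
    refine (Finset.sum_le_sum h1).trans ?_
    rw [← Finset.sum_mul]
    apply mul_le_mul_of_nonneg_right _ (by positivity)
    calc ∑ W ∈ (pz z).powerset.filter (fun W => ¬ ((∏ p ∈ W, p : ℕ) : ℝ) ≤ Q0), ∏ p ∈ W, dk k p
        ≤ ∑ W ∈ (pz z).powerset, ∏ p ∈ W, dk k p :=
          Finset.sum_le_sum_of_subset_of_nonneg (filter_subset _ _) fun W hW _ => hd0 W hW
      _ = ∏ p ∈ pz z, (1 + dk k p) := (Finset.prod_one_add _).symm
      _ ≤ (∏ p ∈ pz z, (1 + dk k p)) ^ 2 := by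
          have h3 : ∏ _p ∈ pz z, (1 : ℝ) ≤ ∏ p ∈ pz z, (1 + dk k p) :=
            Finset.prod_le_prod (fun _ _ => zero_le_one) (fun p hp => by
              have := dk_nonneg k p (hpos p hp)
              linarith)
          rw [Finset.prod_const_one] at h3
          nlinarith
      _ ≤ _ := prod_dk k z hz

section

variable {k : ℕ} (s : Fin k → ℕ) (G : Fin k → ℤ[X]) (c : (i : Fin k) → Fin (s i + 2) → ℤ)

/-- the truncated difference -/
noncomputable def VrP (u : ℕ → ℝ) (T0 : Finset ℕ) (K r : ℕ) : ℝ :=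
  ∑ j ∈ Finset.range r, (-1 : ℝ) ^ j * ∑ T ∈ T0.powersetCard j,
      (∑ n ∈ Finset.Icc 1 K, u n * xi s G c T n - K * rhoP s G c T)

noncomputable def ErP (T0 : Finset ℕ) (r n : ℕ) : ℝ := ∑ T ∈ T0.powersetCard r, xi s G c T n

lemma ErP_nonneg (T0 : Finset ℕ) (r n : ℕ) : 0 ≤ ErP s G c T0 r n :=
  sum_nonneg fun T _ => xi_nonneg' s G c T n

open Classical in
lemma omp_le {p : ℕ} (hp : p.Prime) : (omp s G c p : ℝ) ≤ p - 1 := by
  rw [← omp_sum, ← sum_unit hp]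
  refine Finset.sum_le_sum fun x _ => ?_
  by_cases h : p ∣ x
  · simp [h]
  · by_cases h2 : hit s G c p x
    · simp [h, h2]
    · simp [h, h2]

open Classical in
lemma ptwP (u : ℕ → ℝ) (hu : ∀ n, 0 ≤ u n) (z K r : ℕ) :
    |∑ n ∈ (Finset.Icc 1 K).filter (fun n : ℕ => ∀ p ∈ pz z, ¬ hit s G c p n), u n -
      K * ∏ p ∈ pz z, (1 - (omp s G c p : ℝ) / ((p : ℝ) - 1))| ≤
      2 * |VrP s G c u (pz z) K r| + |VrP s G c u (pz z) K (r + 1)| +
        2 * ∑ n ∈ Icc 1 K, u n * ErP s G c (pz z) r n := by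
  set T0 := pz z with hT0
  set A := ∑ n ∈ Icc 1 K, u n * ErP s G c T0 r n with hA
  have h1 : ∑ n ∈ (Finset.Icc 1 K).filter (fun n : ℕ => ∀ p ∈ T0, ¬ hit s G c p n), u n =
      ∑ n ∈ Icc 1 K, u n * (if ∀ p ∈ T0, ¬ hit s G c p n then (1 : ℝ) else 0) := by
    rw [Finset.sum_filter]
    refine Finset.sum_congr rfl fun n _ => ?_
    split_ifs <;> simp
  have h2 : |∑ n ∈ Icc 1 K, u n * (if ∀ p ∈ T0, ¬ hit s G c p n then (1 : ℝ) else 0) -
      ∑ j ∈ range r, (-1 : ℝ) ^ j * ∑ T ∈ T0.powersetCard j,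
        ∑ n ∈ Icc 1 K, u n * xi s G c T n| ≤ A := by
    have e : ∑ j ∈ range r, (-1 : ℝ) ^ j * ∑ T ∈ T0.powersetCard j,
        ∑ n ∈ Icc 1 K, u n * xi s G c T n =
        ∑ n ∈ Icc 1 K, u n * ∑ j ∈ range r, (-1 : ℝ) ^ j *
          ∑ T ∈ T0.powersetCard j, xi s G c T n := by
      simp only [Finset.mul_sum]
      rw [Finset.sum_congr rfl fun j _ => Finset.sum_comm, Finset.sum_comm]
      refine Finset.sum_congr rfl fun n _ => Finset.sum_congr rfl fun j _ =>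
        Finset.sum_congr rfl fun T _ => by ring
    rw [e, ← sum_sub_distrib]
    refine (abs_sum_le_sum_abs _ _).trans ?_
    rw [hA]
    apply sum_le_sum
    intro n _
    have h := bonf_ind (fun p n => hit s G c p n) T0 r n
    rw [← mul_sub, abs_mul, abs_of_nonneg (hu n)]
    apply mul_le_mul_of_nonneg_left _ (hu n)
    exact h
  have hx : ∀ p ∈ T0, 0 ≤ (omp s G c p : ℝ) / ((p : ℝ) - 1) ∧
      (omp s G c p : ℝ) / ((p : ℝ) - 1) ≤ 1 := by
    intro p hp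
    rw [hT0, mem_pz] at hp
    have hp0 : (0 : ℝ) < (p : ℝ) - 1 := by
      have : (2 : ℝ) ≤ p := by exact_mod_cast hp.2.two_le
      linarith
    refine ⟨by positivity, ?_⟩
    rw [div_le_one hp0]
    exact omp_le s G c hp.2
  have h3 := bonf_bound (fun p => (omp s G c p : ℝ) / ((p : ℝ) - 1)) T0 hx r
  have h4 : es (fun p => (omp s G c p : ℝ) / ((p : ℝ) - 1)) T0 r =
      ∑ T ∈ T0.powersetCard r, rhoP s G c T := rfl
  have h5 : bonf (fun p => (omp s G c p : ℝ) / ((p : ℝ) - 1)) T0 r =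
      ∑ j ∈ range r, (-1 : ℝ) ^ j * ∑ T ∈ T0.powersetCard j, rhoP s G c T := rfl
  rw [h4, h5] at h3
  set R := ∑ T ∈ T0.powersetCard r, rhoP s G c T with hR
  set X := ∑ j ∈ range r, (-1 : ℝ) ^ j * ∑ T ∈ T0.powersetCard j, rhoP s G c T with hX
  set Y := ∑ j ∈ range r, (-1 : ℝ) ^ j * ∑ T ∈ T0.powersetCard j,
    ∑ n ∈ Icc 1 K, u n * xi s G c T n with hY
  have h6 : VrP s G c u T0 K r = Y - K * X := by
    unfold VrP
    rw [hY, hX, mul_sum, ← sum_sub_distrib]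
    apply sum_congr rfl
    intro j _
    rw [sum_sub_distrib, ← mul_sum]
    ring
  have h7 : VrP s G c u T0 K (r + 1) = VrP s G c u T0 K r + (-1) ^ r * (A - K * R) := by
    unfold VrP
    rw [sum_range_succ, sum_sub_distrib, ← mul_sum]
    congr 3
    rw [hA]
    unfold ErP
    simp only [Finset.mul_sum]
    rw [sum_comm]
  have hA0 : 0 ≤ A := by
    rw [hA]
    exact sum_nonneg fun n _ => mul_nonneg (hu n) (ErP_nonneg s G c T0 r n)
  have hK0 : (0 : ℝ) ≤ K := Nat.cast_nonneg _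
  have h8 : |(K : ℝ) * R| ≤ A + |VrP s G c u T0 K (r + 1)| + |VrP s G c u T0 K r| := by
    have h9 : |(-1 : ℝ) ^ r * (A - K * R)| = |A - K * R| := by
      rw [abs_mul, abs_pow, abs_neg, abs_one, one_pow, one_mul]
    have h10 : (-1 : ℝ) ^ r * (A - K * R) = VrP s G c u T0 K (r + 1) - VrP s G c u T0 K r := by
      rw [h7]; ring
    have h11 : |A - K * R| ≤ |VrP s G c u T0 K (r + 1)| + |VrP s G c u T0 K r| := by
      rw [← h9, h10]; exact abs_sub _ _
    have h12 : (K : ℝ) * R = A - (A - K * R) := by ring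
    rw [h12]
    refine (abs_sub _ _).trans ?_
    rw [abs_of_nonneg hA0]
    linarith
  have h9 : |(K : ℝ) * X - K * ∏ p ∈ T0, (1 - (omp s G c p : ℝ) / ((p : ℝ) - 1))| ≤
      |(K : ℝ) * R| := by
    rw [← mul_sub, abs_mul, abs_mul, abs_sub_comm]
    apply mul_le_mul_of_nonneg_left _ (abs_nonneg _)
    exact h3.trans (le_abs_self _)
  rw [h1]
  have h10 : ∑ n ∈ Icc 1 K, u n * (if ∀ p ∈ T0, ¬ hit s G c p n then (1 : ℝ) else 0) -
      K * ∏ p ∈ T0, (1 - (omp s G c p : ℝ) / ((p : ℝ) - 1)) =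
      (∑ n ∈ Icc 1 K, u n * (if ∀ p ∈ T0, ¬ hit s G c p n then (1 : ℝ) else 0) - Y) +
      VrP s G c u T0 K r +
      (K * X - K * ∏ p ∈ T0, (1 - (omp s G c p : ℝ) / ((p : ℝ) - 1))) := by rw [h6]; ring
  rw [h10]
  refine (abs_add_three _ _ _).trans ?_
  linarith

end

open Classical in
/-- the von Mangoldt function at the `n` without small prime factors -/
noncomputable def uL (z n : ℕ) : ℝ :=
  if ∀ p ∈ pz z, ¬ p ∣ n then ArithmeticFunction.vonMangoldt n else 0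

lemma uL_nonneg (z n : ℕ) : 0 ≤ uL z n := by
  unfold uL
  split_ifs
  · exact ArithmeticFunction.vonMangoldt_nonneg
  · exact le_rfl

lemma uL_le (z n : ℕ) : uL z n ≤ ArithmeticFunction.vonMangoldt n := by
  unfold uL
  split_ifs
  · exact le_rfl
  · exact ArithmeticFunction.vonMangoldt_nonneg

/-- the change -/
lemma uL_diff (z K : ℕ) : ∑ n ∈ Icc 1 K, (ArithmeticFunction.vonMangoldt n - uL z n) ≤
    z * ((Nat.log 2 K + 1 : ℝ) * Real.log K) := by
  classical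
  have h1 : ∀ n ∈ Icc 1 K, ArithmeticFunction.vonMangoldt n - uL z n ≤
      ∑ p ∈ pz z, (if p ∣ n then ArithmeticFunction.vonMangoldt n else 0) := by
    intro n _
    have h0 : ∀ p ∈ pz z, 0 ≤ (if p ∣ n then (ArithmeticFunction.vonMangoldt n : ℝ) else 0) := by
      intro p _
      split_ifs
      · exact ArithmeticFunction.vonMangoldt_nonneg
      · exact le_rfl
    unfold uL
    by_cases h : ∀ p ∈ pz z, ¬ p ∣ n
    · rw [if_pos h, sub_self]
      exact Finset.sum_nonneg h0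
    · rw [if_neg h, sub_zero]
      push Not at h
      obtain ⟨p, hp, hpn⟩ := h
      calc (ArithmeticFunction.vonMangoldt n : ℝ) =
          (if p ∣ n then (ArithmeticFunction.vonMangoldt n : ℝ) else 0) := by rw [if_pos hpn]
        _ ≤ _ := Finset.single_le_sum (f := fun p =>
            (if p ∣ n then (ArithmeticFunction.vonMangoldt n : ℝ) else 0)) h0 hp
  refine (Finset.sum_le_sum h1).trans ?_
  rw [Finset.sum_comm]
  calc ∑ p ∈ pz z, ∑ n ∈ Icc 1 K, (if p ∣ n then (ArithmeticFunction.vonMangoldt n : ℝ) else 0)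
      ≤ ∑ _p ∈ pz z, (Nat.log 2 K + 1 : ℝ) * Real.log K := by
        refine Finset.sum_le_sum fun p hp => ?_
        rw [← Finset.sum_filter]
        exact lam_mult_prime K p (mem_pz.1 hp).2
    _ = ((pz z).card : ℝ) * ((Nat.log 2 K + 1 : ℝ) * Real.log K) := by
        rw [Finset.sum_const, nsmul_eq_mul]
    _ ≤ _ := by
        apply mul_le_mul_of_nonneg_right _ (mul_nonneg (by positivity) (Real.log_natCast_nonneg _))
        exact_mod_cast card_pz_le z

/-- the change in a subset -/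
lemma uL_diff_sub (z K : ℕ) (S : Finset ℕ) (hS : S ⊆ Icc 1 K) :
    |∑ n ∈ S, ArithmeticFunction.vonMangoldt n - ∑ n ∈ S, uL z n| ≤
      z * ((Nat.log 2 K + 1 : ℝ) * Real.log K) := by
  rw [← Finset.sum_sub_distrib, abs_of_nonneg]
  · refine (Finset.sum_le_sum_of_subset_of_nonneg hS fun n _ _ => ?_).trans (uL_diff z K)
    have := uL_le z n
    linarith
  · exact Finset.sum_nonneg fun n _ => by
      have := uL_le z n
      linarith

end Pool.Agent.Q224.CR
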