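import Mathlib
import Pool.Agent.Q224.CR.MtpA

/-! Project CR, job MTP: the main term at prime arguments. -/

set_option autoImplicit false

namespace Pool.Agent.Q224.CR

open Finset Filter Polynomial
open Pool.Agent.H373R2.T7 (pz mem_pz lam1 lam1_le lam_ap natlog_le)
open Pool.Agent.Q236.CR

/-- choice of the parameters (copy of the lemma `par` of `Q151/CR/MT.lean`) -/
lemma parP (k E U : ℕ) (C : ℝ) (hC : 0 ≤ C) : ∃ H0 : ℕ, ∀ H : ℕ, H0 ≤ H → 1 ≤ Real.log H ∧ ∃ r : ℕ,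
    ((⌊Real.log H ^ E⌋₊ : ℝ) + 1) ^ (2 * (r + 1)) ≤ H ∧
    54 * (3 * (⌊Real.log H ^ E⌋₊ : ℝ)) ^ (3 * k) ≤ Real.log H ^ (3 * k * E + 1) ∧
    27 * ((3 * (⌊Real.log H ^ E⌋₊ : ℝ)) ^ (7 * k) * Real.exp (-(r : ℝ))) ≤ 1 / Real.log H ^ U ∧
    3 * C * (((⌊Real.log H ^ E⌋₊ : ℝ) + 1) ^ (4 * (r + 1)) / H) ≤ 1 / Real.log H ^ U := by
  set c0 : ℕ := 7 * k * E + U + 1 with hc0
  have hlim : Tendsto (fun N : ℕ => Real.log (N : ℝ)) atTop atTop :=
    Real.tendsto_log_atTop.comp (tendsto_natCast_atTop_atTop (R := ℝ))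
  have h1 : ∀ᶠ N : ℕ in atTop, 1 ≤ Real.log (Real.log N) :=
    (Real.tendsto_log_atTop.comp hlim).eventually_ge_atTop 1
  have h2 : ∀ᶠ N : ℕ in atTop, (8 * (c0 + 2) * (E + 1)) * Real.log (Real.log N) ^ 2 ≤ Real.log N := by
    have h3 := (Real.isLittleO_pow_log_id_atTop (n := 2)).bound (show (0 : ℝ) < 1 / (8 * (c0 + 2) * (E + 1)) by positivity)
    have h4 := hlim.eventually h3
    filter_upwards [h4, hlim.eventually_ge_atTop 1] with N h5 h6
    simp only [id] at h5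
    rw [Real.norm_of_nonneg (by positivity), Real.norm_of_nonneg (by linarith), one_div, inv_mul_eq_div,
      le_div_iff₀ (by positivity)] at h5
    linarith
  have h3 : ∀ᶠ N : ℕ in atTop, (3 * C + 1) ^ 2 * Real.log N ^ (2 * U) ≤ N := by
    have h3 := (Real.isLittleO_pow_log_id_atTop (n := 2 * U)).bound (show (0 : ℝ) < 1 / ((3 * C + 1) ^ 2) by positivity)
    have h4 := (tendsto_natCast_atTop_atTop (R := ℝ)).eventually h3
    filter_upwards [h4, hlim.eventually_ge_atTop 1] with N h5 h6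
    simp only [id] at h5
    rw [Real.norm_of_nonneg (by positivity), Real.norm_of_nonneg (Nat.cast_nonneg _), one_div, inv_mul_eq_div,
      le_div_iff₀ (by positivity)] at h5
    linarith
  obtain ⟨H0, h0⟩ := Filter.eventually_atTop.1 (h1.and (h2.and (h3.and (hlim.eventually_ge_atTop
    (54 * 3 ^ (7 * k) + 54 * 3 ^ (3 * k) + 1)))))
  refine ⟨max H0 1, fun H hH => ?_⟩
  obtain ⟨ha, hb, hd, hL'⟩ := h0 H (le_trans (le_max_left _ _) hH)
  have hH1 : 1 ≤ H := le_trans (le_max_right _ _) hH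
  have hHr : (0 : ℝ) < H := by exact_mod_cast hH1
  set L := Real.log H with hLd
  have h37 : (0 : ℝ) < 3 ^ (7 * k) := by positivity
  have h33 : (0 : ℝ) < 3 ^ (3 * k) := by positivity
  have hL : 1 ≤ L := by linarith
  have hL0 : 0 < L := by linarith
  set ℓ := Real.log L with hℓ
  refine ⟨hL, ⌈(c0 : ℝ) * ℓ⌉₊, ?_⟩
  set r := ⌈(c0 : ℝ) * ℓ⌉₊ with hr
  set z := ⌊L ^ E⌋₊ with hz
  have hzL : (z : ℝ) ≤ L ^ E := Nat.floor_le (by positivity)
  have hz0 : (0 : ℝ) ≤ z := Nat.cast_nonneg _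
  have hr1 : (c0 : ℝ) * ℓ ≤ r := Nat.le_ceil _
  have hr2 : (r : ℝ) + 1 ≤ (c0 + 2) * ℓ := by
    have := (Nat.ceil_lt_add_one (show 0 ≤ (c0 : ℝ) * ℓ by positivity)).le
    rw [← hr] at this
    linarith
  have hlz : Real.log ((z : ℝ) + 1) ≤ (E + 1) * ℓ := by
    have h5 : (z : ℝ) + 1 ≤ L ^ (E + 1) := by
      have h6 : 1 ≤ L ^ E := one_le_pow₀ hL
      have h7 : 2 ≤ L := by
        have h8 : Real.exp 1 ≤ L := by
          rw [← Real.exp_log hL0]
          exact Real.exp_le_exp.2 ha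
        have := Real.exp_one_gt_d9
        linarith
      rw [pow_succ]
      nlinarith
    have h6 := Real.log_le_log (by positivity) h5
    rw [Real.log_pow] at h6
    push_cast at h6
    exact h6
  have hlz0 : 0 ≤ Real.log ((z : ℝ) + 1) := Real.log_nonneg (by linarith)
  have hW : ((z : ℝ) + 1) ^ (8 * (r + 1)) ≤ H := by
    rw [← Real.log_le_log_iff (by positivity) hHr, Real.log_pow, ← hLd]
    push_cast
    calc (8 * ((r : ℝ) + 1)) * Real.log ((z : ℝ) + 1) ≤ (8 * ((c0 + 2) * ℓ)) * ((E + 1) * ℓ) := by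
          gcongr
      _ = (8 * (c0 + 2) * (E + 1)) * ℓ ^ 2 := by ring
      _ ≤ L := hb
  refine ⟨?_, ?_, ?_, ?_⟩
  · refine le_trans ?_ hW
    apply pow_le_pow_right₀ (by linarith)
    omega
  · calc 54 * (3 * (z : ℝ)) ^ (3 * k) ≤ 54 * (3 * L ^ E) ^ (3 * k) := by gcongr
      _ = (54 * 3 ^ (3 * k)) * L ^ (3 * k * E) := by
          rw [mul_pow, ← pow_mul, mul_comm E (3 * k)]; ring
      _ ≤ L * L ^ (3 * k * E) := by
          apply mul_le_mul_of_nonneg_right _ (by positivity)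
          linarith
      _ = L ^ (3 * k * E + 1) := by rw [pow_succ]; ring
  · have he : Real.exp (-(r : ℝ)) ≤ 1 / L ^ c0 := by
      have e : 1 / L ^ c0 = Real.exp (-(c0 * ℓ)) := by
        rw [Real.exp_neg, mul_comm, Real.exp_mul, hℓ, Real.exp_log hL0, Real.rpow_natCast, one_div]
      rw [e]
      apply Real.exp_le_exp.2
      linarith
    calc 27 * ((3 * (z : ℝ)) ^ (7 * k) * Real.exp (-(r : ℝ))) ≤ 27 * ((3 * L ^ E) ^ (7 * k) * (1 / L ^ c0)) := by gcongr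
      _ = (27 * 3 ^ (7 * k)) * (L ^ (7 * k * E) / L ^ c0) := by
          rw [mul_pow, ← pow_mul, mul_comm E (7 * k)]; ring
      _ ≤ L * (L ^ (7 * k * E) / L ^ c0) := by
          apply mul_le_mul_of_nonneg_right _ (by positivity)
          linarith
      _ = 1 / L ^ U := by
          rw [hc0, pow_add, pow_add, pow_one]
          field_simp
  · set W : ℝ := ((z : ℝ) + 1) ^ (4 * (r + 1)) with hWd
    have hW2 : W ^ 2 ≤ H := by
      refine le_trans (le_of_eq ?_) hW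
      rw [hWd, ← pow_mul]
      congr 1
      ring
    have hW0 : 0 < W := by rw [hWd]; positivity
    have h5 : ((3 * C + 1) * L ^ U) ^ 2 ≤ H := by
      refine le_trans (le_of_eq ?_) hd
      ring
    have h6 : W * ((3 * C + 1) * L ^ U) ≤ H := by
      nlinarith [sq_nonneg (W - (3 * C + 1) * L ^ U)]
    rw [← mul_div_assoc, div_le_div_iff₀ hHr (by positivity), one_mul]
    have h7 : 0 < L ^ U := by positivity
    nlinarith [mul_pos hW0 h7]

lemma ev_big (ε : ℝ) (hε : 0 < ε) (M : ℕ) (c : ℝ) : ∃ H0 : ℕ, ∀ H : ℕ, H0 ≤ H →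
    c ≤ Real.log H ∧ Real.log H ^ M ≤ Real.exp (Real.log H ^ ε) ∧
      c ≤ Real.exp (Real.log H ^ ε) := by
  have hlim : Tendsto (fun N : ℕ => Real.log (N : ℝ)) atTop atTop :=
    Real.tendsto_log_atTop.comp (tendsto_natCast_atTop_atTop (R := ℝ))
  have h1 : ∀ᶠ y : ℝ in atTop, y ^ ((M : ℝ) / ε) ≤ Real.exp y := by
    have h2 := (isLittleO_rpow_exp_atTop ((M : ℝ) / ε)).bound (zero_lt_one)
    filter_upwards [h2, eventually_ge_atTop (0 : ℝ)] with y h3 h4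
    rw [Real.norm_of_nonneg (Real.rpow_nonneg h4 _), one_mul,
      Real.norm_of_nonneg (Real.exp_pos _).le] at h3
    exact h3
  have hpow : Tendsto (fun x : ℝ => x ^ ε) atTop atTop := tendsto_rpow_atTop hε
  have h2 : ∀ᶠ x : ℝ in atTop, x ^ M ≤ Real.exp (x ^ ε) := by
    filter_upwards [hpow.eventually h1, eventually_ge_atTop (0 : ℝ)] with x h3 h4
    rw [← Real.rpow_mul h4, mul_div_cancel₀ _ hε.ne', Real.rpow_natCast] at h3
    exact h3
  have h3 : ∀ᶠ x : ℝ in atTop, c ≤ Real.exp (x ^ ε) :=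
    (Real.tendsto_exp_atTop.comp hpow).eventually_ge_atTop c
  obtain ⟨H0, h0⟩ := Filter.eventually_atTop.1 ((hlim.eventually_ge_atTop c).and
    ((hlim.eventually h2).and (hlim.eventually h3)))
  exact ⟨H0, fun H hH => h0 H hH⟩

lemma sq4 (D v w a b : ℝ) (h : |D| ≤ 2 * |v| + |w| + 2 * a + b) :
    D ^ 2 ≤ 10 * (v ^ 2 + w ^ 2 + a ^ 2 + b ^ 2) := by
  have h1 : D ^ 2 ≤ (2 * |v| + |w| + 2 * a + b) ^ 2 := by
    rw [← sq_abs D]
    exact pow_le_pow_left₀ (abs_nonneg _) h 2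
  have h2 := sq_abs v
  have h3 := sq_abs w
  rw [← h2, ← h3]
  nlinarith [sq_nonneg (|v| - 2 * |w|), sq_nonneg (2 * |w| - a), sq_nonneg (|v| - a),
    sq_nonneg (|v| - 2 * b), sq_nonneg (|w| - b), sq_nonneg (a - 2 * b)]

/-- the parameters of the small moduli -/
lemma small_moduli (ε : ℝ) (hε : 0 < ε) (C2 A2 E : ℕ) : ∃ H0 : ℕ, ∀ H : ℕ, H0 ≤ H →
    ∀ K z : ℕ, Real.exp (Real.log H ^ ε) ≤ K → K ≤ H → (z : ℝ) ≤ Real.log H ^ E →
    z * ((Nat.log 2 K + 1 : ℝ) * Real.log K) ≤ K / Real.log H ^ A2 ∧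
    ∀ q : ℕ, 1 ≤ q → (q : ℝ) ≤ Real.log H ^ C2 → ∀ a, a.Coprime q →
      |∑ n ∈ (Icc 1 K).filter (fun n => n ≡ a [MOD q]), uL z n - K / (Nat.totient q : ℝ)| ≤
        2 * (K / Real.log H ^ A2) := by
  obtain ⟨N0, hN0⟩ := lam_ap ⌈(C2 : ℝ) / ε⌉₊ ⌈(A2 : ℝ) / ε⌉₊
  obtain ⟨H0, h0⟩ := ev_big ε hε (A2 + E + 3) (N0 + 3)
  refine ⟨max H0 3, fun H hH K z hK hKH hz => ?_⟩
  obtain ⟨h1, h2, h3⟩ := h0 H ((le_max_left _ _).trans hH)
  have hN00 : (0 : ℝ) ≤ N0 := Nat.cast_nonneg _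
  set L := Real.log H with hL
  have hL3 : 3 ≤ L := by linarith
  have hL0 : 0 < L := by linarith
  have hK3 : (3 : ℝ) ≤ K := by linarith
  have hK0 : (0 : ℝ) < K := by linarith
  have hK1 : 1 ≤ K := by exact_mod_cast (show (1 : ℝ) ≤ K by linarith)
  have hlogK : Real.log K ≤ L := by
    rw [hL]
    exact Real.log_le_log hK0 (by exact_mod_cast hKH)
  have hlogK0 : 0 ≤ Real.log K := Real.log_natCast_nonneg _
  have hlogK1 : L ^ ε ≤ Real.log K := by
    have := Real.log_le_log (Real.exp_pos _) hK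
    rwa [Real.log_exp] at this
  have hb : z * ((Nat.log 2 K + 1 : ℝ) * Real.log K) ≤ K / L ^ A2 := by
    have h4 := natlog_le K hK1
    have h5 : (Nat.log 2 K + 1 : ℝ) ≤ L ^ 2 := by nlinarith
    have h6 : (0 : ℝ) ≤ (Nat.log 2 K + 1 : ℝ) := by positivity
    rw [le_div_iff₀ (by positivity)]
    calc z * ((Nat.log 2 K + 1 : ℝ) * Real.log K) * L ^ A2 ≤ L ^ E * (L ^ 2 * L) * L ^ A2 := by
          gcongr
      _ = L ^ (A2 + E + 3) := by ring
      _ ≤ K := h2.trans hK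
  refine ⟨hb, fun q hq hqQ a ha => ?_⟩
  have hKN : N0 ≤ K := by
    have : (N0 : ℝ) ≤ K := by linarith
    exact_mod_cast this
  have hpow : ∀ C : ℕ, L ^ C ≤ Real.log K ^ ⌈(C : ℝ) / ε⌉₊ := by
    intro C
    have e1 : (C : ℝ) ≤ ε * ⌈(C : ℝ) / ε⌉₊ := by
      have := Nat.le_ceil ((C : ℝ) / ε)
      rw [div_le_iff₀ hε] at this
      linarith
    calc L ^ C = L ^ (C : ℝ) := (Real.rpow_natCast _ _).symm
      _ ≤ L ^ (ε * ⌈(C : ℝ) / ε⌉₊) := Real.rpow_le_rpow_of_exponent_le (by linarith) e1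
      _ = (L ^ ε) ^ ⌈(C : ℝ) / ε⌉₊ := by rw [Real.rpow_mul hL0.le, Real.rpow_natCast]
      _ ≤ _ := pow_le_pow_left₀ (Real.rpow_nonneg hL0.le _) hlogK1 _
  have h4 := hN0 K hKN q hq (hqQ.trans (hpow C2)) a K le_rfl
  rw [if_pos ha] at h4
  have h5 : (K : ℝ) / Real.log K ^ ⌈(A2 : ℝ) / ε⌉₊ ≤ K / L ^ A2 :=
    div_le_div_of_nonneg_left hK0.le (by positivity) (hpow A2)
  have h6 := uL_diff_sub z K ((Icc 1 K).filter (fun n => n ≡ a [MOD q])) (filter_subset _ _)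
  rw [abs_sub_comm] at h6
  have h7 : ∑ n ∈ (Icc 1 K).filter (fun n => n ≡ a [MOD q]), uL z n - K / (Nat.totient q : ℝ) =
      (∑ n ∈ (Icc 1 K).filter (fun n => n ≡ a [MOD q]), uL z n -
        ∑ n ∈ (Icc 1 K).filter (fun n => n ≡ a [MOD q]), ArithmeticFunction.vonMangoldt n) +
      (∑ n ∈ (Icc 1 K).filter (fun n => n ≡ a [MOD q]), ArithmeticFunction.vonMangoldt n -
        K / (Nat.totient q : ℝ)) := by ring
  rw [h7]
  refine (abs_add_le _ _).trans ?_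
  linarith

theorem mtp : S_VARP → S_ER → S_MTP := by
  classical
  intro hV hE k s ε E U hε
  obtain ⟨C, hC, hV⟩ := hV k s
  obtain ⟨C', hC', hE⟩ := hE k s
  obtain ⟨H1, hpar⟩ := parP k E (U + 1) (980 * C + 360 * C') (by positivity)
  set B0 : ℕ := 3 * k * E with hB0
  set C2 : ℕ := U + 2 * B0 + E + 8 with hC2
  set A2 : ℕ := C2 + U + B0 + 8 with hA2
  obtain ⟨H2, hsm⟩ := small_moduli ε hε C2 A2 E
  obtain ⟨H3, hbig⟩ := ev_big ε hε (2 * B0 + U + 4) 500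
  refine ⟨max (max H1 H2) (max H3 1), fun H hH G K hK hKH => ?_⟩
  have g1 : H1 ≤ H := ((le_max_left _ _).trans (le_max_left _ _)).trans hH
  have g2 : H2 ≤ H := ((le_max_right _ _).trans (le_max_left _ _)).trans hH
  have g3 : H3 ≤ H := ((le_max_left _ _).trans (le_max_right _ _)).trans hH
  have hH1 : 1 ≤ H := ((le_max_right _ _).trans (le_max_right _ _)).trans hH
  obtain ⟨hL, r, p1, p2, p3, p4⟩ := hpar H g1
  obtain ⟨q1, q2, q3⟩ := hbig H g3
  have hHr : (0 : ℝ) < H := by exact_mod_cast hH1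
  set L := Real.log H with hLd
  set z := ⌊L ^ E⌋₊ with hz
  have hL0 : 0 < L := by linarith
  have hz1 : 1 ≤ z := by
    rw [hz]; apply Nat.le_floor
    rw [Nat.cast_one]; exact one_le_pow₀ hL
  have hzr : (1 : ℝ) ≤ z := by exact_mod_cast hz1
  have hzL : (z : ℝ) ≤ L ^ E := Nat.floor_le (by positivity)
  obtain ⟨hb, hsm⟩ := hsm H g2 K z hK hKH hzL
  have hK1 : (500 : ℝ) ≤ K := q3.trans hK
  have hK0 : (0 : ℝ) < K := by linarith
  have hKL : L ^ (2 * B0 + U + 4) ≤ K := q2.trans hK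
  have hlogK : Real.log K ≤ L := by
    rw [hLd]
    exact Real.log_le_log hK0 (by exact_mod_cast hKH)
  set u : ℕ → ℝ := uL z with hu
  have hu0 : ∀ n, 0 ≤ u n := uL_nonneg z
  have hu1 : ∀ n, u n ≠ 0 → ∀ p ∈ pz z, ¬ p ∣ n := by
    intro n hn
    by_contra h
    apply hn
    rw [hu]
    unfold uL
    rw [if_neg h]
  have hub : ∀ n ∈ Icc 1 K, u n ≤ L := by
    intro n hn
    rw [mem_Icc] at hn
    refine (uL_le z n).trans (ArithmeticFunction.vonMangoldt_le_log.trans (le_trans ?_ hlogK))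
    exact Real.log_le_log (by exact_mod_cast hn.1) (by exact_mod_cast hn.2)
  have hus : ∑ n ∈ Icc 1 K, u n ≤ 6 * K :=
    (Finset.sum_le_sum fun n _ => uL_le z n).trans (lam1_le K)
  have hus0 : 0 ≤ ∑ n ∈ Icc 1 K, u n := Finset.sum_nonneg fun n _ => hu0 n
  have p1' : ((z : ℝ) + 1) ^ (2 * r) ≤ H := by
    refine le_trans ?_ p1
    apply pow_le_pow_right₀ (by linarith); omega
  set W : ℝ := ((z : ℝ) + 1) ^ (4 * (r + 1)) with hW
  have hW' : ((z : ℝ) + 1) ^ (4 * r) ≤ W := by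
    rw [hW]; apply pow_le_pow_right₀ (by linarith); omega
  have hW0 : 0 < W := by rw [hW]; positivity
  have v1 := hV G H z r K u hH1 hz1 p1' hu0 hu1
  have v2 := hV G H z (r + 1) K u hH1 hz1 p1 hu0 hu1
  have e1 : ∀ n : ℕ, ∑ c ∈ SB k s H, (ErP s G c (pz z) r n) ^ 2 ≤
      (SB k s H).card * ((3 * (z : ℝ)) ^ (7 * k) * Real.exp (-(r : ℝ)) +
        C' * (((z : ℝ) + 1) ^ (4 * r) / H)) :=
    fun n => hE G H z r n hH1 hz1 p1'
  set N : ℝ := ((SB k s H).card : ℝ) with hN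
  have hN0 : 0 ≤ N := Nat.cast_nonneg _
  have hvr : ∀ ρ, ∑ c ∈ SB k s H, (VrP s G c u (pz z) K ρ) ^ 2 =
      ∑ c ∈ SB k s H, (∑ j ∈ Finset.range ρ, (-1 : ℝ) ^ j * ∑ T ∈ (pz z).powersetCard j,
      (∑ n ∈ Finset.Icc 1 K, u n * xi s G c T n - K * rhoP s G c T)) ^ 2 := fun ρ => rfl
  rw [← hvr] at v1 v2
  set P := (3 * (z : ℝ)) ^ (3 * k) with hP
  set Q := (3 * (z : ℝ)) ^ (7 * k) * Real.exp (-(r : ℝ)) with hQ
  have hP0 : 0 < P := by rw [hP]; positivity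
  have hQ0 : 0 < Q := by rw [hQ]; positivity
  -- the variance in progressions
  set S := ∑ W ∈ (pz z).powerset, (∏ p ∈ W, dk k p) * Vq u K (∏ p ∈ W, p) with hS
  set β : ℝ := 2 * (K / L ^ A2) with hβ
  have hβ0 : 0 ≤ β := by rw [hβ]; positivity
  have hSK := SK k z K hz1 u hu0 L (L ^ C2) β (6 * K) hL0.le hub (one_le_pow₀ hL) hβ0 hus
    (fun W hW hWQ a ha => hsm _ (prod_pos_primes fun p hp => (mem_pz.1 (hW hp)).2) hWQ a ha)
  rw [← hS, ← hP] at hSK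
  set X : ℝ := (K : ℝ) ^ 2 / L ^ (U + 1) with hX
  have hX0 : 0 ≤ X := by rw [hX]; positivity
  have hPL : P ≤ L ^ (B0 + 1) := by linarith
  have hLU : 0 < L ^ (U + 1) := by positivity
  -- the four terms
  have t1 : P * ((L ^ C2) ^ 2 * β ^ 2) ≤ 4 * X := by
    have h1 : L ^ (B0 + 1) * ((L ^ C2) ^ 2 * β ^ 2) ≤ 4 * X := by
      rw [show 4 * X = 4 * (K : ℝ) ^ 2 / L ^ (U + 1) by rw [hX]; ring, hβ, le_div_iff₀ hLU]
      have h2 : L ^ (B0 + 1) * ((L ^ C2) ^ 2 * (2 * (K / L ^ A2)) ^ 2) * L ^ (U + 1) =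
          4 * (K : ℝ) ^ 2 * (L ^ (B0 + 1 + 2 * C2 + (U + 1)) / L ^ (2 * A2)) := by
        field_simp
        ring
      rw [h2]
      have h3 : L ^ (B0 + 1 + 2 * C2 + (U + 1)) / L ^ (2 * A2) ≤ 1 := by
        rw [div_le_one (by positivity)]
        apply pow_le_pow_right₀ hL
        omega
      calc _ ≤ 4 * (K : ℝ) ^ 2 * 1 := mul_le_mul_of_nonneg_left h3 (by positivity)
        _ = _ := mul_one _
    exact (mul_le_mul_of_nonneg_right hPL (by positivity)).trans h1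
  have hPP : P * P ≤ L ^ (2 * B0 + 2) := by
    calc P * P ≤ L ^ (B0 + 1) * L ^ (B0 + 1) := mul_le_mul hPL hPL hP0.le (by positivity)
      _ = _ := by rw [← pow_add]; congr 1; ring
  have t2 : P * (P * (L * (K / L ^ C2 + 1) * (6 * K) + (K : ℝ) ^ 2 * z / L ^ C2)) ≤ 13 * X := by
    have h1 : L ^ (2 * B0 + 2) * (L * (K / L ^ C2) * (6 * K)) ≤ 6 * X := by
      rw [show 6 * X = 6 * (K : ℝ) ^ 2 / L ^ (U + 1) by rw [hX]; ring, le_div_iff₀ hLU]
      have h2 : L ^ (2 * B0 + 2) * (L * (K / L ^ C2) * (6 * K)) * L ^ (U + 1) =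
          6 * (K : ℝ) ^ 2 * (L ^ (2 * B0 + 2 + 1 + (U + 1)) / L ^ C2) := by
        field_simp
        ring
      rw [h2]
      have h3 : L ^ (2 * B0 + 2 + 1 + (U + 1)) / L ^ C2 ≤ 1 := by
        rw [div_le_one (by positivity)]
        apply pow_le_pow_right₀ hL
        omega
      calc _ ≤ 6 * (K : ℝ) ^ 2 * 1 := mul_le_mul_of_nonneg_left h3 (by positivity)
        _ = _ := mul_one _
    have h2 : L ^ (2 * B0 + 2) * (L * (6 * K)) ≤ 6 * X := by
      rw [show 6 * X = 6 * (K : ℝ) ^ 2 / L ^ (U + 1) by rw [hX]; ring, le_div_iff₀ hLU]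
      calc L ^ (2 * B0 + 2) * (L * (6 * K)) * L ^ (U + 1) = 6 * K * L ^ (2 * B0 + U + 4) := by ring
        _ ≤ 6 * K * K := mul_le_mul_of_nonneg_left hKL (by positivity)
        _ = _ := by ring
    have h3 : L ^ (2 * B0 + 2) * ((K : ℝ) ^ 2 * z / L ^ C2) ≤ X := by
      rw [hX, le_div_iff₀ hLU]
      calc L ^ (2 * B0 + 2) * ((K : ℝ) ^ 2 * z / L ^ C2) * L ^ (U + 1) ≤
          L ^ (2 * B0 + 2) * ((K : ℝ) ^ 2 * L ^ E / L ^ C2) * L ^ (U + 1) := by gcongr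
        _ = (K : ℝ) ^ 2 * (L ^ (2 * B0 + 2 + E + (U + 1)) / L ^ C2) := by
            field_simp
            ring
        _ ≤ (K : ℝ) ^ 2 * 1 := by
            apply mul_le_mul_of_nonneg_left _ (sq_nonneg _)
            rw [div_le_one (by positivity)]
            apply pow_le_pow_right₀ hL
            omega
        _ = _ := mul_one _
    have h4 : P * (P * (L * (K / L ^ C2 + 1) * (6 * K) + (K : ℝ) ^ 2 * z / L ^ C2)) =
        (P * P) * (L * (K / L ^ C2) * (6 * K)) + (P * P) * (L * (6 * K)) +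
          (P * P) * ((K : ℝ) ^ 2 * z / L ^ C2) := by ring
    rw [h4]
    have m1 := (mul_le_mul_of_nonneg_right hPP
      (show 0 ≤ L * (K / L ^ C2) * (6 * K) by positivity)).trans h1
    have m2 := (mul_le_mul_of_nonneg_right hPP (show 0 ≤ L * (6 * K) by positivity)).trans h2
    have m3 := (mul_le_mul_of_nonneg_right hPP
      (show 0 ≤ (K : ℝ) ^ 2 * z / L ^ C2 by positivity)).trans h3
    linarith
  have hPS : P * S ≤ 17 * X := by
    have h1 := mul_le_mul_of_nonneg_left hSK hP0.le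
    rw [mul_add] at h1
    linarith
  -- the change
  set b := (z : ℝ) * ((Nat.log 2 K + 1 : ℝ) * Real.log K) with hbd
  have hb0 : 0 ≤ b := by
    rw [hbd]
    have := Real.log_natCast_nonneg K
    positivity
  have hbX : b ^ 2 ≤ X := by
    calc b ^ 2 ≤ (K / L ^ A2) ^ 2 := pow_le_pow_left₀ hb0 hb 2
      _ = (K : ℝ) ^ 2 / L ^ (2 * A2) := by rw [div_pow, ← pow_mul, mul_comm A2 2]
      _ ≤ X := by
          rw [hX]
          apply div_le_div_of_nonneg_left (sq_nonneg _) hLU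
          apply pow_le_pow_right₀ hL
          omega
  -- the second moment of the tails
  have hA : ∑ c ∈ SB k s H, (∑ n ∈ Icc 1 K, u n * ErP s G c (pz z) r n) ^ 2 ≤
      N * (36 * (K : ℝ) ^ 2 * (Q + C' * (W / H))) := by
    have h1 : ∀ c ∈ SB k s H, (∑ n ∈ Icc 1 K, u n * ErP s G c (pz z) r n) ^ 2 ≤
        (∑ n ∈ Icc 1 K, u n) * ∑ n ∈ Icc 1 K, u n * (ErP s G c (pz z) r n) ^ 2 := by
      intro c _
      have h2 := Finset.sum_mul_sq_le_sq_mul_sq (Icc 1 K) (fun n => √(u n))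
        (fun n => √(u n) * ErP s G c (pz z) r n)
      have h3 : ∀ n, √(u n) * (√(u n) * ErP s G c (pz z) r n) = u n * ErP s G c (pz z) r n := by
        intro n
        rw [← mul_assoc, Real.mul_self_sqrt (hu0 n)]
      have h4 : ∀ n, √(u n) ^ 2 = u n := fun n => Real.sq_sqrt (hu0 n)
      have h5 : ∀ n, (√(u n) * ErP s G c (pz z) r n) ^ 2 = u n * (ErP s G c (pz z) r n) ^ 2 := by
        intro n
        rw [mul_pow, h4]
      simp only [h3, h4, h5] at h2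
      exact h2
    refine (Finset.sum_le_sum h1).trans ?_
    rw [← Finset.mul_sum, Finset.sum_comm]
    have h2 : ∑ n ∈ Icc 1 K, ∑ c ∈ SB k s H, u n * (ErP s G c (pz z) r n) ^ 2 ≤
        (∑ n ∈ Icc 1 K, u n) * (N * (Q + C' * (W / H))) := by
      rw [Finset.sum_mul]
      refine Finset.sum_le_sum fun n _ => ?_
      rw [← Finset.mul_sum]
      apply mul_le_mul_of_nonneg_left _ (hu0 n)
      refine (e1 n).trans (mul_le_mul_of_nonneg_left ?_ hN0)
      gcongr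
    have h3 : 0 ≤ N * (Q + C' * (W / H)) := by positivity
    calc (∑ n ∈ Icc 1 K, u n) * ∑ n ∈ Icc 1 K, ∑ c ∈ SB k s H, u n * (ErP s G c (pz z) r n) ^ 2
        ≤ (∑ n ∈ Icc 1 K, u n) * ((∑ n ∈ Icc 1 K, u n) * (N * (Q + C' * (W / H)))) :=
          mul_le_mul_of_nonneg_left h2 hus0
      _ ≤ (6 * K) * ((6 * K) * (N * (Q + C' * (W / H)))) := by
          apply mul_le_mul hus _ (mul_nonneg hus0 h3) (by positivity)
          exact mul_le_mul_of_nonneg_right hus h3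
      _ = _ := by ring
  -- pointwise
  have hmain : ∑ c ∈ SB k s H, (∑ n ∈ (Finset.Icc 1 K).filter (fun n : ℕ => ∀ p ∈ pz z,
      ¬ hit s G c p n), ArithmeticFunction.vonMangoldt n -
      K * ∏ p ∈ pz z, (1 - (omp s G c p : ℝ) / ((p : ℝ) - 1))) ^ 2 ≤
      10 * (∑ c ∈ SB k s H, (VrP s G c u (pz z) K r) ^ 2 +
        ∑ c ∈ SB k s H, (VrP s G c u (pz z) K (r + 1)) ^ 2 +
        ∑ c ∈ SB k s H, (∑ n ∈ Icc 1 K, u n * ErP s G c (pz z) r n) ^ 2 + N * b ^ 2) := by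
    have h0 : N * b ^ 2 = ∑ _c ∈ SB k s H, b ^ 2 := by
      rw [Finset.sum_const, nsmul_eq_mul]
    rw [h0, ← sum_add_distrib, ← sum_add_distrib, ← sum_add_distrib, mul_sum]
    apply sum_le_sum
    intro c _
    apply sq4
    have h1 := ptwP s G c u hu0 z K r
    have h2 := uL_diff_sub z K ((Finset.Icc 1 K).filter (fun n : ℕ => ∀ p ∈ pz z,
      ¬ hit s G c p n)) (filter_subset _ _)
    rw [← hu, ← hbd] at h2
    have h3 : ∑ n ∈ (Finset.Icc 1 K).filter (fun n : ℕ => ∀ p ∈ pz z,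
        ¬ hit s G c p n), ArithmeticFunction.vonMangoldt n -
        K * ∏ p ∈ pz z, (1 - (omp s G c p : ℝ) / ((p : ℝ) - 1)) =
      (∑ n ∈ (Finset.Icc 1 K).filter (fun n : ℕ => ∀ p ∈ pz z,
        ¬ hit s G c p n), u n - K * ∏ p ∈ pz z, (1 - (omp s G c p : ℝ) / ((p : ℝ) - 1))) +
      (∑ n ∈ (Finset.Icc 1 K).filter (fun n : ℕ => ∀ p ∈ pz z,
        ¬ hit s G c p n), ArithmeticFunction.vonMangoldt n -
        ∑ n ∈ (Finset.Icc 1 K).filter (fun n : ℕ => ∀ p ∈ pz z, ¬ hit s G c p n), u n) := by ring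
    rw [h3]
    exact (abs_add_le _ _).trans (add_le_add h1 h2)
  refine hmain.trans ?_
  have hw2 : C * (∑ n ∈ Icc 1 K, u n + K) ^ 2 * (((z : ℝ) + 1) ^ (4 * r) / H) ≤
      49 * C * (K : ℝ) ^ 2 * (W / H) := by
    calc _ ≤ C * (7 * (K : ℝ)) ^ 2 * (W / H) := by
          gcongr
          linarith
      _ = _ := by ring
  have hw3 : C * (∑ n ∈ Icc 1 K, u n + K) ^ 2 * (W / H) ≤
      49 * C * (K : ℝ) ^ 2 * (W / H) := by
    calc _ ≤ C * (7 * (K : ℝ)) ^ 2 * (W / H) := by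
          gcongr
          linarith
      _ = _ := by ring
  have v1' : ∑ c ∈ SB k s H, (VrP s G c u (pz z) K r) ^ 2 ≤
      N * (17 * X + 49 * C * (K : ℝ) ^ 2 * (W / H)) :=
    v1.trans (mul_le_mul_of_nonneg_left (add_le_add hPS hw2) hN0)
  have v2' : ∑ c ∈ SB k s H, (VrP s G c u (pz z) K (r + 1)) ^ 2 ≤
      N * (17 * X + 49 * C * (K : ℝ) ^ 2 * (W / H)) :=
    v2.trans (mul_le_mul_of_nonneg_left (add_le_add hPS hw3) hN0)
  have f1 : 10 * (∑ c ∈ SB k s H, (VrP s G c u (pz z) K r) ^ 2 +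
        ∑ c ∈ SB k s H, (VrP s G c u (pz z) K (r + 1)) ^ 2 +
        ∑ c ∈ SB k s H, (∑ n ∈ Icc 1 K, u n * ErP s G c (pz z) r n) ^ 2 + N * b ^ 2) ≤
      N * (350 * X + (K : ℝ) ^ 2 * ((980 * C + 360 * C') * (W / H)) +
        360 * ((K : ℝ) ^ 2 * Q)) := by
    have h1 := mul_le_mul_of_nonneg_left hbX hN0
    have h2 : N * (350 * X + (K : ℝ) ^ 2 * ((980 * C + 360 * C') * (W / H)) +
        360 * ((K : ℝ) ^ 2 * Q)) = 10 * (N * (17 * X + 49 * C * (K : ℝ) ^ 2 * (W / H)) +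
        N * (17 * X + 49 * C * (K : ℝ) ^ 2 * (W / H)) +
        N * (36 * (K : ℝ) ^ 2 * (Q + C' * (W / H))) + N * X) := by ring
    rw [h2]
    linarith
  refine f1.trans ?_
  apply mul_le_mul_of_nonneg_left _ hN0
  have h5 : (K : ℝ) ^ 2 * ((980 * C + 360 * C') * (W / H)) ≤ X := by
    have h6 : (980 * C + 360 * C') * (W / H) ≤ 1 / L ^ (U + 1) := by
      have h7 : 0 ≤ (980 * C + 360 * C') * (W / H) := by positivity
      linarith
    calc _ ≤ (K : ℝ) ^ 2 * (1 / L ^ (U + 1)) := mul_le_mul_of_nonneg_left h6 (sq_nonneg _)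
      _ = X := by rw [hX]; ring
  have h6 : 27 * ((K : ℝ) ^ 2 * Q) ≤ X := by
    calc 27 * ((K : ℝ) ^ 2 * Q) = (K : ℝ) ^ 2 * (27 * Q) := by ring
      _ ≤ (K : ℝ) ^ 2 * (1 / L ^ (U + 1)) := mul_le_mul_of_nonneg_left p3 (sq_nonneg _)
      _ = X := by rw [hX]; ring
  have h7 : (K : ℝ) ^ 2 / L ^ U = L * X := by
    rw [hX]
    field_simp
    ring
  rw [h7]
  nlinarith [mul_le_mul_of_nonneg_right q1 hX0]

end Pool.Agent.Q224.CR
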