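import Pool.Agent.Q224.CR.Bound
import Pool.Agent.H628R2.FPTW
import Pool.Agent.H628R2.Forb.PolyF

/-!
# The algorithm
-/

set_option autoImplicit false

namespace Q224.CR

open Pool.Agent.NPC Pool.Agent.NPC.H628F Pool.Agent.H628R2.Forb

/-- The entry of a matrix. -/
def mget (M : List (List Bool)) (i j : ℕ) : Bool := (M.getD i []).getD j false

/-- One local inversion. -/
def lstep (n : ℕ) (s : List (List Bool) × List Bool) (a : ℕ) : List (List Bool) × List Bool :=
  ((List.range n).map fun i => (List.range n).map fun j =>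
      !decide (i = j) && (mget s.1 i j ^^ (mget s.1 a i && mget s.1 a j)),
    (List.range n).map fun i => s.2.getD i false ^^ mget s.1 a i)

/-- The final test. -/
def test (n : ℕ) (M : List (List Bool)) (s : List (List Bool) × List Bool) : Bool :=
  (List.range n).all fun i => s.2.getD i false &&
    (List.range n).all fun j => decide (mget s.1 i j = mget M i j)

/-- The algorithm. -/
def alg (x : List (List Bool) × List Unit) : Bool :=
  decide (x.1.length ≤ 2 * x.2.length) &&
    (enum (List.range (min x.1.length (2 * x.2.length))) x.2.length).any fun w =>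
      test x.1.length x.1 (w.foldl (lstep x.1.length) (x.1, []))

/-- `s` codes the bicolored graph `B`, relative to the initial colours `β`. -/
def Rep {n : ℕ} (s : List (List Bool) × List Bool) (β : Fin n → ℤˣ)
    (B : SimpleGraph (Fin n) × (Fin n → ℤˣ)) : Prop :=
  (∀ i j : Fin n, mget s.1 i j = true ↔ B.1.Adj i j) ∧
    ∀ i : Fin n, B.2 i = if s.2.getD i false = true then -β i else β i

theorem getD_map_range {β : Type} (n : ℕ) (f : ℕ → β) (i : ℕ) (hi : i < n) (d : β) :
    ((List.range n).map f).getD i d = f i := by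
  rw [List.getD_eq_getElem?_getD, List.getElem?_map, List.getElem?_range hi]
  rfl

theorem mget_map (n : ℕ) (f : ℕ → ℕ → Bool) (i j : ℕ) (hi : i < n) (hj : j < n) :
    mget ((List.range n).map fun i => (List.range n).map fun j => f i j) i j = f i j := by
  rw [mget, getD_map_range n _ i hi, getD_map_range n _ j hj]

theorem rep_step {n : ℕ} {s : List (List Bool) × List Bool} {β : Fin n → ℤˣ}
    {B : SimpleGraph (Fin n) × (Fin n → ℤˣ)} (h : Rep s β B) (a : Fin n) :
    Rep (lstep n s a) β (inversion B a) := by
  classical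
  constructor
  · intro i j
    rw [lstep, mget_map n _ i j i.2 j.2]
    have h1 := h.1 i j
    have h2 := h.1 a i
    have h3 := h.1 a j
    have e : (inversion B a).1.Adj i j ↔ i ≠ j ∧ Xor (B.1.Adj i j) (B.1.Adj a i ∧ B.1.Adj a j) :=
      Iff.rfl
    rw [e, ← h1, ← h2, ← h3]
    have hij : (i = j) ↔ ((i : ℕ) = (j : ℕ)) := Fin.ext_iff
    rw [Ne, hij]
    by_cases h0 : (i : ℕ) = (j : ℕ)
    · simp [h0]
    · cases mget s.1 i j <;> cases mget s.1 a i <;> cases mget s.1 a j <;> simp [h0, Xor]
  · intro i
    have h1 := h.2 i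
    have h2 := h.1 a i
    rw [lstep]
    simp only
    rw [getD_map_range n _ i i.2]
    by_cases hai : B.1.Adj a i
    · have e : (inversion B a).2 i = -B.2 i := by simp [inversion, hai]
      rw [e, h1, h2.mpr hai]
      cases s.2.getD i false <;> simp
    · have e : (inversion B a).2 i = B.2 i := by simp [inversion, hai]
      have h3 : mget s.1 a i = false := by
        cases hm : mget s.1 a i
        · rfl
        · exact absurd (h2.mp hm) hai
      rw [e, h1, h3]
      cases s.2.getD i false <;> simp

theorem rep_fold {n : ℕ} {β : Fin n → ℤˣ} (w : List (Fin n)) :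
    ∀ {s : List (List Bool) × List Bool} {B : SimpleGraph (Fin n) × (Fin n → ℤˣ)}, Rep s β B →
      Rep ((w.map Fin.val).foldl (lstep n) s) β (applyWord B w) := by
  induction w with
  | nil => intro s B h; exact h
  | cons a w ih =>
    intro s B h
    exact ih (rep_step h a)

theorem mget_matrix {n : ℕ} (G : SimpleGraph (Fin n)) (i j : Fin n) :
    mget (matrix G) i j = true ↔ G.Adj i j := by
  classical
  have h1 : (matrix G).getD i [] = List.ofFn fun j : Fin n => decide (G.Adj i j) := by
    rw [matrix, List.getD_eq_getElem?_getD, List.getElem?_ofFn]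
    simp
  rw [mget, h1, List.getD_eq_getElem?_getD, List.getElem?_ofFn]
  simp

theorem length_matrix {n : ℕ} (G : SimpleGraph (Fin n)) : (matrix G).length = n := by
  rw [matrix, List.length_ofFn]

theorem rep_init {n : ℕ} (G : SimpleGraph (Fin n)) (β : Fin n → ℤˣ) :
    Rep (matrix G, []) β (G, β) :=
  ⟨mget_matrix G, fun i => by simp⟩

theorem test_iff {n : ℕ} (G : SimpleGraph (Fin n)) (β : Fin n → ℤˣ)
    {s : List (List Bool) × List Bool} {B : SimpleGraph (Fin n) × (Fin n → ℤˣ)} (h : Rep s β B) :
    test n (matrix G) s = true ↔ B = (G, -β) := by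
  have hu : ∀ u : ℤˣ, -u ≠ u := by decide
  rw [test, List.all_eq_true]
  simp only [List.mem_range, Bool.and_eq_true, List.all_eq_true, decide_eq_true_eq]
  constructor
  · intro ht
    refine Prod.ext ?_ ?_
    · ext i j
      rw [← h.1 i j, (ht i i.2).2 j j.2]
      exact mget_matrix G i j
    · funext i
      rw [h.2 i, (ht i i.2).1]
      simp
  · rintro rfl i hi
    have h1 := h.2 ⟨i, hi⟩
    simp only [Pi.neg_apply] at h1
    refine ⟨?_, ?_⟩
    · by_contra hcon
      rw [if_neg hcon] at h1
      exact hu _ h1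
    · intro j hj
      have h2 := h.1 ⟨i, hi⟩ ⟨j, hj⟩
      have h3 := mget_matrix G ⟨i, hi⟩ ⟨j, hj⟩
      rw [← h3] at h2
      simp only at h2
      cases h4 : mget s.1 i j <;> cases h5 : mget (matrix G) i j <;> simp_all

theorem alg_iff {n : ℕ} (G : SimpleGraph (Fin n)) (k : ℕ) :
    alg (matrix G, List.replicate k ()) = true ↔ Reverses G k := by
  unfold alg
  simp only [length_matrix, List.length_replicate, Bool.and_eq_true, decide_eq_true_eq,
    List.any_eq_true, mem_enum, List.mem_range]
  constructor
  · rintro ⟨hn, w, ⟨hw1, hw2⟩, hw3⟩ β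
    have hw4 : ∀ a ∈ w, a < n := by
      intro a ha
      have := hw2 a ha
      omega
    obtain ⟨w', rfl⟩ : ∃ w' : List (Fin n), w = w'.map Fin.val := by
      refine ⟨w.pmap (fun a h => ⟨a, h⟩) hw4, ?_⟩
      rw [List.map_pmap]
      simp
    refine ⟨w', by simpa using hw1, ?_⟩
    exact (test_iff G β (rep_fold w' (rep_init G β))).mp hw3
  · intro h
    have hn : n ≤ 2 * k := by simpa using card_le h
    refine ⟨hn, ?_⟩
    obtain ⟨w, hw, hw'⟩ := h 1
    refine ⟨w.map Fin.val, ⟨by simpa using hw, ?_⟩, ?_⟩
    · intro a ha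
      rw [List.mem_map] at ha
      obtain ⟨b, -, rfl⟩ := ha
      have := b.2
      omega
    · exact (test_iff G 1 (rep_fold w (rep_init G 1))).mpr hw'

end Q224.CR
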