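import Mathlib
import Pool.Agent.Q236.CR.Stm4
import Pool.Agent.H316R2.LS

/-!
# Project CR (helper236): the mean square over all triples, T3A
-/

set_option autoImplicit false

namespace Pool.Agent.Q224.CR

open Finset
open Pool.Agent.H373R2.T7 (pz Vz lamz Vz_inv_small sup_diff)
open Pool.Agent.H807R2.Dav (ee norm_ee ee_add ee_int ee_pow ee_zero)
open Pool.Agent.Q236.CR
open scoped ComplexConjugate

/-! ### Parseval modulo `M` -/

lemma ee_conj (x : ℝ) : conj (ee x) = ee (-x) := by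
  have h1 : ee x * conj (ee x) = 1 := by
    rw [Complex.mul_conj']
    rw [norm_ee]
    simp
  have h2 : ee x * ee (-x) = 1 := by
    rw [← ee_add]
    simp [ee_zero]
  have h3 : ee x ≠ 0 := by
    intro h
    rw [h] at h1
    simp at h1
  exact mul_left_cancel₀ h3 (h1.trans h2.symm)

lemma ee_eq_one {M : ℕ} (hM : 1 ≤ M) (d : ℤ) (h : ee ((d : ℝ) / M) = 1) : (M : ℤ) ∣ d := by
  have hM0 : (M : ℝ) ≠ 0 := by positivity
  unfold ee at h
  rw [Complex.exp_eq_one_iff] at h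
  obtain ⟨n, hn⟩ := h
  refine ⟨n, ?_⟩
  have h2 : (2 * (Real.pi : ℂ) * Complex.I) ≠ 0 := Complex.two_pi_I_ne_zero
  have h3 : (((d : ℝ) / M : ℝ) : ℂ) = (n : ℂ) := by
    apply mul_left_cancel₀ h2
    rw [hn]
    ring
  have h4 : (d : ℝ) / M = n := by exact_mod_cast h3
  rw [div_eq_iff hM0] at h4
  have h5 : (d : ℝ) = ((M * n : ℤ) : ℝ) := by
    push_cast
    linarith
  exact_mod_cast h5

lemma orth {M : ℕ} (hM : 1 ≤ M) (d : ℤ) :
    ∑ j ∈ range M, ee ((d : ℝ) * ((j : ℝ) / M)) = if (M : ℤ) ∣ d then (M : ℂ) else 0 := by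
  have hM0 : (M : ℝ) ≠ 0 := by positivity
  have h1 : ∀ j ∈ range M, ee ((d : ℝ) * ((j : ℝ) / M)) = ee ((d : ℝ) / M) ^ j := by
    intro j _
    rw [← ee_pow]
    congr 1
    field_simp
  rw [sum_congr rfl h1]
  split_ifs with hd
  · obtain ⟨n, rfl⟩ := hd
    have h2 : ee (((M * n : ℤ) : ℝ) / M) = 1 := by
      rw [show (((M * n : ℤ) : ℝ) / M) = (n : ℝ) by push_cast; field_simp]
      exact ee_int n
    rw [h2]
    simp
  · have h2 : ee ((d : ℝ) / M) ≠ 1 := fun h => hd (ee_eq_one hM d h)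
    rw [geom_sum_eq h2]
    have h3 : ee ((d : ℝ) / M) ^ M = 1 := by
      rw [← ee_pow]
      rw [show (M : ℝ) * ((d : ℝ) / M) = (d : ℝ) by field_simp]
      exact ee_int d
    rw [h3]
    simp

lemma parseval {M : ℕ} (hM : 1 ≤ M) (S : Finset ℤ) (f : ℤ → ℂ)
    (hinj : ∀ x ∈ S, ∀ y ∈ S, (M : ℤ) ∣ x - y → x = y) :
    ∑ j ∈ range M, ‖∑ x ∈ S, f x * ee ((x : ℝ) * ((j : ℝ) / M))‖ ^ 2 = M * ∑ x ∈ S, ‖f x‖ ^ 2 := by
  have key : ((∑ j ∈ range M, ‖∑ x ∈ S, f x * ee ((x : ℝ) * ((j : ℝ) / M))‖ ^ 2 : ℝ) : ℂ) =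
      ((M * ∑ x ∈ S, ‖f x‖ ^ 2 : ℝ) : ℂ) := by
    push_cast
    have h1 : ∀ j ∈ range M, ((‖∑ x ∈ S, f x * ee ((x : ℝ) * ((j : ℝ) / M))‖ : ℂ)) ^ 2 =
        ∑ x ∈ S, ∑ y ∈ S, f x * conj (f y) * ee (((x - y : ℤ) : ℝ) * ((j : ℝ) / M)) := by
      intro j _
      rw [← Complex.mul_conj', map_sum, sum_mul_sum]
      apply sum_congr rfl
      intro x _
      apply sum_congr rfl
      intro y _
      rw [map_mul, ee_conj]
      rw [show ee (((x - y : ℤ) : ℝ) * ((j : ℝ) / M)) = ee ((x : ℝ) * ((j : ℝ) / M)) * ee (-((y : ℝ) * ((j : ℝ) / M))) by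
        rw [← ee_add]; congr 1; push_cast; ring]
      ring
    rw [sum_congr rfl h1, sum_comm, mul_sum]
    apply sum_congr rfl
    intro x hx
    rw [sum_comm]
    have h2 : ∀ y ∈ S, ∑ j ∈ range M, f x * conj (f y) * ee (((x - y : ℤ) : ℝ) * ((j : ℝ) / M)) =
        if y = x then (M : ℂ) * (‖f x‖ : ℂ) ^ 2 else 0 := by
      intro y hy
      rw [← mul_sum, orth hM]
      by_cases hxy : y = x
      · subst hxy
        rw [if_pos rfl, if_pos (by simp), Complex.mul_conj']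
        ring
      · rw [if_neg hxy, if_neg (fun h => hxy (hinj x hx y hy h).symm), mul_zero]
    rw [sum_congr rfl h2, sum_ite_eq' S x, if_pos hx]
  exact_mod_cast key

/-! ### the autocorrelation -/

/-- the autocorrelation of `F` on `[1, X]` -/
noncomputable def CF (F : ℕ → ℂ) (X : ℕ) (h : ℤ) : ℂ :=
  ∑ m ∈ Icc 1 X, ∑ n ∈ Icc 1 X, if (m : ℤ) - n = h then F m * conj (F n) else 0

lemma four_CF (F : ℕ → ℂ) (X : ℕ) (α : ℝ) :
    ((‖∑ n ∈ Icc 1 X, F n * ee ((n : ℝ) * α)‖ : ℂ)) ^ 2 = ∑ h ∈ Icc (-(X : ℤ)) X, CF F X h * ee ((h : ℝ) * α) := by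
  rw [← Complex.mul_conj', map_sum, sum_mul_sum]
  have h1 : ∀ h ∈ Icc (-(X : ℤ)) X, CF F X h * ee ((h : ℝ) * α) =
      ∑ m ∈ Icc 1 X, ∑ n ∈ Icc 1 X, if (m : ℤ) - n = h then F m * conj (F n) * ee ((h : ℝ) * α) else 0 := by
    intro h _
    unfold CF
    rw [sum_mul]
    apply sum_congr rfl
    intro m _
    rw [sum_mul]
    apply sum_congr rfl
    intro n _
    rw [ite_mul, zero_mul]
  rw [sum_congr rfl h1, sum_comm (s := Icc (-(X : ℤ)) X)]
  apply sum_congr rfl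
  intro m hm
  rw [sum_comm (s := Icc (-(X : ℤ)) X)]
  apply sum_congr rfl
  intro n hn
  rw [sum_ite_eq, if_pos]
  · rw [map_mul, ee_conj]
    rw [show ee ((((m : ℤ) - (n : ℤ) : ℤ) : ℝ) * α) = ee ((m : ℝ) * α) * ee (-((n : ℝ) * α)) by
      rw [← ee_add]; congr 1; push_cast; ring]
    ring
  · rw [mem_Icc] at hm hn ⊢
    omega

lemma CF_sq (F : ℕ → ℂ) (X : ℕ) (D : ℝ) (hD : ∀ α : ℝ, ‖∑ n ∈ Icc 1 X, F n * ee ((n : ℝ) * α)‖ ≤ D) :
    ∑ h ∈ Icc (-(X : ℤ)) X, ‖CF F X h‖ ^ 2 ≤ D ^ 2 * ∑ n ∈ Icc 1 X, ‖F n‖ ^ 2 := by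
  set M := 2 * X + 1 with hM
  have hM1 : 1 ≤ M := by omega
  have hM0 : (0 : ℝ) < M := by positivity
  have p1 := parseval hM1 (Icc (-(X : ℤ)) X) (CF F X) (by
    intro x hx y hy hd
    rw [mem_Icc] at hx hy
    have h1 := Int.eq_zero_of_abs_lt_dvd hd (by rw [abs_lt]; push_cast [hM]; constructor <;> omega)
    omega)
  have p2 := parseval hM1 (Icc 1 (X : ℤ)) (fun x => F x.toNat) (by
    intro x hx y hy hd
    rw [mem_Icc] at hx hy
    have h1 := Int.eq_zero_of_abs_lt_dvd hd (by rw [abs_lt]; push_cast [hM]; constructor <;> omega)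
    omega)
  have e1 : ∀ g : ℤ → ℂ, ∑ x ∈ Icc 1 (X : ℤ), g x = ∑ n ∈ Icc 1 X, g n := by
    intro g
    symm
    apply sum_bij (fun (n : ℕ) _ => (n : ℤ))
    · intro n hn; rw [mem_Icc] at hn ⊢; omega
    · intro a _ b _ h; exact_mod_cast h
    · intro b hb
      rw [mem_Icc] at hb
      exact ⟨b.toNat, by rw [mem_Icc]; omega, by omega⟩
    · intro n _; rfl
  have e2 : ∀ g : ℤ → ℝ, ∑ x ∈ Icc 1 (X : ℤ), g x = ∑ n ∈ Icc 1 X, g n := by
    intro g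
    symm
    apply sum_bij (fun (n : ℕ) _ => (n : ℤ))
    · intro n hn; rw [mem_Icc] at hn ⊢; omega
    · intro a _ b _ h; exact_mod_cast h
    · intro b hb
      rw [mem_Icc] at hb
      exact ⟨b.toNat, by rw [mem_Icc]; omega, by omega⟩
    · intro n _; rfl
  rw [e2] at p2
  simp only [e1, Int.toNat_natCast, Int.cast_natCast] at p2
  have h3 : ∀ j ∈ range M, ‖∑ x ∈ Icc (-(X : ℤ)) X, CF F X x * ee ((x : ℝ) * ((j : ℝ) / M))‖ ^ 2 ≤
      D ^ 2 * ‖∑ n ∈ Icc 1 X, F n * ee ((n : ℝ) * ((j : ℝ) / M))‖ ^ 2 := by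
    intro j _
    rw [← four_CF, norm_pow, Complex.norm_real, norm_norm]
    have h4 := hD ((j : ℝ) / M)
    have h5 := norm_nonneg (∑ n ∈ Icc 1 X, F n * ee ((n : ℝ) * ((j : ℝ) / M)))
    have h6 : ‖∑ n ∈ Icc 1 X, F n * ee ((n : ℝ) * ((j : ℝ) / M))‖ ^ 2 ≤ D ^ 2 := pow_le_pow_left₀ h5 h4 2
    rw [sq (_ ^ 2)]
    exact mul_le_mul_of_nonneg_right h6 (by positivity)
  have h4 := sum_le_sum h3
  rw [p1, ← mul_sum, p2] at h4
  have h5 : (M : ℝ) * ∑ x ∈ Icc (-(X : ℤ)) X, ‖CF F X x‖ ^ 2 ≤ M * (D ^ 2 * ∑ n ∈ Icc 1 X, ‖F n‖ ^ 2) := by linarith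
  exact le_of_mul_le_mul_left h5 hM0

/-! ### the mean square for fixed `a, b` -/

lemma SS_eq (F G : ℕ → ℂ) (X a b : ℕ) (c : ℤ) :
    SS F G X a b c = ∑ t ∈ Icc 1 X ×ˢ Icc 1 X, if (a : ℤ) * t.1 - b * t.2 = c then F t.1 * G t.2 else 0 := by
  unfold SS
  rw [sum_filter]

lemma SS_sq (F G : ℕ → ℂ) (X A a b : ℕ) (ha : a ∈ Icc 1 A) (hb : b ∈ Icc 1 A) :
    ((∑ c ∈ Icc (-((A : ℤ) * X)) (A * X), ‖SS F G X a b c‖ ^ 2 : ℝ) : ℂ) =
      ∑ n ∈ Icc 1 X, ∑ n' ∈ Icc 1 X, G n * conj (G n') *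
        ∑ h ∈ Icc (-(X : ℤ)) X, if (a : ℤ) * h = b * ((n : ℤ) - n') then CF F X h else 0 := by
  rw [mem_Icc] at ha hb
  push_cast
  have h1 : ∀ c ∈ Icc (-((A : ℤ) * X)) (A * X), ((‖SS F G X a b c‖ : ℂ)) ^ 2 =
      ∑ t ∈ Icc 1 X ×ˢ Icc 1 X, ∑ t' ∈ Icc 1 X ×ˢ Icc 1 X, if (a : ℤ) * t.1 - b * t.2 = c then
        (if (a : ℤ) * t'.1 - b * t'.2 = c then F t.1 * G t.2 * conj (F t'.1 * G t'.2) else 0) else 0 := by
    intro c _
    rw [← Complex.mul_conj', SS_eq, map_sum, sum_mul_sum]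
    apply sum_congr rfl
    intro t _
    apply sum_congr rfl
    intro t' _
    split_ifs <;> simp
  rw [sum_congr rfl h1, sum_comm]
  have h2 : ∀ t ∈ Icc 1 X ×ˢ Icc 1 X, ∑ c ∈ Icc (-((A : ℤ) * X)) (A * X), ∑ t' ∈ Icc 1 X ×ˢ Icc 1 X,
      (if (a : ℤ) * t.1 - b * t.2 = c then
        (if (a : ℤ) * t'.1 - b * t'.2 = c then F t.1 * G t.2 * conj (F t'.1 * G t'.2) else 0) else 0) =
      ∑ t' ∈ Icc 1 X ×ˢ Icc 1 X, if (a : ℤ) * t'.1 - b * t'.2 = (a : ℤ) * t.1 - b * t.2 then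
        F t.1 * G t.2 * conj (F t'.1 * G t'.2) else 0 := by
    intro t ht
    rw [sum_comm]
    apply sum_congr rfl
    intro t' _
    rw [sum_ite_eq, if_pos]
    rw [mem_product, mem_Icc, mem_Icc] at ht
    rw [mem_Icc]
    obtain ⟨⟨ha1, ha2⟩, hb1, hb2⟩ := And.intro ha hb
    obtain ⟨⟨h3, h4⟩, h5, h6⟩ := ht
    have i1 : (a : ℤ) * t.1 ≤ A * X := by exact_mod_cast Nat.mul_le_mul ha2 h4
    have i2 : (b : ℤ) * t.2 ≤ A * X := by exact_mod_cast Nat.mul_le_mul hb2 h6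
    have i3 : (0 : ℤ) ≤ (a : ℤ) * t.1 := by positivity
    have i4 : (0 : ℤ) ≤ (b : ℤ) * t.2 := by positivity
    constructor <;> linarith
  rw [sum_congr rfl h2]
  -- reorder
  simp only [sum_product]
  rw [sum_comm]
  apply sum_congr rfl
  intro n _
  have h3 : ∀ m ∈ Icc 1 X, (∑ m' ∈ Icc 1 X, ∑ n' ∈ Icc 1 X, if (a : ℤ) * m' - b * n' = (a : ℤ) * m - b * n then
        F m * G n * conj (F m' * G n') else 0) = ∑ n' ∈ Icc 1 X, ∑ m' ∈ Icc 1 X,
        if (a : ℤ) * m' - b * n' = (a : ℤ) * m - b * n then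
        F m * G n * conj (F m' * G n') else 0 := by
    intro m _
    rw [sum_comm]
  rw [sum_congr rfl h3, sum_comm]
  apply sum_congr rfl
  intro n' _
  have h4 : ∀ h ∈ Icc (-(X : ℤ)) X, (if (a : ℤ) * h = b * ((n : ℤ) - n') then CF F X h else 0) =
      ∑ m ∈ Icc 1 X, ∑ m' ∈ Icc 1 X, if (m : ℤ) - m' = h then
        (if (a : ℤ) * h = b * ((n : ℤ) - n') then F m * conj (F m') else 0) else 0 := by
    intro h _
    unfold CF
    split_ifs with hh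
    · rfl
    · simp
  rw [sum_congr rfl h4, sum_comm (s := Icc (-(X : ℤ)) X), mul_sum]
  apply sum_congr rfl
  intro m hm
  rw [sum_comm (s := Icc (-(X : ℤ)) X), mul_sum]
  apply sum_congr rfl
  intro m' hm'
  have hmem : (m : ℤ) - m' ∈ Icc (-(X : ℤ)) X := by
    rw [mem_Icc] at hm hm' ⊢
    omega
  rw [sum_ite_eq (Icc (-(X : ℤ)) X), if_pos hmem]
  have e : ((a : ℤ) * m' - b * n' = (a : ℤ) * m - b * n) ↔ ((a : ℤ) * ((m : ℤ) - m') = b * ((n : ℤ) - n')) := by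
    constructor <;> intro h <;> linarith
  by_cases h : (a : ℤ) * m' - b * n' = (a : ℤ) * m - b * n
  · rw [if_pos h, if_pos (e.1 h), map_mul]
    ring
  · rw [if_neg h, if_neg (fun h' => h (e.2 h')), mul_zero]

lemma SS_le (F G : ℕ → ℂ) (X A a b : ℕ) (ha : a ∈ Icc 1 A) (hb : b ∈ Icc 1 A) (L : ℝ) (hG : ∀ n, ‖G n‖ ≤ L) :
    ∑ c ∈ Icc (-((A : ℤ) * X)) (A * X), ‖SS F G X a b c‖ ^ 2 ≤
      L ^ 2 * ∑ h ∈ Icc (-(X : ℤ)) X, ‖CF F X h‖ * ∑ n ∈ Icc 1 X, ∑ n' ∈ Icc 1 X,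
        if (a : ℤ) * h = b * ((n : ℤ) - n') then 1 else 0 := by
  have h0 := SS_sq F G X A a b ha hb
  have h1 : 0 ≤ ∑ c ∈ Icc (-((A : ℤ) * X)) (A * X), ‖SS F G X a b c‖ ^ 2 := sum_nonneg fun _ _ => by positivity
  rw [← Real.norm_of_nonneg h1, ← Complex.norm_real, h0]
  have hL : 0 ≤ L := (norm_nonneg _).trans (hG 0)
  refine (norm_sum_le _ _).trans ?_
  have h2 : ∀ n ∈ Icc 1 X, ‖∑ n' ∈ Icc 1 X, G n * conj (G n') *
        ∑ h ∈ Icc (-(X : ℤ)) X, (if (a : ℤ) * h = b * ((n : ℤ) - n') then CF F X h else 0)‖ ≤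
      ∑ n' ∈ Icc 1 X, L ^ 2 * ∑ h ∈ Icc (-(X : ℤ)) X, ‖CF F X h‖ * if (a : ℤ) * h = b * ((n : ℤ) - n') then 1 else 0 := by
    intro n _
    refine (norm_sum_le _ _).trans ?_
    apply sum_le_sum
    intro n' _
    rw [norm_mul, norm_mul, RCLike.norm_conj]
    have h3 : ‖∑ h ∈ Icc (-(X : ℤ)) X, (if (a : ℤ) * h = b * ((n : ℤ) - n') then CF F X h else 0)‖ ≤
        ∑ h ∈ Icc (-(X : ℤ)) X, ‖CF F X h‖ * if (a : ℤ) * h = b * ((n : ℤ) - n') then 1 else 0 := by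
      refine (norm_sum_le _ _).trans ?_
      apply sum_le_sum
      intro h _
      split_ifs <;> simp
    have h4 : ‖G n‖ * ‖G n'‖ ≤ L ^ 2 := by
      rw [sq]
      exact mul_le_mul (hG _) (hG _) (norm_nonneg _) hL
    exact mul_le_mul h4 h3 (norm_nonneg _) (by positivity)
  refine (sum_le_sum h2).trans (le_of_eq ?_)
  simp only [← mul_sum]
  congr 1
  rw [sum_congr rfl (fun n _ => sum_comm), sum_comm]
  apply sum_congr rfl
  intro h _
  simp only [← mul_sum]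

/-! ### counting -/

lemma cnt_one (X a b : ℕ) (hb : 1 ≤ b) (h : ℤ) (n : ℕ) :
    (∑ n' ∈ Icc 1 X, if (a : ℤ) * h = b * ((n : ℤ) - n') then (1 : ℝ) else 0) ≤
      if b ∣ a * h.natAbs then 1 else 0 := by
  by_cases hd : b ∣ a * h.natAbs
  · rw [if_pos hd, ← sum_filter, sum_const, nsmul_eq_mul, mul_one]
    have : ((Icc 1 X).filter fun n' : ℕ => (a : ℤ) * h = b * ((n : ℤ) - n')).card ≤ 1 := by
      rw [card_le_one]
      intro x hx y hy
      rw [mem_filter] at hx hy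
      have h1 : (b : ℤ) * ((n : ℤ) - x) = b * ((n : ℤ) - y) := hx.2.symm.trans hy.2
      have h2 := mul_left_cancel₀ (by exact_mod_cast (by omega : b ≠ 0)) h1
      omega
    exact_mod_cast this
  · rw [if_neg hd]
    apply le_of_eq
    apply sum_eq_zero
    intro n' _
    rw [if_neg]
    intro h1
    apply hd
    have h2 : (b : ℤ) ∣ (a : ℤ) * h := ⟨_, h1⟩
    have h3 := Int.natAbs_dvd_natAbs.2 h2
    rwa [Int.natAbs_mul, Int.natAbs_natCast, Int.natAbs_natCast] at h3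

lemma cnt_h (X A : ℕ) (h : ℤ) (hh : h ≠ 0) :
    ∑ a ∈ Icc 1 A, ∑ b ∈ Icc 1 A, ∑ n ∈ Icc 1 X, ∑ n' ∈ Icc 1 X,
        (if (a : ℤ) * h = b * ((n : ℤ) - n') then (1 : ℝ) else 0) ≤
      X * (h.natAbs.divisors.card * (A * (1 + Real.log A) ^ 2)) := by
  have h1 : ∀ a ∈ Icc 1 A, ∑ b ∈ Icc 1 A, ∑ n ∈ Icc 1 X, ∑ n' ∈ Icc 1 X,
        (if (a : ℤ) * h = b * ((n : ℤ) - n') then (1 : ℝ) else 0) ≤
        X * (h.natAbs.divisors.card * a.divisors.card) := by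
    intro a ha
    rw [mem_Icc] at ha
    calc _ ≤ ∑ b ∈ Icc 1 A, ∑ n ∈ Icc 1 X, (if b ∣ a * h.natAbs then (1 : ℝ) else 0) := by
          apply sum_le_sum
          intro b hb
          rw [mem_Icc] at hb
          apply sum_le_sum
          intro n _
          exact cnt_one X a b hb.1 h n
      _ = X * ∑ b ∈ Icc 1 A, (if b ∣ a * h.natAbs then (1 : ℝ) else 0) := by
          rw [mul_sum]
          apply sum_congr rfl
          intro b _
          rw [sum_const, Nat.card_Icc, nsmul_eq_mul]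
          simp
      _ ≤ X * ((a * h.natAbs).divisors.card) := by
          apply mul_le_mul_of_nonneg_left _ (Nat.cast_nonneg _)
          rw [← sum_filter, sum_const, nsmul_eq_mul, mul_one]
          have : ((Icc 1 A).filter fun b => b ∣ a * h.natAbs).card ≤ (a * h.natAbs).divisors.card := by
            apply card_le_card
            intro b hb
            rw [mem_filter] at hb
            rw [Nat.mem_divisors]
            exact ⟨hb.2, mul_ne_zero (by omega) (Int.natAbs_ne_zero.2 hh)⟩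
          exact_mod_cast this
      _ ≤ _ := by
          apply mul_le_mul_of_nonneg_left _ (Nat.cast_nonneg _)
          have := Pool.Agent.H316R2.tau_mul_le a h.natAbs
          rw [mul_comm (h.natAbs.divisors.card : ℝ)]
          exact_mod_cast this
  refine (sum_le_sum h1).trans ?_
  rw [← mul_sum, ← mul_sum]
  apply mul_le_mul_of_nonneg_left _ (Nat.cast_nonneg _)
  apply mul_le_mul_of_nonneg_left _ (Nat.cast_nonneg _)
  have h2 := Pool.Agent.H316R2.tau_sum_le A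
  calc ∑ a ∈ Icc 1 A, (a.divisors.card : ℝ) ≤ ∑ a ∈ Icc 1 A, A * ((a.divisors.card : ℝ) / a) := by
        apply sum_le_sum
        intro a ha
        rw [mem_Icc] at ha
        have ha0 : (0 : ℝ) < a := by exact_mod_cast ha.1
        have haA : (a : ℝ) ≤ A := by exact_mod_cast ha.2
        rw [mul_div_assoc', le_div_iff₀ ha0, mul_comm]
        exact mul_le_mul_of_nonneg_right haA (Nat.cast_nonneg _)
    _ = A * ∑ a ∈ Icc 1 A, ((a.divisors.card : ℝ) / a) := by rw [mul_sum]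
    _ ≤ _ := mul_le_mul_of_nonneg_left h2 (Nat.cast_nonneg _)

lemma cnt_0 (X A : ℕ) :
    ∑ a ∈ Icc 1 A, ∑ b ∈ Icc 1 A, ∑ n ∈ Icc 1 X, ∑ n' ∈ Icc 1 X,
        (if (a : ℤ) * 0 = b * ((n : ℤ) - n') then (1 : ℝ) else 0) ≤ (A : ℝ) ^ 2 * X := by
  calc _ ≤ ∑ a ∈ Icc 1 A, ∑ b ∈ Icc 1 A, ∑ n ∈ Icc 1 X, (1 : ℝ) := by
        apply sum_le_sum
        intro a _
        apply sum_le_sum
        intro b hb
        rw [mem_Icc] at hb
        apply sum_le_sum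
        intro n _
        refine (cnt_one X a b hb.1 0 n).trans ?_
        split_ifs <;> norm_num
    _ = _ := by
        simp
        ring

lemma tau_abs (X : ℕ) :
    ∑ h ∈ Icc (-(X : ℤ)) X, (h.natAbs.divisors.card : ℝ) ^ 2 ≤ 2 * (X * (1 + Real.log X) ^ 4) := by
  have h1 : ∑ n ∈ Icc 1 X, (n.divisors.card : ℝ) ^ 2 ≤ X * (1 + Real.log X) ^ 4 := by
    have h2 := Pool.Agent.H316R2.tau_sq_sum_le X
    calc ∑ a ∈ Icc 1 X, (a.divisors.card : ℝ) ^ 2 ≤ ∑ a ∈ Icc 1 X, X * ((a.divisors.card : ℝ) ^ 2 / a) := by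
          apply sum_le_sum
          intro a ha
          rw [mem_Icc] at ha
          have ha0 : (0 : ℝ) < a := by exact_mod_cast ha.1
          have haA : (a : ℝ) ≤ X := by exact_mod_cast ha.2
          rw [mul_div_assoc', le_div_iff₀ ha0, mul_comm]
          exact mul_le_mul_of_nonneg_right haA (by positivity)
      _ = X * ∑ a ∈ Icc 1 X, ((a.divisors.card : ℝ) ^ 2 / a) := by rw [mul_sum]
      _ ≤ _ := mul_le_mul_of_nonneg_left h2 (Nat.cast_nonneg _)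
  have h3 : ∑ h ∈ Icc (-(X : ℤ)) X, (h.natAbs.divisors.card : ℝ) ^ 2 ≤
      ∑ h ∈ ((Icc 0 X).image (fun n : ℕ => (n : ℤ))) ∪ ((Icc 0 X).image (fun n : ℕ => -(n : ℤ))),
        (h.natAbs.divisors.card : ℝ) ^ 2 := by
    apply sum_le_sum_of_subset_of_nonneg _ (fun _ _ _ => by positivity)
    intro h hh
    rw [mem_Icc] at hh
    rw [mem_union, mem_image, mem_image]
    rcases le_or_gt 0 h with h0 | h0
    · exact Or.inl ⟨h.toNat, by rw [mem_Icc]; omega, by omega⟩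
    · exact Or.inr ⟨(-h).toNat, by rw [mem_Icc]; omega, by omega⟩
  have h4 : ∀ A B : Finset ℤ, ∑ h ∈ A ∪ B, (h.natAbs.divisors.card : ℝ) ^ 2 ≤
      ∑ h ∈ A, (h.natAbs.divisors.card : ℝ) ^ 2 + ∑ h ∈ B, (h.natAbs.divisors.card : ℝ) ^ 2 := by
    intro A B
    rw [← sum_union_inter]
    have : 0 ≤ ∑ h ∈ A ∩ B, (h.natAbs.divisors.card : ℝ) ^ 2 := sum_nonneg fun _ _ => by positivity
    linarith
  have h5 : ∑ n ∈ Icc 0 X, (n.divisors.card : ℝ) ^ 2 = ∑ n ∈ Icc 1 X, (n.divisors.card : ℝ) ^ 2 := by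
    symm
    apply sum_subset
    · intro n hn; rw [mem_Icc] at hn ⊢; omega
    · intro n hn hn2
      rw [mem_Icc] at hn hn2
      have : n = 0 := by omega
      subst this
      simp
  refine h3.trans ((h4 _ _).trans ?_)
  rw [sum_image (by intro a _ b _ h; exact Int.ofNat.inj h), sum_image (by intro a _ b _ h; exact Int.ofNat.inj (neg_injective h))]
  simp only [Int.natAbs_neg, Int.natAbs_natCast]
  rw [h5]
  linarith

/-! ### the theorem -/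

lemma mono_all (F G : ℕ → ℂ) (X A : ℕ) (L D : ℝ) (hL : 1 ≤ L) (hX : 1 ≤ X) (hA : 1 ≤ A) (hlX : Real.log X = L)
    (hAX : A ≤ X) (hG : ∀ n, ‖G n‖ ≤ L) (hF : ∀ n ∈ Icc 1 X, ‖F n‖ ≤ L)
    (hD : ∀ α : ℝ, ‖∑ n ∈ Icc 1 X, F n * ee ((n : ℝ) * α)‖ ≤ D) :
    ∑ a ∈ Icc 1 A, ∑ b ∈ Icc 1 A, ∑ c ∈ Icc (-((A : ℤ) * X)) (A * X), ‖SS F G X a b c‖ ^ 2 ≤
      (A : ℝ) ^ 2 * X ^ 2 * L ^ 4 + 32 * (A * X ^ 2 * L ^ 7 * D) := by
  have hD0 : 0 ≤ D := (norm_nonneg _).trans (hD 0)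
  have hL0 : 0 ≤ L := by linarith
  have hX0 : (0 : ℝ) < X := by exact_mod_cast hX
  have hA0 : (0 : ℝ) < A := by exact_mod_cast hA
  have hFs : ∑ n ∈ Icc 1 X, ‖F n‖ ^ 2 ≤ X * L ^ 2 := by
    calc _ ≤ ∑ n ∈ Icc 1 X, L ^ 2 := sum_le_sum fun n hn => pow_le_pow_left₀ (norm_nonneg _) (hF n hn) 2
      _ = _ := by rw [sum_const, Nat.card_Icc, nsmul_eq_mul]; simp
  have hCF := CF_sq F X D hD
  have hC0 : ‖CF F X 0‖ ≤ X * L ^ 2 := by
    have h1 : CF F X 0 = ∑ m ∈ Icc 1 X, F m * conj (F m) := by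
      unfold CF
      apply sum_congr rfl
      intro m hm
      rw [sum_eq_single m]
      · simp
      · intro n _ hn
        rw [if_neg]
        intro h
        apply hn
        omega
      · intro h; exact absurd hm h
    rw [h1]
    refine (norm_sum_le _ _).trans (le_trans (le_of_eq ?_) hFs)
    apply sum_congr rfl
    intro m _
    rw [norm_mul, RCLike.norm_conj, sq]
  have hlA : Real.log A ≤ L := by
    rw [← hlX]
    apply Real.log_le_log hA0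
    exact_mod_cast hAX
  have hlA0 : 0 ≤ Real.log A := Real.log_natCast_nonneg A
  -- rearrange
  have h1 : ∑ a ∈ Icc 1 A, ∑ b ∈ Icc 1 A, ∑ c ∈ Icc (-((A : ℤ) * X)) (A * X), ‖SS F G X a b c‖ ^ 2 ≤
      L ^ 2 * ∑ h ∈ Icc (-(X : ℤ)) X, ‖CF F X h‖ * ∑ a ∈ Icc 1 A, ∑ b ∈ Icc 1 A, ∑ n ∈ Icc 1 X, ∑ n' ∈ Icc 1 X,
        if (a : ℤ) * h = b * ((n : ℤ) - n') then 1 else 0 := by
    calc _ ≤ ∑ a ∈ Icc 1 A, ∑ b ∈ Icc 1 A, L ^ 2 * ∑ h ∈ Icc (-(X : ℤ)) X, ‖CF F X h‖ * ∑ n ∈ Icc 1 X, ∑ n' ∈ Icc 1 X,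
        (if (a : ℤ) * h = b * ((n : ℤ) - n') then (1 : ℝ) else 0) := by
          apply sum_le_sum
          intro a ha
          apply sum_le_sum
          intro b hb
          exact SS_le F G X A a b ha hb L hG
      _ = _ := by
          simp only [← mul_sum]
          congr 1
          rw [sum_congr rfl (fun n _ => sum_comm), sum_comm]
          apply sum_congr rfl
          intro h _
          simp only [← mul_sum]
  refine h1.trans ?_
  have hK : 0 ≤ X * (A * (1 + Real.log A) ^ 2) := by positivity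
  have h2 : ∑ h ∈ Icc (-(X : ℤ)) X, ‖CF F X h‖ * ∑ a ∈ Icc 1 A, ∑ b ∈ Icc 1 A, ∑ n ∈ Icc 1 X, ∑ n' ∈ Icc 1 X,
        (if (a : ℤ) * h = b * ((n : ℤ) - n') then (1 : ℝ) else 0) ≤
      (X * L ^ 2) * ((A : ℝ) ^ 2 * X) +
        ∑ h ∈ Icc (-(X : ℤ)) X, ‖CF F X h‖ * (X * (h.natAbs.divisors.card * (A * (1 + Real.log A) ^ 2))) := by
    rw [← add_sum_erase _ _ (show (0 : ℤ) ∈ Icc (-(X : ℤ)) X by rw [mem_Icc]; omega)]
    apply add_le_add
    · exact mul_le_mul hC0 (cnt_0 X A) (sum_nonneg fun _ _ => sum_nonneg fun _ _ => sum_nonneg fun _ _ =>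
        sum_nonneg fun _ _ => by split_ifs <;> norm_num) (by positivity)
    · refine le_trans (sum_le_sum (fun h hh => ?_)) (sum_le_sum_of_subset_of_nonneg (erase_subset _ _) (fun _ _ _ => by positivity))
      rw [mem_erase] at hh
      exact mul_le_mul_of_nonneg_left (cnt_h X A h hh.1) (norm_nonneg _)
  have h3 : ∑ h ∈ Icc (-(X : ℤ)) X, ‖CF F X h‖ * (X * (h.natAbs.divisors.card * (A * (1 + Real.log A) ^ 2))) =
      X * (A * (1 + Real.log A) ^ 2) * ∑ h ∈ Icc (-(X : ℤ)) X, (h.natAbs.divisors.card : ℝ) * ‖CF F X h‖ := by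
    rw [mul_sum]
    apply sum_congr rfl
    intro h _
    ring
  have h4 : ∑ h ∈ Icc (-(X : ℤ)) X, (h.natAbs.divisors.card : ℝ) * ‖CF F X h‖ ≤ 8 * (X * L ^ 3 * D) := by
    have h5 := sum_mul_sq_le_sq_mul_sq (Icc (-(X : ℤ)) X) (fun h => (h.natAbs.divisors.card : ℝ)) (fun h => ‖CF F X h‖)
    have h6 : (∑ h ∈ Icc (-(X : ℤ)) X, (h.natAbs.divisors.card : ℝ) ^ 2) * (∑ h ∈ Icc (-(X : ℤ)) X, ‖CF F X h‖ ^ 2) ≤
        (2 * (X * (1 + Real.log X) ^ 4)) * (D ^ 2 * (X * L ^ 2)) :=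
      mul_le_mul (tau_abs X) (hCF.trans (mul_le_mul_of_nonneg_left hFs (by positivity)))
        (sum_nonneg fun _ _ => by positivity) (by positivity)
    have h7 : (2 * (X * (1 + Real.log X) ^ 4)) * (D ^ 2 * (X * L ^ 2)) ≤ (8 * (X * L ^ 3 * D)) ^ 2 := by
      rw [hlX]
      have h8 : (1 + L) ^ 4 ≤ (2 * L) ^ 4 := pow_le_pow_left₀ (by linarith) (by linarith) 4
      calc (2 * (X * (1 + L) ^ 4)) * (D ^ 2 * (X * L ^ 2)) ≤ (2 * (X * (2 * L) ^ 4)) * (D ^ 2 * (X * L ^ 2)) := by gcongr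
        _ = 32 * (X * L ^ 3 * D) ^ 2 := by ring
        _ ≤ 64 * (X * L ^ 3 * D) ^ 2 := by
            have := sq_nonneg (X * L ^ 3 * D)
            linarith
        _ = _ := by ring
    exact (abs_le_of_sq_le_sq' ((h5.trans h6).trans h7) (by positivity)).2
  have h5 : (1 + Real.log A) ^ 2 ≤ 4 * L ^ 2 := by
    calc (1 + Real.log A) ^ 2 ≤ (2 * L) ^ 2 := pow_le_pow_left₀ (by linarith) (by linarith) 2
      _ = _ := by ring
  rw [h3] at h2
  calc _ ≤ L ^ 2 * ((X * L ^ 2) * ((A : ℝ) ^ 2 * X) + X * (A * (1 + Real.log A) ^ 2) *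
        ∑ h ∈ Icc (-(X : ℤ)) X, (h.natAbs.divisors.card : ℝ) * ‖CF F X h‖) :=
        mul_le_mul_of_nonneg_left h2 (by positivity)
    _ ≤ L ^ 2 * ((X * L ^ 2) * ((A : ℝ) ^ 2 * X) + X * (A * (4 * L ^ 2)) * (8 * (X * L ^ 3 * D))) := by
        have h6 : X * (A * (1 + Real.log A) ^ 2) ≤ X * (A * (4 * L ^ 2)) := by gcongr
        have h7 : X * (A * (1 + Real.log A) ^ 2) *
          ∑ h ∈ Icc (-(X : ℤ)) X, (h.natAbs.divisors.card : ℝ) * ‖CF F X h‖ ≤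
          X * (A * (4 * L ^ 2)) * (8 * (X * L ^ 3 * D)) :=
          mul_le_mul h6 h4 (sum_nonneg fun _ _ => by positivity) (by positivity)
        exact mul_le_mul_of_nonneg_left (by linarith) (by positivity)
    _ = _ := by ring

lemma ev_logs (M0 : ℝ) : ∃ N0 : ℕ, ∀ N : ℕ, N0 ≤ N → M0 ≤ Real.log N := by
  have hlim : Filter.Tendsto (fun N : ℕ => Real.log (N : ℝ)) Filter.atTop Filter.atTop :=
    Real.tendsto_log_atTop.comp (tendsto_natCast_atTop_atTop (R := ℝ))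
  exact Filter.eventually_atTop.1 (hlim.eventually_ge_atTop M0)

/-- **T3A** -/
theorem t3a : S_T3A := by
  intro U
  obtain ⟨E0, hE0⟩ := sup_diff (U + 8)
  refine ⟨E0, U + 5, fun E => ?_⟩
  obtain ⟨N1, h1⟩ := hE0 E
  obtain ⟨N2, h2⟩ := Vz_inv_small E
  obtain ⟨N3, h3⟩ := ev_logs 64
  refine ⟨max (max N1 N2) (max N3 1), fun X hX z hz1 hz2 A hA hAX G hG => ?_⟩
  have g1 : N1 ≤ X := le_trans (le_trans (le_max_left _ _) (le_max_left _ _)) hX
  have g2 : N2 ≤ X := le_trans (le_trans (le_max_right _ _) (le_max_left _ _)) hX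
  have g3 : N3 ≤ X := le_trans (le_trans (le_max_left _ _) (le_max_right _ _)) hX
  have g4 : 1 ≤ X := le_trans (le_trans (le_max_right _ _) (le_max_right _ _)) hX
  set L := Real.log X with hLd
  have hL : 64 ≤ L := h3 X g3
  have hL0 : 0 < L := by linarith
  have hX0 : (0 : ℝ) < X := by exact_mod_cast g4
  have hA0 : (0 : ℝ) < A := by exact_mod_cast hA
  have hzr : (1 : ℝ) ≤ z := (one_le_pow₀ (by linarith)).trans hz1
  have hz : 1 ≤ z := by exact_mod_cast hzr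
  have hVz := h2 X g2 z hz hz2
  have hVz0 : 0 ≤ (Vz z)⁻¹ := by
    apply inv_nonneg.2
    exact le_trans (by positivity) (Pool.Agent.H373R2.T7.Vz_ge z hz)
  have hF : ∀ n ∈ Icc 1 X, ‖fL z n‖ ≤ L := by
    intro n hn
    rw [mem_Icc] at hn
    unfold fL
    rw [Complex.norm_real, Real.norm_eq_abs, abs_le]
    have i1 : 0 ≤ ArithmeticFunction.vonMangoldt n := ArithmeticFunction.vonMangoldt_nonneg
    have i2 : ArithmeticFunction.vonMangoldt n ≤ L := by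
      refine (ArithmeticFunction.vonMangoldt_le_log).trans ?_
      exact Real.log_le_log (by exact_mod_cast hn.1) (by exact_mod_cast hn.2)
    have i3 : 0 ≤ lamz z n := by unfold lamz; split_ifs <;> [exact hVz0; exact le_rfl]
    have i4 : lamz z n ≤ L := by unfold lamz; split_ifs <;> [exact hVz; exact hL0.le]
    constructor <;> linarith
  have hD : ∀ α : ℝ, ‖∑ n ∈ Icc 1 X, fL z n * ee ((n : ℝ) * α)‖ ≤ X / L ^ (U + 8) := by
    intro α
    exact h1 X g1 z hz1 hz2 α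
  have hLB : (1 : ℝ) ≤ L ^ (U + 5) := one_le_pow₀ (by linarith)
  have hAXn : A ≤ X := by
    have : (A : ℝ) ≤ X := by nlinarith
    exact_mod_cast this
  refine (mono_all (fL z) G X A L (X / L ^ (U + 8)) (by linarith) g4 hA rfl hAXn hG hF hD).trans ?_
  have k1 : (A : ℝ) ^ 2 * X ^ 2 * L ^ 4 ≤ 1 / 2 * (A * (X : ℝ) ^ 3 / L ^ U) := by
    rw [← mul_div_assoc, le_div_iff₀ (by positivity)]
    calc (A : ℝ) ^ 2 * X ^ 2 * L ^ 4 * L ^ U = A * X ^ 2 * (A * L ^ (U + 5)) / L := by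
          rw [eq_div_iff hL0.ne']
          ring
      _ ≤ A * X ^ 2 * X / L := by gcongr
      _ ≤ A * X ^ 2 * X / 2 := by
          apply div_le_div_of_nonneg_left (by positivity) (by norm_num)
          linarith
      _ = _ := by ring
  have k2 : 32 * (A * X ^ 2 * L ^ 7 * (X / L ^ (U + 8))) ≤ 1 / 2 * (A * (X : ℝ) ^ 3 / L ^ U) := by
    have : 32 * (A * X ^ 2 * L ^ 7 * (X / L ^ (U + 8))) = (32 / L) * (A * (X : ℝ) ^ 3 / L ^ U) := by
      rw [show L ^ (U + 8) = L ^ U * L ^ 7 * L by ring]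
      field_simp
    rw [this]
    apply mul_le_mul_of_nonneg_right _ (by positivity)
    rw [div_le_iff₀ hL0]
    linarith
  linarith

end Pool.Agent.Q224.CR
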